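import Pool.Agent.CSM.GL.NE
import Pool.Agent.CSM.Model

/-! # The Schubert model of `GL_{n+1}` -/

open Matrix MvPolynomial

noncomputable section

namespace Pool.Agent.CSM.GL

variable {n : ℕ} {k : Type} [Field k]

theorem sw_val (i : Fin n) (a : Fin (n + 1)) : ((sw i a : Fin (n + 1)) : ℕ) =
    if (a : ℕ) = i then (i : ℕ) + 1 else if (a : ℕ) = i + 1 then (i : ℕ) else a := by
  unfold sw
  rw [Equiv.swap_apply_def]
  split_ifs with h1 h2 h3 h4 h5 <;> simp_all [Fin.ext_iff]

theorem perm_An (i : Fin n) : ∀ j ∈ An n, j ≠ (actn k i).ei →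
    (actn k i).perm j ∈ An n ∧ (actn k i).perm j ≠ (actn k i).ei := by
  rintro ⟨a, b⟩ hj hne
  change (sw i a, sw i b) ∈ An n ∧ (sw i a, sw i b) ≠ (i.castSucc, i.succ)
  change (a, b) ≠ (i.castSucc, i.succ) at hne
  simp only [An, Finset.mem_filter, Finset.mem_univ, true_and] at hj ⊢
  rw [Ne, Prod.mk.injEq, Fin.ext_iff, Fin.ext_iff, Fin.val_castSucc, Fin.val_succ] at hne
  rw [Ne, Prod.mk.injEq, Fin.ext_iff, Fin.ext_iff, Fin.val_castSucc, Fin.val_succ,
    Fin.le_def, sw_val, sw_val]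
  rw [Fin.le_def] at hj
  split_ifs <;> omega

/-- the Schubert model of `GL_{n+1}` -/
def glModel (k : Type) [Field k] [CharZero k] (n : ℕ) :
    Model k (Ln n) (Sg n) (Wn n) (Fin n) where
  w := wt
  hb := hbn
  al := aln
  sL := sLn
  wy1 := wy1n
  wy2 := wy2n
  deg := degn n
  deg_w j := by simp [degn, wt]
  sL_hb := sLn_hbn
  sL_al i := by
    rw [← wy_sub, map_sub, sLn_wy1, sLn_wy2]; abel
  sL_sL i a := (sLn i).left_inv a
  sL_wy1 := sLn_wy1
  sL_wy2 := sLn_wy2
  wy_sub := wy_sub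
  pos0 := pos0_Ln
  sep := sep_Ln
  act := actn k
  A := An n
  fi_A i := by
    change (i.succ, i.castSucc) ∉ An n
    simp only [An, Finset.mem_filter, Finset.mem_univ, true_and, not_le]
    exact Fin.castSucc_lt_succ
  ei_A i := by
    change (i.castSucc, i.succ) ∈ An n
    simp only [An, Finset.mem_filter, Finset.mem_univ, true_and]
    exact Fin.castSucc_lt_succ.le
  perm_ei i := by
    change (sw i i.castSucc, sw i i.succ) = (i.succ, i.castSucc)
    simp [sw]
  perm_A := perm_An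
  s := sw
  s_sq := sw_sq
  asc := asc
  len := len
  len_s := len_sw
  len_lt i v h := len_lt i v h
  len_one := len_one
  len_le := len_le
  E := En k
  E_T := En_T
  E_A v u M hM j hj := En_A v u M hM j hj
  E_h v u M hM i := En_h v u M hM i
  E_one := En_one
  E_one' := En_one'
  Eh_x := Eh_x
  Eh_d := Eh_d
  Eh_s := Eh_s
  L := Lfn
  L_ne := L_ne
  L_zero := L_zero
  L_zero' := L_zero'
  L_x := L_x
  L_d := L_d
  L_s := L_s
  L_T := L_T
  cq := cqn
  q := qn k
  q' := qn' k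
  q_w i v u _ := qn_w i v u
  q'_w i v u h := qn'_w i v u h
  q_L i v u _ M _ := by rw [eval_qn, eval_qn', mul_comm]
  q_ne i v u h M hM := by rw [eval_qn]; exact L_zero' i v u h M hM
  gr_E := gr_En
  ne1 := ne1_n
  ne2 := ne2_n

end Pool.Agent.CSM.GL
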