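import Pool.Agent.CSM.GL.Basic

/-! # Module GP: permutation combinatorics -/

noncomputable section

namespace Pool.Agent.CSM.GL

variable {n : ℕ}

theorem sw_sq (i : Fin n) : sw i * sw i = 1 := Equiv.swap_mul_self _ _

theorem gp_apply_inv (v : Wn n) (a : Fin (n + 1)) : v (v⁻¹ a) = a := Equiv.apply_symm_apply v a

theorem gp_inv_apply_self (v : Wn n) (a : Fin (n + 1)) : v⁻¹ (v a) = a :=
  Equiv.symm_apply_apply v a

theorem gp_sw_castSucc (i : Fin n) : sw i i.castSucc = i.succ := Equiv.swap_apply_left _ _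

theorem gp_sw_succ (i : Fin n) : sw i i.succ = i.castSucc := Equiv.swap_apply_right _ _

theorem gp_sw_inv (i : Fin n) : (sw i)⁻¹ = sw i := Equiv.swap_inv _ _

theorem gp_sw_sw (i : Fin n) (a : Fin (n + 1)) : sw i (sw i a) = a := by
  rw [← Equiv.Perm.mul_apply, sw_sq, Equiv.Perm.one_apply]

theorem gp_sw_mul_mul (i : Fin n) (v : Wn n) : sw i * (sw i * v) = v := by
  rw [← mul_assoc, sw_sq, one_mul]

theorem gp_sw_of_ne (i : Fin n) (a : Fin (n + 1)) (h1 : a ≠ i.castSucc) (h2 : a ≠ i.succ) :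
    sw i a = a := Equiv.swap_apply_of_ne_of_ne h1 h2

theorem gp_inv_apply (i : Fin n) (v : Wn n) (a : Fin (n + 1)) :
    (sw i * v)⁻¹ a = v⁻¹ (sw i a) := by
  rw [mul_inv_rev, gp_sw_inv, Equiv.Perm.mul_apply]

theorem gp_ne (i : Fin n) (v : Wn n) : v⁻¹ i.castSucc ≠ v⁻¹ i.succ := by
  intro h
  have h1 := v⁻¹.injective h
  exact (Fin.castSucc_lt_succ (i := i)).ne h1

theorem asc_sw_iff (i : Fin n) (v : Wn n) : asc i (sw i * v) ↔ ¬ asc i v := by
  unfold asc
  rw [gp_inv_apply, gp_inv_apply, gp_sw_castSucc, gp_sw_succ, not_lt]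
  have := gp_ne i v
  constructor
  · exact fun h => h.le
  · exact fun h => lt_of_le_of_ne h (Ne.symm this)

/-- the value of a simple reflection -/
theorem gp_sw_val (i : Fin n) (a : Fin (n + 1)) :
    ((sw i a : Fin (n + 1)) : ℕ) =
      if (a : ℕ) = i then (i : ℕ) + 1 else if (a : ℕ) = (i : ℕ) + 1 then (i : ℕ) else a := by
  by_cases h1 : a = i.castSucc
  · rw [h1, gp_sw_castSucc]
    simp
  by_cases h2 : a = i.succ
  · rw [h2, gp_sw_succ]
    simp
  rw [gp_sw_of_ne i a h1 h2]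
  have h1' : (a : ℕ) ≠ i := fun h => h1 (Fin.ext (by simpa using h))
  have h2' : (a : ℕ) ≠ (i : ℕ) + 1 := fun h => h2 (Fin.ext (by simpa using h))
  rw [if_neg h1', if_neg h2']

theorem gp_sw_lt (i : Fin n) (a b : Fin (n + 1)) (h : a < b)
    (hne : ¬ (a = i.castSucc ∧ b = i.succ)) : sw i a < sw i b := by
  rw [Fin.lt_def, gp_sw_val, gp_sw_val]
  rw [Fin.lt_def] at h
  have h1 : ¬ ((a : ℕ) = i ∧ (b : ℕ) = (i : ℕ) + 1) := fun h =>
    hne ⟨Fin.ext (by simpa using h.1), Fin.ext (by simpa using h.2)⟩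
  split_ifs <;> omega

theorem len_one : len (1 : Wn n) = 0 := by
  unfold len
  rw [Finset.card_eq_zero, Finset.filter_eq_empty_iff]
  rintro ⟨a, b⟩ _ ⟨h1, h2⟩
  rw [inv_one, Equiv.Perm.one_apply, Equiv.Perm.one_apply] at h2
  exact lt_asymm h1 h2

theorem len_sw (i : Fin n) (v : Wn n) (h : asc i v) : len (sw i * v) = len v + 1 := by
  classical
  unfold len
  have h1 : (Finset.univ.filter (fun p : Fin (n + 1) × Fin (n + 1) =>
      p.1 < p.2 ∧ (sw i * v)⁻¹ p.2 < (sw i * v)⁻¹ p.1)) =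
      insert (i.castSucc, i.succ) ((Finset.univ.filter (fun p : Fin (n + 1) × Fin (n + 1) =>
      p.1 < p.2 ∧ v⁻¹ p.2 < v⁻¹ p.1)).image (fun p => (sw i p.1, sw i p.2))) := by
    ext ⟨a, b⟩
    simp only [Finset.mem_filter, Finset.mem_univ, true_and, Finset.mem_insert, Finset.mem_image,
      Prod.mk.injEq, Prod.exists, gp_inv_apply]
    constructor
    · rintro ⟨hab, hv⟩
      by_cases hc : a = i.castSucc ∧ b = i.succ
      · exact Or.inl hc
      · refine Or.inr ⟨sw i a, sw i b, ⟨gp_sw_lt i a b hab hc, hv⟩, gp_sw_sw i a, gp_sw_sw i b⟩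
    · rintro (⟨rfl, rfl⟩ | ⟨a', b', ⟨hab, hv⟩, rfl, rfl⟩)
      · refine ⟨Fin.castSucc_lt_succ, ?_⟩
        rw [gp_sw_castSucc, gp_sw_succ]
        exact h
      · rw [gp_sw_sw, gp_sw_sw]
        refine ⟨gp_sw_lt i a' b' hab ?_, hv⟩
        rintro ⟨rfl, rfl⟩
        exact lt_asymm h hv
  rw [h1, Finset.card_insert_of_notMem, Finset.card_image_of_injective]
  · rintro ⟨a, b⟩ ⟨a', b'⟩ hab
    simp only [Prod.mk.injEq, EmbeddingLike.apply_eq_iff_eq] at hab
    exact Prod.ext hab.1 hab.2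
  · simp only [Finset.mem_image, Finset.mem_filter, Finset.mem_univ, true_and, Prod.mk.injEq,
      Prod.exists, not_exists, not_and]
    rintro a b ⟨hab, _⟩ ha hb
    have ha' : a = i.succ := by rw [← gp_sw_sw i a, ha, gp_sw_castSucc]
    have hb' : b = i.castSucc := by rw [← gp_sw_sw i b, hb, gp_sw_succ]
    rw [ha', hb'] at hab
    exact lt_asymm hab Fin.castSucc_lt_succ

/-- `#{(a,b) : a ≤ b, w⁻¹ a ≤ w⁻¹ b} + len w = #{a ≤ b}` -/
theorem card_add_len (w : Wn n) :
    (Finset.univ.filter (fun p : Fin (n + 1) × Fin (n + 1) =>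
      p.1 ≤ p.2 ∧ w⁻¹ p.1 ≤ w⁻¹ p.2)).card + len w = nA n := by
  classical
  unfold len nA
  rw [← Finset.card_union_of_disjoint]
  · congr 1
    ext ⟨a, b⟩
    simp only [Finset.mem_union, Finset.mem_filter, Finset.mem_univ, true_and]
    constructor
    · rintro (h | h)
      · exact h.1
      · exact h.1.le
    · intro h
      rcases le_or_gt (w⁻¹ a) (w⁻¹ b) with h1 | h1
      · exact Or.inl ⟨h, h1⟩
      · refine Or.inr ⟨lt_of_le_of_ne h ?_, h1⟩
        rintro rfl
        exact lt_irrefl _ h1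
  · rw [Finset.disjoint_filter]
    rintro ⟨a, b⟩ _ ⟨_, h1⟩ ⟨_, h2⟩
    exact absurd h2 (not_lt.mpr h1)

theorem gp_len_lt (v : Wn n) : len v < nA n := by
  have h1 := card_add_len v
  have h2 : 0 < (Finset.univ.filter (fun p : Fin (n + 1) × Fin (n + 1) =>
      p.1 ≤ p.2 ∧ v⁻¹ p.1 ≤ v⁻¹ p.2)).card := by
    rw [Finset.card_pos]
    exact ⟨(0, 0), by simp⟩
  omega

theorem len_lt (i : Fin n) (v : Wn n) (_h : asc i v) : len v < nA n := gp_len_lt v

theorem len_le (v : Wn n) : len v ≤ nA n := (gp_len_lt v).le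

/-- the rank function changes only in row `i+1` -/
theorem gp_rk_sw_ne (i : Fin n) (v : Wn n) (l m : ℕ) (hl : l ≠ (i : ℕ) + 1) :
    rk (sw i * v) l m = rk v l m := by
  unfold rk
  congr 1
  ext j
  simp only [Finset.mem_filter, Finset.mem_univ, true_and, Equiv.Perm.mul_apply, gp_sw_val]
  constructor
  · rintro ⟨h1, h2⟩
    refine ⟨h1, ?_⟩
    split_ifs at h2 <;> omega
  · rintro ⟨h1, h2⟩
    refine ⟨h1, ?_⟩
    split_ifs <;> omega

theorem gp_rk_succ (v : Wn n) (l : Fin (n + 1)) (m : ℕ) :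
    rk v (l + 1) m = rk v l m + if ((v⁻¹ l : Fin (n + 1)) : ℕ) < m then 1 else 0 := by
  classical
  unfold rk
  have h1 : (Finset.univ.filter (fun j : Fin (n + 1) =>
      (j : ℕ) < m ∧ ((v j : Fin (n + 1)) : ℕ) < (l : ℕ) + 1)) =
      (Finset.univ.filter (fun j : Fin (n + 1) =>
        (j : ℕ) < m ∧ ((v j : Fin (n + 1)) : ℕ) < (l : ℕ))) ∪
      (Finset.univ.filter (fun j : Fin (n + 1) => (j : ℕ) < m ∧ j = v⁻¹ l)) := by
    ext j
    simp only [Finset.mem_union, Finset.mem_filter, Finset.mem_univ, true_and,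
      Equiv.Perm.eq_inv_iff_eq]
    constructor
    · rintro ⟨h1, h2⟩
      rcases Nat.lt_succ_iff_lt_or_eq.mp h2 with h3 | h3
      · exact Or.inl ⟨h1, h3⟩
      · exact Or.inr ⟨h1, Fin.ext h3⟩
    · rintro (⟨h1, h2⟩ | ⟨h1, h2⟩)
      · exact ⟨h1, by omega⟩
      · exact ⟨h1, by rw [h2]; omega⟩
  rw [h1, Finset.card_union_of_disjoint]
  · congr 1
    split_ifs with hlt
    · rw [Finset.card_eq_one]
      refine ⟨v⁻¹ l, ?_⟩
      ext j
      simp only [Finset.mem_filter, Finset.mem_univ, true_and, Finset.mem_singleton]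
      constructor
      · exact fun h => h.2
      · rintro rfl
        exact ⟨hlt, rfl⟩
    · rw [Finset.card_eq_zero, Finset.filter_eq_empty_iff]
      rintro j _ ⟨h2, h3⟩
      rw [h3] at h2
      exact hlt h2
  · rw [Finset.disjoint_filter]
    rintro j _ ⟨_, h2⟩ ⟨_, h3⟩
    rw [h3, gp_apply_inv] at h2
    exact lt_irrefl _ h2

/-- the two new values of the rank function around row `i+1` -/
theorem gp_rk_one (i : Fin n) (v : Wn n) (m : ℕ) :
    rk v ((i : ℕ) + 1) m = rk v i m + if ((v⁻¹ i.castSucc : Fin (n + 1)) : ℕ) < m then 1 else 0 :=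
  gp_rk_succ v i.castSucc m

theorem gp_rk_two (i : Fin n) (v : Wn n) (m : ℕ) :
    rk v ((i : ℕ) + 2) m = rk v ((i : ℕ) + 1) m +
      if ((v⁻¹ i.succ : Fin (n + 1)) : ℕ) < m then 1 else 0 := by
  have h := gp_rk_succ v i.succ m
  simpa using h

theorem gp_rk_sw (i : Fin n) (v : Wn n) (m : ℕ) :
    rk (sw i * v) ((i : ℕ) + 1) m =
      rk v i m + if ((v⁻¹ i.succ : Fin (n + 1)) : ℕ) < m then 1 else 0 := by
  rw [gp_rk_one, gp_rk_sw_ne i v _ _ (by omega), gp_inv_apply, gp_sw_castSucc]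

theorem rk_sw_le (i : Fin n) (v : Wn n) (h : asc i v) (l m : ℕ) :
    rk (sw i * v) l m ≤ rk v l m := by
  by_cases hl : l = (i : ℕ) + 1
  · subst hl
    unfold asc at h
    rw [Fin.lt_def] at h
    rw [gp_rk_sw, gp_rk_one]
    split_ifs <;> omega
  · rw [gp_rk_sw_ne i v l m hl]

theorem gp_eq_one_of_le (v : Wn n) (h : ∀ j, v j ≤ j) : v = 1 := by
  have h1 : ∑ j, ((v j : Fin (n + 1)) : ℕ) = ∑ j : Fin (n + 1), (j : ℕ) :=
    Equiv.sum_comp v (fun j : Fin (n + 1) => (j : ℕ))
  have h2 := (Finset.sum_eq_sum_iff_of_le (s := Finset.univ)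
    (f := fun j => ((v j : Fin (n + 1)) : ℕ)) (g := fun j : Fin (n + 1) => (j : ℕ))
    (fun j _ => Fin.le_def.mp (h j))).mp h1
  ext j
  rw [h2 j (Finset.mem_univ j), Equiv.Perm.one_apply]

theorem exists_desc (w : Wn n) (hw : w ≠ 1) : ∃ i : Fin n, ¬ asc i w := by
  by_contra hcon
  push Not at hcon
  have hm : StrictMono (fun a => w⁻¹ a) := Fin.strictMono_iff_lt_succ.mpr hcon
  have h1 : ∀ a, a ≤ w⁻¹ a := fun a => hm.le_apply
  apply hw
  apply gp_eq_one_of_le
  intro j
  have h2 := h1 (w j)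
  rwa [gp_inv_apply_self] at h2

theorem gp_len_desc (i : Fin n) (u : Wn n) (h : ¬ asc i u) : len u = len (sw i * u) + 1 := by
  have h1 := len_sw i (sw i * u) ((asc_sw_iff i u).mpr h)
  rwa [gp_sw_mul_mul] at h1

/-- induction along left multiplication by simple reflections -/
theorem perm_induction {P : Wn n → Prop} (h1 : P 1) (hs : ∀ (i : Fin n) u, P u → P (sw i * u))
    (u : Wn n) : P u := by
  have key : ∀ (k : ℕ) (u : Wn n), len u = k → P u := by
    intro k
    induction k with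
    | zero =>
      intro u hu
      by_cases hu1 : u = 1
      · rw [hu1]
        exact h1
      · obtain ⟨i, hi⟩ := exists_desc u hu1
        have := gp_len_desc i u hi
        omega
    | succ k ih =>
      intro u hu
      by_cases hu1 : u = 1
      · rw [hu1]
        exact h1
      · obtain ⟨i, hi⟩ := exists_desc u hu1
        have h2 := gp_len_desc i u hi
        have h3 := hs i (sw i * u) (ih _ (by omega))
        rwa [gp_sw_mul_mul] at h3
  exact key _ u rfl

theorem gp_rk_le_sw (i : Fin n) (v y : Wn n) (h : ∀ l m, rk y l m ≤ rk v l m) (hv : asc i v) (l m : ℕ) : rk (sw i * y) l m ≤ rk v l m := by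
  by_cases hl : l = (i : ℕ) + 1
  · subst hl
    have h1 := h i m
    have h2 := h ((i : ℕ) + 2) m
    rw [gp_rk_two, gp_rk_two, gp_rk_one, gp_rk_one] at h2
    unfold asc at hv
    rw [Fin.lt_def] at hv
    rw [gp_rk_sw, gp_rk_one]
    split_ifs at h2 ⊢ <;> omega
  · rw [gp_rk_sw_ne i y l m hl]
    exact h l m

theorem gp_rk_sw_le_sw (i : Fin n) (v y : Wn n) (h : ∀ l m, rk y l m ≤ rk v l m)
    (hv : ¬ asc i v) (l m : ℕ) : rk (sw i * y) l m ≤ rk (sw i * v) l m := by
  by_cases hl : l = (i : ℕ) + 1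
  · subst hl
    have h1 := h i m
    have h2 := h ((i : ℕ) + 2) m
    rw [gp_rk_two, gp_rk_two, gp_rk_one, gp_rk_one] at h2
    have h3 := gp_ne i v
    have h3' : ((v⁻¹ i.castSucc : Fin (n + 1)) : ℕ) ≠ ((v⁻¹ i.succ : Fin (n + 1)) : ℕ) :=
      fun h => h3 (Fin.ext h)
    unfold asc at hv
    rw [Fin.lt_def] at hv
    rw [gp_rk_sw, gp_rk_sw]
    split_ifs at h2 ⊢ <;> omega
  · rw [gp_rk_sw_ne i y l m hl, gp_rk_sw_ne i v l m hl]
    exact h l m

/-- comparison of rank functions controls the length (Bruhat order) -/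
theorem len_le_of_rk (v y : Wn n) (h : ∀ l m, rk y l m ≤ rk v l m) :
    len v ≤ len y ∧ (len y ≤ len v → y = v) := by
  have key : ∀ (k : ℕ) (v y : Wn n), len y = k → (∀ l m, rk y l m ≤ rk v l m) →
      len v ≤ len y ∧ (len y ≤ len v → y = v) := by
    intro k
    induction k with
    | zero =>
      intro v y hk h
      have hy : y = 1 := by
        by_contra hy1
        obtain ⟨i, hi⟩ := exists_desc y hy1
        have := gp_len_desc i y hi
        omega
      subst hy
      have hv : v = 1 := by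
        apply gp_eq_one_of_le
        intro j
        have h1 := h ((j : ℕ) + 1) ((j : ℕ) + 1)
        unfold rk at h1
        have h2 : (Finset.univ.filter (fun a : Fin (n + 1) =>
            (a : ℕ) < (j : ℕ) + 1 ∧ ((v a : Fin (n + 1)) : ℕ) < (j : ℕ) + 1)) =
            (Finset.univ.filter (fun a : Fin (n + 1) =>
            (a : ℕ) < (j : ℕ) + 1 ∧ (((1 : Wn n) a : Fin (n + 1)) : ℕ) < (j : ℕ) + 1)) := by
          apply Finset.eq_of_subset_of_card_le
          · intro a ha
            rw [Finset.mem_filter] at ha ⊢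
            refine ⟨ha.1, ha.2.1, ?_⟩
            rw [Equiv.Perm.one_apply]
            exact ha.2.1
          · exact h1
        have h3 : j ∈ (Finset.univ.filter (fun a : Fin (n + 1) =>
            (a : ℕ) < (j : ℕ) + 1 ∧ ((v a : Fin (n + 1)) : ℕ) < (j : ℕ) + 1)) := by
          rw [h2, Finset.mem_filter]
          refine ⟨Finset.mem_univ _, by omega, ?_⟩
          rw [Equiv.Perm.one_apply]
          omega
        rw [Finset.mem_filter] at h3
        rw [Fin.le_def]
        omega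
      rw [hv]
      exact ⟨le_rfl, fun _ => rfl⟩
    | succ k ih =>
      intro v y hk h
      have hy1 : y ≠ 1 := by
        rintro rfl
        rw [len_one] at hk
        omega
      obtain ⟨i, hi⟩ := exists_desc y hy1
      have hlen := gp_len_desc i y hi
      by_cases hv : asc i v
      · obtain ⟨h1, _⟩ := ih v (sw i * y) (by omega) (gp_rk_le_sw i v y h hv)
        refine ⟨by omega, fun h2 => ?_⟩
        omega
      · obtain ⟨h1, h2⟩ := ih (sw i * v) (sw i * y) (by omega) (gp_rk_sw_le_sw i v y h hv)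
        have hlen' := gp_len_desc i v hv
        refine ⟨by omega, fun h3 => ?_⟩
        have h4 := h2 (by omega)
        exact mul_left_cancel h4
  exact key _ v y rfl h

end Pool.Agent.CSM.GL
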