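import Mathlib

/-! # GL_{n+1}: definitions (cells, permutation combinatorics, eigenvector matrix) -/

open Matrix

noncomputable section

namespace Pool.Agent.CSM.GL

variable {n : ℕ}

/-- square matrices of size `n+1` -/
abbrev Mx (n : ℕ) (K : Type) := Matrix (Fin (n + 1)) (Fin (n + 1)) K
/-- the symmetric group -/
abbrev Wn (n : ℕ) := Equiv.Perm (Fin (n + 1))

section Perm

/-- simple reflection -/
def sw (i : Fin n) : Wn n := Equiv.swap i.castSucc i.succ

/-- `s_i v > v`: the value `i` occurs before the value `i+1` -/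
def asc (i : Fin n) (v : Wn n) : Prop := v⁻¹ i.castSucc < v⁻¹ i.succ

/-- length: number of pairs of values in wrong order -/
def len (v : Wn n) : ℕ :=
  (Finset.univ.filter (fun p : Fin (n + 1) × Fin (n + 1) => p.1 < p.2 ∧ v⁻¹ p.2 < v⁻¹ p.1)).card

/-- rank function `r_v(l,m) = #{j < m : v j < l}` -/
def rk (v : Wn n) (l m : ℕ) : ℕ :=
  (Finset.univ.filter (fun j : Fin (n + 1) => (j : ℕ) < m ∧ ((v j : Fin (n + 1)) : ℕ) < l)).card

/-- number of positions `(a,b)` with `a ≤ b` -/
def nA (n : ℕ) : ℕ :=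
  (Finset.univ.filter (fun p : Fin (n + 1) × Fin (n + 1) => p.1 ≤ p.2)).card

end Perm

section Cells

variable {K : Type} [Field K]

/-- upper triangular -/
def UT (M : Mx n K) : Prop := ∀ a b, b < a → M a b = 0
/-- lower triangular -/
def LT (M : Mx n K) : Prop := ∀ a b, a < b → M a b = 0
/-- upper unitriangular -/
def UU (M : Mx n K) : Prop := UT M ∧ ∀ a, M a a = 1

/-- permutation matrix: `e_b ↦ e_{v b}` -/
def PM (K : Type) [CommRing K] (v : Wn n) : Mx n K := fun a b => if a = v b then 1 else 0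

/-- `g ∈ B⁻ v B` -/
def InC (v : Wn n) (g : Mx n K) : Prop :=
  ∃ b c : Mx n K, LT b ∧ b.det ≠ 0 ∧ UT c ∧ c.det ≠ 0 ∧ g = b * PM K v * c

/-- `g ∈ N w B` -/
def InN (w : Wn n) (g : Mx n K) : Prop :=
  ∃ b c : Mx n K, UU b ∧ UT c ∧ c.det ≠ 0 ∧ g = b * PM K w * c

/-- embedding of a 2×2 matrix in rows/columns `i, i+1` -/
def emb (i : Fin n) (g : Matrix (Fin 2) (Fin 2) K) : Mx n K := fun a b =>
  if a = i.castSucc then (if b = i.castSucc then g 0 0 else if b = i.succ then g 0 1 else 0)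
  else if a = i.succ then (if b = i.castSucc then g 1 0 else if b = i.succ then g 1 1 else 0)
  else if a = b then 1 else 0

/-- the minor with rows `ρ` and columns `0, …, m-1` -/
def mnr {R : Type} [CommRing R] {m : ℕ} (hm : m ≤ n + 1) (ρ : Fin m → Fin (n + 1))
    (g : Mx n R) : R :=
  (g.submatrix ρ (Fin.castLE hm)).det

/-- number of columns used for the pair `(i, v)` -/
def mv (i : Fin n) (v : Wn n) : ℕ := ((v⁻¹ i.castSucc : Fin (n + 1)) : ℕ) + 1

theorem mv_le (i : Fin n) (v : Wn n) : mv i v ≤ n + 1 := by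
  have := (v⁻¹ i.castSucc).isLt
  unfold mv; omega

/-- rows `v 0, …, v (m-1)` (the last one is `i`) -/
def ra (i : Fin n) (v : Wn n) : Fin (mv i v) → Fin (n + 1) := fun j => v (Fin.castLE (mv_le i v) j)
/-- the same rows with `i` replaced by `i+1` -/
def rb (i : Fin n) (v : Wn n) : Fin (mv i v) → Fin (n + 1) :=
  fun j => sw i (v (Fin.castLE (mv_le i v) j))

/-- eigenvector matrix: column `b` is `∏_{c<b} (M - M_cc) e_b` -/
def Wm {R : Type} [CommRing R] (M : Matrix (Fin (n + 1)) (Fin (n + 1)) R) :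
    Matrix (Fin (n + 1)) (Fin (n + 1)) R := fun a b =>
  (Polynomial.aeval M (∏ c ∈ Finset.Iio b, (Polynomial.X - Polynomial.C (M c c)))) a b

end Cells

end Pool.Agent.CSM.GL
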