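import Pool.Agent.CSM.GL.Perm

/-! # Module GA: Bruhat cells in `GL_{n+1}(K)` -/

open Matrix

noncomputable section

namespace Pool.Agent.CSM.GL

variable {n : ℕ} {K : Type} [Field K]

/-! ## triangular matrices -/

theorem ga_UT_iff {a : Mx n K} : UT a ↔ a.BlockTriangular id :=
  ⟨fun h i j hij => h i j hij, fun h i j hij => h hij⟩

theorem ga_LT_iff {a : Mx n K} : LT a ↔ a.BlockTriangular OrderDual.toDual :=
  ⟨fun h i j hij => h i j hij, fun h i j hij => h hij⟩

theorem UT.mul {a b : Mx n K} (ha : UT a) (hb : UT b) : UT (a * b) := by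
  intro i j hij
  rw [Matrix.mul_apply]
  refine Finset.sum_eq_zero fun k _ => ?_
  rcases lt_or_ge k i with h | h
  · rw [ha i k h, zero_mul]
  · rw [hb k j (lt_of_lt_of_le hij h), mul_zero]

theorem LT.mul {a b : Mx n K} (ha : LT a) (hb : LT b) : LT (a * b) := by
  intro i j hij
  rw [Matrix.mul_apply]
  refine Finset.sum_eq_zero fun k _ => ?_
  rcases lt_or_ge i k with h | h
  · rw [ha i k h, zero_mul]
  · rw [hb k j (lt_of_le_of_lt h hij), mul_zero]

theorem UT.one : UT (1 : Mx n K) := fun a b h => Matrix.one_apply_ne h.ne'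
theorem LT.one : LT (1 : Mx n K) := fun a b h => Matrix.one_apply_ne h.ne

theorem UT.inv {a : Mx n K} (ha : UT a) : UT a⁻¹ := by
  by_cases h : IsUnit a.det
  · letI := Matrix.invertibleOfIsUnitDet a h
    rw [ga_UT_iff] at *
    exact Matrix.blockTriangular_inv_of_blockTriangular ha
  · rw [Matrix.nonsing_inv_apply_not_isUnit a h]
    intro _ _ _; rfl

theorem LT.inv {a : Mx n K} (ha : LT a) : LT a⁻¹ := by
  by_cases h : IsUnit a.det
  · letI := Matrix.invertibleOfIsUnitDet a h
    rw [ga_LT_iff] at *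
    exact Matrix.blockTriangular_inv_of_blockTriangular ha
  · rw [Matrix.nonsing_inv_apply_not_isUnit a h]
    intro _ _ _; rfl

theorem UT.det_eq {a : Mx n K} (ha : UT a) : a.det = ∏ j, a j j :=
  Matrix.det_of_isUpperTriangular (ga_UT_iff.1 ha)

theorem LT.det_eq {a : Mx n K} (ha : LT a) : a.det = ∏ j, a j j :=
  Matrix.det_of_isLowerTriangular a (ga_LT_iff.1 ha)

theorem UT.mul_diag {a b : Mx n K} (ha : UT a) (hb : UT b) (j : Fin (n + 1)) :
    (a * b) j j = a j j * b j j := by
  rw [Matrix.mul_apply, Finset.sum_eq_single j]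
  · intro k _ hk
    rcases lt_or_gt_of_ne hk with h | h
    · rw [ha j k h, zero_mul]
    · rw [hb k j h, mul_zero]
  · intro h; exact absurd (Finset.mem_univ _) h

theorem UU.mul {a b : Mx n K} (ha : UU a) (hb : UU b) : UU (a * b) :=
  ⟨ha.1.mul hb.1, fun j => by rw [ha.1.mul_diag hb.1, ha.2, hb.2, one_mul]⟩

theorem UU.det {a : Mx n K} (ha : UU a) : a.det = 1 := by
  rw [ha.1.det_eq]
  exact Finset.prod_eq_one fun j _ => ha.2 j

theorem UU.inv {a : Mx n K} (ha : UU a) : UU a⁻¹ := by
  refine ⟨ha.1.inv, fun j => ?_⟩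
  have h1 : a * a⁻¹ = 1 := Matrix.mul_nonsing_inv a (by rw [ha.det]; exact isUnit_one)
  have h2 := ha.1.mul_diag ha.1.inv j
  rw [h1, Matrix.one_apply_eq, ha.2, one_mul] at h2
  exact h2.symm

theorem ga_UT_diag_ne {a : Mx n K} (ha : UT a) (h : a.det ≠ 0) (j : Fin (n + 1)) : a j j ≠ 0 := by
  intro h1
  apply h
  rw [ha.det_eq]
  exact Finset.prod_eq_zero (Finset.mem_univ j) h1

theorem ga_LT_diag_ne {a : Mx n K} (ha : LT a) (h : a.det ≠ 0) (j : Fin (n + 1)) : a j j ≠ 0 := by
  intro h1
  apply h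
  rw [ha.det_eq]
  exact Finset.prod_eq_zero (Finset.mem_univ j) h1

theorem ga_mul_det {a b : Mx n K} (ha : a.det ≠ 0) (hb : b.det ≠ 0) : (a * b).det ≠ 0 := by
  rw [Matrix.det_mul]; exact mul_ne_zero ha hb

theorem ga_inv_det {a : Mx n K} (ha : a.det ≠ 0) : (a⁻¹).det ≠ 0 := by
  rw [Matrix.det_nonsing_inv, Ring.inverse_eq_inv']
  exact inv_ne_zero ha

theorem ga_mul_inv {a : Mx n K} (ha : a.det ≠ 0) : a * a⁻¹ = 1 :=
  Matrix.mul_nonsing_inv a (isUnit_iff_ne_zero.2 ha)

theorem ga_inv_mul {a : Mx n K} (ha : a.det ≠ 0) : a⁻¹ * a = 1 :=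
  Matrix.nonsing_inv_mul a (isUnit_iff_ne_zero.2 ha)

/-! ## permutation matrices -/

theorem ga_PM_mul_apply (v : Wn n) (M : Mx n K) (a b : Fin (n + 1)) :
    (PM K v * M) a b = M (v⁻¹ a) b := by
  rw [Matrix.mul_apply, Finset.sum_eq_single (v⁻¹ a)]
  · simp [PM]
  · intro k _ hk
    have : a ≠ v k := by
      rintro rfl
      exact hk (by simp)
    simp [PM, this]
  · intro h; exact absurd (Finset.mem_univ _) h

theorem ga_mul_PM_apply (v : Wn n) (M : Mx n K) (a b : Fin (n + 1)) :
    (M * PM K v) a b = M a (v b) := by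
  rw [Matrix.mul_apply, Finset.sum_eq_single (v b)]
  · simp [PM]
  · intro k _ hk
    simp [PM, hk]
  · intro h; exact absurd (Finset.mem_univ _) h

theorem PM_mul (u v : Wn n) : PM K u * PM K v = PM K (u * v) := by
  ext a b
  rw [ga_mul_PM_apply]
  by_cases h : a = u (v b)
  · simp [PM, h]
  · simp [PM, h]

theorem PM_one : PM K (1 : Wn n) = 1 := by
  ext a b
  by_cases h : a = b
  · subst h; simp [PM]
  · simp [PM, h, Matrix.one_apply_ne h]

theorem PM_det (v : Wn n) : (PM K v).det ≠ 0 := by
  have h : PM K v * PM K v⁻¹ = 1 := by rw [PM_mul, mul_inv_cancel, PM_one]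
  intro h1
  have h2 := congrArg Matrix.det h
  rw [Matrix.det_mul, h1, zero_mul, Matrix.det_one] at h2
  exact zero_ne_one h2

theorem PM_inv (v : Wn n) : (PM K v)⁻¹ = PM K v⁻¹ :=
  Matrix.inv_eq_right_inv (by rw [PM_mul, mul_inv_cancel, PM_one])

theorem ga_diag_mul_PM (v : Wn n) (d : Fin (n + 1) → K) :
    Matrix.diagonal d * PM K v = PM K v * Matrix.diagonal (fun j => d (v j)) := by
  ext a b
  rw [Matrix.diagonal_mul, Matrix.mul_diagonal]
  by_cases h : a = v b
  · subst h; simp [PM]
  · simp [PM, h]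

theorem ga_UT_diagonal (d : Fin (n + 1) → K) : UT (Matrix.diagonal d) :=
  fun a b h => Matrix.diagonal_apply_ne d h.ne'

theorem ga_LT_diagonal (d : Fin (n + 1) → K) : LT (Matrix.diagonal d) :=
  fun a b h => Matrix.diagonal_apply_ne d h.ne

/-- a relaxed form of `InN` -/
theorem ga_InN_iff {v : Wn n} {g : Mx n K} :
    InN v g ↔ ∃ b c : Mx n K, UT b ∧ b.det ≠ 0 ∧ UT c ∧ c.det ≠ 0 ∧ g = b * PM K v * c := by
  constructor
  · rintro ⟨b, c, hb, hc, hc', rfl⟩
    exact ⟨b, c, hb.1, by rw [hb.det]; exact one_ne_zero, hc, hc', rfl⟩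
  · rintro ⟨t, c, ht, ht', hc, hc', rfl⟩
    have hd := ga_UT_diag_ne ht ht'
    refine ⟨t * Matrix.diagonal (fun j => (t j j)⁻¹), Matrix.diagonal (fun j => t (v j) (v j)) * c,
      ⟨ht.mul (ga_UT_diagonal _), fun j => ?_⟩, (ga_UT_diagonal _).mul hc, ?_, ?_⟩
    · rw [Matrix.mul_diagonal, mul_inv_cancel₀ (hd j)]
    · refine ga_mul_det ?_ hc'
      rw [Matrix.det_diagonal]
      exact Finset.prod_ne_zero_iff.2 fun j _ => hd _
    · have h1 : Matrix.diagonal (fun j => t j j) * PM K v =
          PM K v * Matrix.diagonal (fun j => t (v j) (v j)) := ga_diag_mul_PM v _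
      have h2 : Matrix.diagonal (fun j => (t j j)⁻¹) * Matrix.diagonal (fun j => t j j) =
          (1 : Mx n K) := by
        rw [Matrix.diagonal_mul_diagonal, ← Matrix.diagonal_one]
        congr 1
        funext j
        exact inv_mul_cancel₀ (hd j)
      calc t * PM K v * c = t * (Matrix.diagonal (fun j => (t j j)⁻¹) *
            Matrix.diagonal (fun j => t j j)) * PM K v * c := by rw [h2, mul_one]
        _ = t * Matrix.diagonal (fun j => (t j j)⁻¹) * (Matrix.diagonal (fun j => t j j) * PM K v)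
            * c := by simp only [mul_assoc]
        _ = _ := by rw [h1]; simp only [mul_assoc]

/-! ## embedded 2×2 matrices -/

theorem ga_cs_ne (i : Fin n) : i.castSucc ≠ i.succ := (Fin.castSucc_lt_succ).ne

theorem ga_emb_mul_apply (i : Fin n) (g : Matrix (Fin 2) (Fin 2) K) (M : Mx n K)
    (a b : Fin (n + 1)) :
    (emb i g * M) a b = if a = i.castSucc then g 0 0 * M i.castSucc b + g 0 1 * M i.succ b
      else if a = i.succ then g 1 0 * M i.castSucc b + g 1 1 * M i.succ b else M a b := by
  have hne := ga_cs_ne i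
  rw [Matrix.mul_apply]
  by_cases h1 : a = i.castSucc
  · simp only [h1, if_true]
    have : ∀ j, emb i g i.castSucc j * M j b = (if j = i.castSucc then g 0 0 * M i.castSucc b else 0) +
        (if j = i.succ then g 0 1 * M i.succ b else 0) := by
      intro j
      unfold emb
      by_cases h2 : j = i.castSucc
      · subst h2; simp [hne]
      · by_cases h3 : j = i.succ
        · subst h3; simp [hne.symm]
        · simp [h2, h3]
    simp only [this, Finset.sum_add_distrib, Finset.sum_ite_eq', Finset.mem_univ, if_true]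
  · by_cases h2 : a = i.succ
    · simp only [h2, hne.symm, if_true, if_false]
      have : ∀ j, emb i g i.succ j * M j b = (if j = i.castSucc then g 1 0 * M i.castSucc b else 0) +
          (if j = i.succ then g 1 1 * M i.succ b else 0) := by
        intro j
        unfold emb
        by_cases h2 : j = i.castSucc
        · subst h2; simp [hne, hne.symm]
        · by_cases h3 : j = i.succ
          · subst h3; simp [hne.symm]
          · simp [h2, h3, hne.symm]
      simp only [this, Finset.sum_add_distrib, Finset.sum_ite_eq', Finset.mem_univ, if_true]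
    · simp only [h1, h2, if_false]
      rw [Finset.sum_eq_single a]
      · simp [emb, h1, h2]
      · intro j _ hj
        simp [emb, h1, h2, hj.symm]
      · intro h; exact absurd (Finset.mem_univ _) h

theorem ga_mul_emb_apply (i : Fin n) (g : Matrix (Fin 2) (Fin 2) K) (M : Mx n K)
    (a b : Fin (n + 1)) :
    (M * emb i g) a b = if b = i.castSucc then M a i.castSucc * g 0 0 + M a i.succ * g 1 0
      else if b = i.succ then M a i.castSucc * g 0 1 + M a i.succ * g 1 1 else M a b := by
  have hne := ga_cs_ne i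
  rw [Matrix.mul_apply]
  by_cases h1 : b = i.castSucc
  · simp only [h1, if_true]
    have : ∀ j, M a j * emb i g j i.castSucc = (if j = i.castSucc then M a i.castSucc * g 0 0 else 0) +
        (if j = i.succ then M a i.succ * g 1 0 else 0) := by
      intro j
      unfold emb
      by_cases h2 : j = i.castSucc
      · subst h2; simp [hne]
      · by_cases h3 : j = i.succ
        · subst h3; simp [hne.symm]
        · simp [h2, h3]
    simp only [this, Finset.sum_add_distrib, Finset.sum_ite_eq', Finset.mem_univ, if_true]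
  · by_cases h2 : b = i.succ
    · simp only [h2, hne.symm, if_true, if_false]
      have : ∀ j, M a j * emb i g j i.succ = (if j = i.castSucc then M a i.castSucc * g 0 1 else 0) +
          (if j = i.succ then M a i.succ * g 1 1 else 0) := by
        intro j
        unfold emb
        by_cases h2 : j = i.castSucc
        · subst h2; simp [hne, hne.symm]
        · by_cases h3 : j = i.succ
          · subst h3; simp [hne.symm]
          · simp [h2, h3]
      simp only [this, Finset.sum_add_distrib, Finset.sum_ite_eq', Finset.mem_univ, if_true]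
    · simp only [h1, h2, if_false]
      rw [Finset.sum_eq_single b]
      · simp [emb, h1, h2]
      · intro j _ hj
        unfold emb
        by_cases h3 : j = i.castSucc
        · simp [h3, h1, h2]
        · by_cases h4 : j = i.succ
          · simp [h4, h1, h2, hne.symm]
          · simp [h3, h4, hj]
      · intro h; exact absurd (Finset.mem_univ _) h

/-- the embedding of 2×2 matrices is multiplicative -/
theorem emb_mul (i : Fin n) (g h : Matrix (Fin 2) (Fin 2) K) :
    emb i (g * h) = emb i g * emb i h := by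
  have hne := ga_cs_ne i
  ext a b
  rw [ga_emb_mul_apply]
  unfold emb
  by_cases h1 : a = i.castSucc
  · subst h1
    by_cases h2 : b = i.castSucc
    · subst h2; simp [hne.symm, Matrix.mul_apply, Fin.sum_univ_two]
    · by_cases h3 : b = i.succ
      · subst h3; simp [hne.symm, Matrix.mul_apply, Fin.sum_univ_two]
      · simp [h2, h3, hne.symm]
  · by_cases h1' : a = i.succ
    · subst h1'
      by_cases h2 : b = i.castSucc
      · subst h2; simp [hne.symm, Matrix.mul_apply, Fin.sum_univ_two]
      · by_cases h3 : b = i.succ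
        · subst h3; simp [hne.symm, Matrix.mul_apply, Fin.sum_univ_two]
        · simp [h2, h3, hne.symm]
    · simp [h1, h1']

theorem emb_one (i : Fin n) : emb i (1 : Matrix (Fin 2) (Fin 2) K) = 1 := by
  have hne := ga_cs_ne i
  ext a b
  unfold emb
  by_cases h1 : a = i.castSucc
  · subst h1
    by_cases h2 : b = i.castSucc
    · subst h2; simp
    · by_cases h3 : b = i.succ
      · subst h3; simp [hne, hne.symm]
      · simp [h2, h3, Matrix.one_apply_ne (Ne.symm h2)]
  · by_cases h1' : a = i.succ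
    · subst h1'
      by_cases h2 : b = i.castSucc
      · subst h2; simp [hne.symm]
      · by_cases h3 : b = i.succ
        · subst h3; simp [hne.symm]
        · simp [h2, h3, hne.symm, Matrix.one_apply_ne (Ne.symm h3)]
    · by_cases h2 : a = b
      · subst h2; simp [h1, h1']
      · simp [h1, h1', h2, Matrix.one_apply_ne h2]

theorem emb_det (i : Fin n) (g : Matrix (Fin 2) (Fin 2) K) : (emb i g).det = g.det := by
  classical
  have hne := ga_cs_ne i
  let p : Fin (n + 1) → Prop := fun a => a = i.castSucc ∨ a = i.succ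
  have h0 : ∀ a, ¬ p a → ∀ b, p b → (emb i g) a b = 0 := by
    intro a ha b hb
    simp only [p, not_or] at ha
    have hab : a ≠ b := by
      rintro rfl
      rcases hb with hb | hb
      · exact ha.1 hb
      · exact ha.2 hb
    simp [emb, ha.1, ha.2, hab]
  rw [Matrix.twoBlockTriangular_det (emb i g) p h0]
  have h2 : (Matrix.toSquareBlockProp (emb i g) fun a => ¬ p a).det = 1 := by
    have : (Matrix.toSquareBlockProp (emb i g) fun a => ¬ p a) = 1 := by
      ext ⟨a, ha⟩ ⟨b, hb⟩
      simp only [p, not_or] at ha hb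
      rw [Matrix.toSquareBlockProp_def]
      by_cases hab : a = b
      · subst hab; simp [emb, ha.1, ha.2]
      · rw [Matrix.one_apply_ne (by simpa using hab)]
        simp [emb, ha.1, ha.2, hab]
    rw [this, Matrix.det_one]
  rw [h2, mul_one]
  let e : Fin 2 ≃ {a // p a} :=
    { toFun := fun j => if j = 0 then ⟨i.castSucc, Or.inl rfl⟩ else ⟨i.succ, Or.inr rfl⟩
      invFun := fun a => if a.1 = i.castSucc then 0 else 1
      left_inv := by
        intro j
        fin_cases j
        · simp
        · simp [hne.symm]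
      right_inv := by
        rintro ⟨a, ha⟩
        rcases ha with rfl | rfl
        · simp
        · simp [hne.symm] }
  rw [← Matrix.det_submatrix_equiv_self e]
  congr 1
  ext a b
  fin_cases a <;> fin_cases b <;> simp [e, Matrix.toSquareBlockProp_def, emb, hne.symm]

theorem ga_emb_swap (i : Fin n) : emb i (!![0, 1; 1, 0] : Matrix (Fin 2) (Fin 2) K) = PM K (sw i) := by
  have hne := ga_cs_ne i
  ext a b
  unfold emb PM sw
  by_cases h2 : b = i.castSucc
  · subst h2
    rw [Equiv.swap_apply_left]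
    by_cases h1 : a = i.castSucc
    · subst h1; simp [hne]
    · by_cases h3 : a = i.succ
      · subst h3; simp [hne.symm]
      · simp [h1, h3]
  · by_cases h3 : b = i.succ
    · subst h3
      rw [Equiv.swap_apply_right]
      by_cases h1 : a = i.castSucc
      · subst h1; simp [hne.symm]
      · by_cases h3 : a = i.succ
        · subst h3; simp [hne.symm]
        · simp [h1, h3]
    · rw [Equiv.swap_apply_of_ne_of_ne h2 h3]
      by_cases h1 : a = i.castSucc
      · subst h1; simp [h2, h3, Ne.symm h2]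
      · by_cases h4 : a = i.succ
        · subst h4; simp [h2, h3, hne.symm, Ne.symm h3]
        · simp [h1, h4]

theorem ga_emb_UT (i : Fin n) (g : Matrix (Fin 2) (Fin 2) K) (h : g 1 0 = 0) : UT (emb i g) := by
  have hne := ga_cs_ne i
  have hlt : i.castSucc < i.succ := Fin.castSucc_lt_succ
  intro a b hab
  unfold emb
  by_cases h1 : a = i.castSucc
  · subst h1
    have h2 : b ≠ i.castSucc := hab.ne
    have h3 : b ≠ i.succ := (hab.trans hlt).ne
    simp [h2, h3]
  · by_cases h1' : a = i.succ
    · subst h1'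
      have h3 : b ≠ i.succ := hab.ne
      simp [h3, hne.symm, h]
    · simp [h1, h1', hab.ne']

theorem ga_emb_LT (i : Fin n) (g : Matrix (Fin 2) (Fin 2) K) (h : g 0 1 = 0) : LT (emb i g) := by
  have hne := ga_cs_ne i
  have hlt : i.castSucc < i.succ := Fin.castSucc_lt_succ
  intro a b hab
  unfold emb
  by_cases h1 : a = i.castSucc
  · subst h1
    have h2 : b ≠ i.castSucc := hab.ne'
    simp [h2, h]
  · by_cases h1' : a = i.succ
    · subst h1'
      have h2 : b ≠ i.castSucc := (hlt.trans hab).ne'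
      have h3 : b ≠ i.succ := hab.ne'
      simp [h2, h3, hne.symm]
    · simp [h1, h1', hab.ne]

/-- conjugation by the Levi subgroup, lower triangular case -/
theorem ga_conj_LT (i : Fin n) (l m : Matrix (Fin 2) (Fin 2) K) (hlm : l * m = 1) {b : Mx n K}
    (hb : LT b) (h00 : b i.castSucc i.castSucc = 1) (h10 : b i.succ i.castSucc = 0)
    (h11 : b i.succ i.succ = 1) : LT (emb i l * b * emb i m) := by
  have hne := ga_cs_ne i
  have hlt : i.castSucc < i.succ := Fin.castSucc_lt_succ
  have h01 : b i.castSucc i.succ = 0 := hb _ _ hlt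
  have hx : l 0 0 * m 0 1 + l 0 1 * m 1 1 = 0 := by
    have := congrFun (congrFun hlm 0) 1
    simpa [Matrix.mul_apply, Fin.sum_univ_two] using this
  intro a c hac
  rw [ga_mul_emb_apply]
  simp only [ga_emb_mul_apply]
  by_cases h1 : a = i.castSucc
  · subst h1
    have h2 : c ≠ i.castSucc := hac.ne'
    by_cases h3 : c = i.succ
    · subst h3
      simp only [hne.symm, if_true, if_false, h00, h10, h11, h01, mul_one, mul_zero, add_zero,
        zero_add]
      exact hx
    · have h4 : i.succ < c := by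
        rcases lt_or_gt_of_ne h3 with h | h
        · exfalso
          rw [Fin.lt_def] at hac h
          simp at hac h
          omega
        · exact h
      simp only [h2, h3, if_false, if_true]
      rw [hb _ _ hac, hb _ _ h4]; ring
  · by_cases h1' : a = i.succ
    · subst h1'
      have h2 : c ≠ i.castSucc := (hlt.trans hac).ne'
      have h3 : c ≠ i.succ := hac.ne'
      simp only [h2, h3, if_false, if_true, hne.symm]
      rw [hb _ _ hac, hb _ _ (hlt.trans hac)]; ring
    · simp only [h1, h1', if_false]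
      by_cases h2 : c = i.castSucc
      · subst h2
        simp only [if_true]
        rw [hb _ _ hac, hb _ _ (hac.trans hlt)]; ring
      · by_cases h3 : c = i.succ
        · subst h3
          have h4 : a < i.castSucc := by
            rcases lt_or_gt_of_ne h1 with h | h
            · exact h
            · exfalso
              rw [Fin.lt_def] at hac h
              simp at hac h
              omega
          simp only [hne.symm, if_false, if_true]
          rw [hb _ _ hac, hb _ _ h4]; ring
        · simp only [h2, h3, if_false]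
          exact hb _ _ hac

/-- conjugation by the Levi subgroup, upper triangular case -/
theorem ga_conj_UT (i : Fin n) (l m : Matrix (Fin 2) (Fin 2) K) (hlm : l * m = 1) {b : Mx n K}
    (hb : UT b) (h00 : b i.castSucc i.castSucc = 1) (h01 : b i.castSucc i.succ = 0)
    (h11 : b i.succ i.succ = 1) : UT (emb i l * b * emb i m) := by
  have hne := ga_cs_ne i
  have hlt : i.castSucc < i.succ := Fin.castSucc_lt_succ
  have h10 : b i.succ i.castSucc = 0 := hb _ _ hlt
  have hx : l 1 0 * m 0 0 + l 1 1 * m 1 0 = 0 := by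
    have := congrFun (congrFun hlm 1) 0
    simpa [Matrix.mul_apply, Fin.sum_univ_two] using this
  intro a c hac
  rw [ga_mul_emb_apply]
  simp only [ga_emb_mul_apply]
  by_cases h1 : a = i.castSucc
  · subst h1
    have h2 : c ≠ i.castSucc := hac.ne
    have h3 : c ≠ i.succ := (hac.trans hlt).ne
    simp only [h2, h3, if_false, if_true]
    rw [hb _ _ hac, hb _ _ (hac.trans hlt)]; ring
  · by_cases h1' : a = i.succ
    · subst h1'
      have h3 : c ≠ i.succ := hac.ne
      by_cases h2 : c = i.castSucc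
      · subst h2
        simp only [hne.symm, if_true, if_false, h00, h10, h11, h01, mul_one, mul_zero, add_zero,
          zero_add]
        exact hx
      · have h4 : c < i.castSucc := by
          rcases lt_or_gt_of_ne h2 with h | h
          · exact h
          · exfalso
            rw [Fin.lt_def] at hac h
            simp at hac h
            omega
        simp only [h2, h3, if_false, if_true, hne.symm]
        rw [hb _ _ hac, hb _ _ h4]; ring
    · simp only [h1, h1', if_false]
      by_cases h2 : c = i.castSucc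
      · subst h2
        have h4 : i.succ < a := by
          rcases lt_or_gt_of_ne h1' with h | h
          · exfalso
            rw [Fin.lt_def] at hac h
            simp at hac h
            omega
          · exact h
        simp only [if_true]
        rw [hb _ _ hac, hb _ _ h4]; ring
      · by_cases h3 : c = i.succ
        · subst h3
          simp only [hne.symm, if_false, if_true]
          rw [hb _ _ hac, hb _ _ (hlt.trans hac)]; ring
        · simp only [h2, h3, if_false]
          exact hb _ _ hac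

/-- conjugating an embedded matrix by a permutation matrix -/
theorem ga_perm_conj (i : Fin n) (y : Wn n) (m : Matrix (Fin 2) (Fin 2) K)
    (h1 : asc i y → m 1 0 = 0) (h2 : ¬ asc i y → m 0 1 = 0) :
    UT (PM K y⁻¹ * emb i m * PM K y) := by
  have hne := ga_cs_ne i
  intro a b hab
  rw [ga_mul_PM_apply, ga_PM_mul_apply, inv_inv]
  unfold emb
  by_cases h3 : y a = i.castSucc
  · have ha : a = y⁻¹ i.castSucc := by rw [← h3]; simp
    by_cases h4 : y b = i.castSucc
    · exact absurd (y.injective (h3.trans h4.symm)) hab.ne'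
    · by_cases h5 : y b = i.succ
      · have hb : b = y⁻¹ i.succ := by rw [← h5]; simp
        have hns : ¬ asc i y := by
          intro h
          unfold asc at h
          rw [← ha, ← hb] at h
          exact absurd h (not_lt.2 hab.le)
        simp [h3, h5, hne.symm, h2 hns]
      · simp [h3, h4, h5]
  · by_cases h3' : y a = i.succ
    · have ha : a = y⁻¹ i.succ := by rw [← h3']; simp
      by_cases h4 : y b = i.castSucc
      · have hb : b = y⁻¹ i.castSucc := by rw [← h4]; simp
        have hs : asc i y := by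
          unfold asc
          rw [← ha, ← hb]
          exact hab
        simp [h3', h4, hne.symm, h1 hs]
      · by_cases h5 : y b = i.succ
        · exact absurd (y.injective (h3'.trans h5.symm)) hab.ne'
        · simp [h3', h4, h5, hne.symm]
    · have : y a ≠ y b := fun h => hab.ne' (y.injective h)
      simp [h3, h3', this]

/-! ## cells -/

theorem InC.det_ne {v : Wn n} {g : Mx n K} (h : InC v g) : g.det ≠ 0 := by
  obtain ⟨b, c, _, hb, _, hc, rfl⟩ := h
  exact ga_mul_det (ga_mul_det hb (PM_det v)) hc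

theorem InN.det_ne {v : Wn n} {g : Mx n K} (h : InN v g) : g.det ≠ 0 := by
  obtain ⟨b, c, _, hb, _, hc, rfl⟩ := ga_InN_iff.1 h
  exact ga_mul_det (ga_mul_det hb (PM_det v)) hc

theorem InC.left {v : Wn n} {g b : Mx n K} (h : InC v g) (hb : LT b) (hb' : b.det ≠ 0) :
    InC v (b * g) := by
  obtain ⟨b1, c, h1, h2, h3, h4, rfl⟩ := h
  exact ⟨b * b1, c, hb.mul h1, ga_mul_det hb' h2, h3, h4, by simp only [mul_assoc]⟩

theorem InC.right {v : Wn n} {g b : Mx n K} (h : InC v g) (hb : UT b) (hb' : b.det ≠ 0) :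
    InC v (g * b) := by
  obtain ⟨b1, c, h1, h2, h3, h4, rfl⟩ := h
  exact ⟨b1, c * b, h1, h2, h3.mul hb, ga_mul_det h4 hb', by simp only [mul_assoc]⟩

theorem InN.left {v : Wn n} {g b : Mx n K} (h : InN v g) (hb : UU b) : InN v (b * g) := by
  obtain ⟨b1, c, h1, h3, h4, rfl⟩ := h
  exact ⟨b * b1, c, hb.mul h1, h3, h4, by simp only [mul_assoc]⟩

theorem InN.left' {v : Wn n} {g b : Mx n K} (h : InN v g) (hb : UT b) (hb' : b.det ≠ 0) :
    InN v (b * g) := by
  obtain ⟨b1, c, h1, h2, h3, h4, rfl⟩ := ga_InN_iff.1 h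
  exact ga_InN_iff.2 ⟨b * b1, c, hb.mul h1, ga_mul_det hb' h2, h3, h4, by simp only [mul_assoc]⟩

theorem InN.right {v : Wn n} {g b : Mx n K} (h : InN v g) (hb : UT b) (hb' : b.det ≠ 0) :
    InN v (g * b) := by
  obtain ⟨b1, c, h1, h3, h4, rfl⟩ := h
  exact ⟨b1, c * b, h1, h3.mul hb, ga_mul_det h4 hb', by simp only [mul_assoc]⟩

theorem ga_perm_le {σ : Wn n} (h : ∀ j, σ j ≤ j) : σ = 1 := by
  have key : ∀ m : ℕ, ∀ j : Fin (n + 1), (j : ℕ) = m → σ j = j := by
    intro m
    induction m using Nat.strong_induction_on with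
    | _ m ih =>
      intro j hj
      by_contra hne
      have hlt : σ j < j := lt_of_le_of_ne (h j) hne
      have h1 := ih (σ j : ℕ) (by rw [← hj]; exact hlt) (σ j) rfl
      exact hne (σ.injective h1)
  ext1 j
  exact key j j rfl

theorem ga_unique {v v' : Wn n} {B C : Mx n K} (hB : ∀ a, B a a ≠ 0) (hC : UT C)
    (h : B * PM K v = PM K v' * C) : v = v' := by
  have h1 : ∀ a, v'⁻¹ a ≤ v⁻¹ a := by
    intro a
    have h2 := congrFun (congrFun h a) (v⁻¹ a)
    rw [ga_mul_PM_apply, ga_PM_mul_apply] at h2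
    rw [show v (v⁻¹ a) = a from Equiv.apply_symm_apply v a] at h2
    by_contra h3
    push Not at h3
    rw [hC _ _ h3] at h2
    exact hB a h2
  have h2 : v'⁻¹ * v = 1 := ga_perm_le fun j => by
    have := h1 (v j)
    simpa using this
  exact (inv_mul_eq_one.1 h2).symm

/-- cells are disjoint -/
theorem InC.unique {v v' : Wn n} {g : Mx n K} (h : InC v g) (h' : InC v' g) : v = v' := by
  obtain ⟨b, c, hb, hb', hc, hc', rfl⟩ := h
  obtain ⟨b2, c2, h2, h2', h3, h3', h4⟩ := h'
  refine ga_unique (B := b2⁻¹ * b) (C := c2 * c⁻¹)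
    (ga_LT_diag_ne (h2.inv.mul hb) (ga_mul_det (ga_inv_det h2') hb')) (h3.mul hc.inv) ?_
  calc b2⁻¹ * b * PM K v = b2⁻¹ * (b * PM K v * c) * c⁻¹ := by
        simp only [mul_assoc]; rw [ga_mul_inv hc', mul_one]
    _ = b2⁻¹ * (b2 * PM K v' * c2) * c⁻¹ := by rw [h4]
    _ = b2⁻¹ * b2 * PM K v' * c2 * c⁻¹ := by simp only [mul_assoc]
    _ = _ := by rw [ga_inv_mul h2', one_mul, mul_assoc]

theorem InN.unique {v v' : Wn n} {g : Mx n K} (h : InN v g) (h' : InN v' g) : v = v' := by
  obtain ⟨b, c, hb, hc, hc', rfl⟩ := h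
  obtain ⟨b2, c2, h2, h3, h3', h4⟩ := h'
  have h2' : b2.det ≠ 0 := by rw [h2.det]; exact one_ne_zero
  refine ga_unique (B := b2⁻¹ * b) (C := c2 * c⁻¹)
    (fun a => by rw [(h2.inv.mul hb).2]; exact one_ne_zero) (h3.mul hc.inv) ?_
  calc b2⁻¹ * b * PM K v = b2⁻¹ * (b * PM K v * c) * c⁻¹ := by
        simp only [mul_assoc]; rw [ga_mul_inv hc', mul_one]
    _ = b2⁻¹ * (b2 * PM K v' * c2) * c⁻¹ := by rw [h4]
    _ = b2⁻¹ * b2 * PM K v' * c2 * c⁻¹ := by simp only [mul_assoc]
    _ = _ := by rw [ga_inv_mul h2', one_mul, mul_assoc]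

/-- 2×2: `m = L U` or `m = L s U` -/
theorem ga_two_LU (m : Matrix (Fin 2) (Fin 2) K) (hm : m.det ≠ 0) :
    ∃ L U : Matrix (Fin 2) (Fin 2) K, L 0 1 = 0 ∧ L.det ≠ 0 ∧ U 1 0 = 0 ∧ U.det ≠ 0 ∧
      (m = L * U ∨ m = L * !![0, 1; 1, 0] * U) := by
  rw [Matrix.det_fin_two] at hm
  by_cases h : m 0 0 = 0
  · refine ⟨1, !![m 1 0, m 1 1; 0, m 0 1], by simp, by simp, by simp, ?_, Or.inr ?_⟩
    · rw [Matrix.det_fin_two]
      simp only [Matrix.of_apply, Matrix.cons_val', Matrix.cons_val_zero, Matrix.cons_val_one,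
        Matrix.cons_val_fin_one, mul_zero, sub_zero]
      intro h1
      apply hm
      rw [h, zero_mul, zero_sub, mul_comm, h1, neg_zero]
    · rw [one_mul]
      ext a b
      fin_cases a <;> fin_cases b <;> simp [Matrix.mul_apply, Fin.sum_univ_two, h]
  · refine ⟨!![1, 0; m 1 0 / m 0 0, 1], !![m 0 0, m 0 1; 0, m 1 1 - m 1 0 / m 0 0 * m 0 1],
      by simp, by simp [Matrix.det_fin_two], by simp, ?_, Or.inl ?_⟩
    · rw [Matrix.det_fin_two]
      simp only [Matrix.of_apply, Matrix.cons_val', Matrix.cons_val_zero, Matrix.cons_val_one,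
        Matrix.cons_val_fin_one, mul_zero, sub_zero]
      intro h1
      apply hm
      rw [← h1]
      field_simp
    · ext a b
      fin_cases a <;> fin_cases b <;> simp [Matrix.mul_apply, Fin.sum_univ_two]
      field_simp

/-- 2×2: `m = L U` or `m = L s U` with `L`, `U` lower triangular -/
theorem ga_two_LL (m : Matrix (Fin 2) (Fin 2) K) (hm : m.det ≠ 0) :
    ∃ L U : Matrix (Fin 2) (Fin 2) K, L 0 1 = 0 ∧ L.det ≠ 0 ∧ U 0 1 = 0 ∧ U.det ≠ 0 ∧
      (m = L * U ∨ m = L * !![0, 1; 1, 0] * U) := by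
  by_cases h : m 0 1 = 0
  · exact ⟨m, 1, h, hm, by simp, by simp, Or.inl (by simp)⟩
  · rw [Matrix.det_fin_two] at hm
    refine ⟨!![1, 0; m 1 1 / m 0 1, 1], !![m 1 0 - m 1 1 / m 0 1 * m 0 0, 0; m 0 0, m 0 1],
      by simp, by simp [Matrix.det_fin_two], by simp, ?_, Or.inr ?_⟩
    · rw [Matrix.det_fin_two]
      simp only [Matrix.of_apply, Matrix.cons_val', Matrix.cons_val_zero, Matrix.cons_val_one,
        Matrix.cons_val_fin_one, zero_mul, sub_zero]
      intro h1
      apply hm
      have h2 : (m 1 0 - m 1 1 / m 0 1 * m 0 0) * m 0 1 = -(m 0 0 * m 1 1 - m 0 1 * m 1 0) := by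
        field_simp
        ring
      rw [h2, neg_eq_zero] at h1
      exact h1
    · ext a b
      fin_cases a <;> fin_cases b <;> simp [Matrix.mul_apply, Fin.sum_univ_two]
      field_simp

theorem ga_emb_det_ne (i : Fin n) {g : Matrix (Fin 2) (Fin 2) K} (h : g.det ≠ 0) :
    (emb i g).det ≠ 0 := by rw [emb_det]; exact h

/-- `L_i · B⁻ y B ⊆ B⁻ y B ∪ B⁻ s_i y B` -/
theorem InC.emb_left {y : Wn n} {g : Mx n K} (h : InC y g) (i : Fin n)
    (l : Matrix (Fin 2) (Fin 2) K) (hl : l.det ≠ 0) :
    InC y (emb i l * g) ∨ InC (sw i * y) (emb i l * g) := by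
  have hne := ga_cs_ne i
  obtain ⟨b, c, hb, hb', hc, hc', rfl⟩ := h
  have hd := ga_LT_diag_ne hb hb'
  -- the 2×2 block of b
  let l' : Matrix (Fin 2) (Fin 2) K :=
    !![b i.castSucc i.castSucc, 0; b i.succ i.castSucc, b i.succ i.succ]
  let r : Matrix (Fin 2) (Fin 2) K :=
    !![(b i.castSucc i.castSucc)⁻¹, 0;
      - (b i.succ i.succ)⁻¹ * b i.succ i.castSucc * (b i.castSucc i.castSucc)⁻¹, (b i.succ i.succ)⁻¹]
  have hl' : l'.det ≠ 0 := by
    rw [Matrix.det_fin_two]
    simp only [l', Matrix.of_apply, Matrix.cons_val', Matrix.cons_val_zero, Matrix.cons_val_one,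
        Matrix.cons_val_fin_one, zero_mul, sub_zero]
    exact mul_ne_zero (hd _) (hd _)
  have h1 := hd i.castSucc
  have h2 := hd i.succ
  have hrl : r * l' = 1 := by
    ext a b'
    fin_cases a <;> fin_cases b' <;> simp [r, l', Matrix.mul_apply, Fin.sum_univ_two, h1, h2]
  have hr01 : r 0 1 = 0 := by simp [r]
  have hb1 : LT (b * emb i r) := hb.mul (ga_emb_LT i r hr01)
  have hlinv : l * l⁻¹ = 1 := Matrix.mul_nonsing_inv l (isUnit_iff_ne_zero.2 hl)
  have hlinv' : l⁻¹ * l = 1 := Matrix.nonsing_inv_mul l (isUnit_iff_ne_zero.2 hl)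
  have hlidet : (l⁻¹).det ≠ 0 := by
    rw [Matrix.det_nonsing_inv, Ring.inverse_eq_inv']; exact inv_ne_zero hl
  have hrdet : r.det ≠ 0 := by
    intro h3
    have := congrArg Matrix.det hrl
    rw [Matrix.det_mul, h3, zero_mul, Matrix.det_one] at this
    exact zero_ne_one this
  have h01 : b i.castSucc i.succ = 0 := hb _ _ Fin.castSucc_lt_succ
  have hB1 : LT (emb i l * (b * emb i r) * emb i l⁻¹) := by
    apply ga_conj_LT i l l⁻¹ hlinv hb1
    · rw [ga_mul_emb_apply]; simp [r, h01, h1]
    · rw [ga_mul_emb_apply]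
      simp only [if_true, r, Matrix.of_apply, Matrix.cons_val', Matrix.cons_val_zero,
        Matrix.cons_val_one, Matrix.cons_val_fin_one]
      field_simp
      ring
    · rw [ga_mul_emb_apply]; simp [r, hne.symm, h2]
  have hB1d : (emb i l * (b * emb i r) * emb i l⁻¹).det ≠ 0 :=
    ga_mul_det (ga_mul_det (ga_emb_det_ne i hl) (ga_mul_det hb' (ga_emb_det_ne i hrdet)))
      (ga_emb_det_ne i hlidet)
  set B1 := emb i l * (b * emb i r) * emb i l⁻¹ with hB1def
  have hfac : emb i l * (b * PM K y * c) = B1 * (emb i (l * l') * PM K y * c) := by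
    have : emb i l⁻¹ * emb i (l * l') = emb i l' := by
      rw [← emb_mul, ← mul_assoc, hlinv', one_mul]
    have h3 : emb i r * emb i l' = 1 := by rw [← emb_mul, hrl, emb_one]
    calc emb i l * (b * PM K y * c) = emb i l * (b * (emb i r * emb i l') * PM K y * c) := by
          rw [h3, mul_one]
      _ = emb i l * (b * (emb i r * (emb i l⁻¹ * emb i (l * l'))) * PM K y * c) := by rw [this]
      _ = _ := by rw [hB1def]; simp only [mul_assoc]
  rw [hfac]
  have hmdet : (l * l').det ≠ 0 := by rw [Matrix.det_mul]; exact mul_ne_zero hl hl'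
  -- choose the decomposition of the 2×2 matrix
  obtain ⟨L, U, hL, hLd, hUd, hUT, hm⟩ : ∃ L U : Matrix (Fin 2) (Fin 2) K, L 0 1 = 0 ∧ L.det ≠ 0 ∧
      U.det ≠ 0 ∧ UT (PM K y⁻¹ * emb i U * PM K y) ∧
      (l * l' = L * U ∨ l * l' = L * !![0, 1; 1, 0] * U) := by
    by_cases hs : asc i y
    · obtain ⟨L, U, h3, h4, h5, h6, h7⟩ := ga_two_LU (l * l') hmdet
      exact ⟨L, U, h3, h4, h6, ga_perm_conj i y U (fun _ => h5) (fun h => absurd hs h), h7⟩
    · obtain ⟨L, U, h3, h4, h5, h6, h7⟩ := ga_two_LL (l * l') hmdet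
      exact ⟨L, U, h3, h4, h6, ga_perm_conj i y U (fun h => absurd h hs) (fun _ => h5), h7⟩
  have hUPM : emb i U * PM K y = PM K y * (PM K y⁻¹ * emb i U * PM K y) := by
    have : PM K y * PM K y⁻¹ = 1 := by rw [PM_mul, mul_inv_cancel, PM_one]
    calc emb i U * PM K y = (PM K y * PM K y⁻¹) * (emb i U * PM K y) := by rw [this, one_mul]
      _ = _ := by simp only [mul_assoc]
  have hUPMd : (PM K y⁻¹ * emb i U * PM K y).det ≠ 0 :=
    ga_mul_det (ga_mul_det (PM_det _) (ga_emb_det_ne i hUd)) (PM_det _)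
  rcases hm with hm | hm
  · left
    refine ⟨B1 * emb i L, PM K y⁻¹ * emb i U * PM K y * c, hB1.mul (ga_emb_LT i L hL),
      ga_mul_det hB1d (ga_emb_det_ne i hLd), hUT.mul hc, ga_mul_det hUPMd hc', ?_⟩
    rw [hm, emb_mul]
    calc B1 * (emb i L * emb i U * PM K y * c) = B1 * (emb i L * (emb i U * PM K y) * c) := by
          simp only [mul_assoc]
      _ = _ := by rw [hUPM]; simp only [mul_assoc]
  · right
    refine ⟨B1 * emb i L, PM K y⁻¹ * emb i U * PM K y * c, hB1.mul (ga_emb_LT i L hL),
      ga_mul_det hB1d (ga_emb_det_ne i hLd), hUT.mul hc, ga_mul_det hUPMd hc', ?_⟩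
    rw [hm, emb_mul, emb_mul, ga_emb_swap]
    calc B1 * (emb i L * PM K (sw i) * emb i U * PM K y * c) =
          B1 * (emb i L * PM K (sw i) * (emb i U * PM K y) * c) := by simp only [mul_assoc]
      _ = B1 * emb i L * (PM K (sw i) * PM K y) * (PM K y⁻¹ * emb i U * PM K y * c) := by
          rw [hUPM]; simp only [mul_assoc]
      _ = _ := by rw [PM_mul]

theorem InC_one {g : Mx n K} (hg : UT g) (hg' : g.det ≠ 0) : InC 1 g :=
  ⟨1, g, LT.one, by simp, hg, hg', by rw [PM_one, one_mul, one_mul]⟩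

/-- matrices preserving the union of the cells -/
theorem ga_exists_left (u : Wn n) (g : Mx n K) (hg : ∃ v, InC v g) : ∃ v, InC v (PM K u * g) := by
  revert g
  induction u using perm_induction with
  | h1 => intro g hg; rwa [PM_one, one_mul]
  | hs i u ih =>
    intro g hg
    obtain ⟨v, hv⟩ := ih g hg
    rw [← PM_mul, mul_assoc, ← ga_emb_swap]
    rcases hv.emb_left i !![0, 1; 1, 0] (by simp [Matrix.det_fin_two]) with h | h
    · exact ⟨_, h⟩
    · exact ⟨_, h⟩

theorem ga_transvection (a b : Fin (n + 1)) (hab : a ≠ b) (x : K) (g : Mx n K)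
    (hg : ∃ v, InC v g) : ∃ v, InC v (Matrix.transvection a b x * g) := by
  -- n ≥ 1
  have hn : 0 < n := by
    by_contra h
    have h0 : n = 0 := by omega
    subst h0
    exact hab (Subsingleton.elim (α := Fin 1) _ _)
  let i : Fin n := ⟨0, hn⟩
  have hne := ga_cs_ne i
  -- a permutation with u i = a, u (i+1) = b
  obtain ⟨u, hu1, hu2⟩ : ∃ u : Wn n, u i.castSucc = a ∧ u i.succ = b := by
    let u1 : Wn n := Equiv.swap i.castSucc a
    refine ⟨Equiv.swap (u1 i.succ) b * u1, ?_, ?_⟩
    · have h1 : u1 i.castSucc = a := Equiv.swap_apply_left _ _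
      rw [Equiv.Perm.mul_apply, h1]
      apply Equiv.swap_apply_of_ne_of_ne
      · rw [← h1]
        exact fun h => hne (u1.injective h)
      · exact hab
    · rw [Equiv.Perm.mul_apply]
      exact Equiv.swap_apply_left _ _
  have key : Matrix.transvection a b x = PM K u * emb i !![1, x; 0, 1] * PM K u⁻¹ := by
    ext p q
    rw [ga_mul_PM_apply, ga_PM_mul_apply]
    unfold Matrix.transvection emb
    rw [Matrix.add_apply]
    have ha : ∀ p, u⁻¹ p = i.castSucc ↔ p = a := by
      intro p
      rw [Equiv.Perm.inv_eq_iff_eq, hu1]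
    have hb : ∀ p, u⁻¹ p = i.succ ↔ p = b := by
      intro p
      rw [Equiv.Perm.inv_eq_iff_eq, hu2]
    simp only [ha, hb]
    by_cases h1 : p = a
    · subst h1
      by_cases h2 : q = p
      · subst h2
        simp [hab.symm]
      · by_cases h3 : q = b
        · subst h3
          simp [h2, Matrix.one_apply_ne (Ne.symm h2)]
        · simp [h2, h3, Matrix.one_apply_ne (Ne.symm h2), Ne.symm h3]
    · by_cases h1' : p = b
      · subst h1'
        by_cases h2 : q = a
        · subst h2
          simp [h1, Matrix.one_apply_ne h1]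
        · by_cases h3 : q = p
          · subst h3
            simp [h1, Ne.symm h1]
          · simp [h1, h2, h3, Matrix.one_apply_ne (Ne.symm h3), Ne.symm h1]
      · by_cases h2 : p = q
        · subst h2
          simp [h1, h1', Ne.symm h1]
        · have : u⁻¹ p ≠ u⁻¹ q := fun h => h2 (u⁻¹.injective h)
          simp [h1, h1', h2, Matrix.one_apply_ne h2, Ne.symm h1]
  rw [key, mul_assoc, mul_assoc]
  apply ga_exists_left
  obtain ⟨v, hv⟩ := ga_exists_left u⁻¹ g hg
  rcases hv.emb_left i !![1, x; 0, 1] (by simp [Matrix.det_fin_two]) with h | h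
  · exact ⟨_, h⟩
  · exact ⟨_, h⟩

/-- Bruhat decompositions -/
theorem exists_InC (g : Mx n K) (hg : g.det ≠ 0) : ∃ v, InC v g := by
  have key : ∀ h : Mx n K, (∃ v, InC v h) → ∃ v, InC v (g * h) := by
    refine Matrix.diagonal_transvection_induction_of_det_ne_zero
      (fun g => ∀ h : Mx n K, (∃ v, InC v h) → ∃ v, InC v (g * h)) g hg ?_ ?_ ?_
    · rintro D hD h ⟨v, hv⟩
      exact ⟨v, hv.left (ga_LT_diagonal D) hD⟩
    · rintro ⟨a, b, hab, x⟩ h hh
      exact ga_transvection a b hab x h hh
    · intro A B _ _ hA hB h hh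
      rw [mul_assoc]
      exact hA _ (hB _ hh)
  have := key 1 ⟨1, InC_one UT.one (by simp)⟩
  rwa [mul_one] at this

theorem exists_InN (g : Mx n K) (hg : g.det ≠ 0) : ∃ v, InN v g := by
  let w0 : Wn n := Fin.revPerm
  have hw : ∀ a, w0 a = Fin.rev a := fun a => rfl
  have hww : w0 * w0 = 1 := by
    ext1 a
    rw [Equiv.Perm.mul_apply, hw, hw, Fin.rev_rev]
    rfl
  have hinv : w0⁻¹ = w0 := inv_eq_of_mul_eq_one_left hww
  obtain ⟨v, b, c, hb, hb', hc, hc', h⟩ := exists_InC (PM K w0 * g) (ga_mul_det (PM_det _) hg)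
  refine ⟨w0 * v, ga_InN_iff.2 ⟨PM K w0 * b * PM K w0, c, ?_, ?_, hc, hc', ?_⟩⟩
  · intro p q hpq
    rw [ga_mul_PM_apply, ga_PM_mul_apply, hinv, hw, hw]
    exact hb _ _ (Fin.rev_lt_rev.2 hpq)
  · exact ga_mul_det (ga_mul_det (PM_det _) hb') (PM_det _)
  · have h1 : PM K w0 * PM K w0 = 1 := by rw [PM_mul, hww, PM_one]
    calc g = (PM K w0 * PM K w0) * g := by rw [h1, one_mul]
      _ = PM K w0 * (b * PM K v * c) := by rw [mul_assoc, h]
      _ = PM K w0 * b * (PM K w0 * PM K w0) * PM K v * c := by rw [h1]; simp only [mul_assoc, one_mul]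
      _ = PM K w0 * b * PM K w0 * (PM K w0 * PM K v) * c := by simp only [mul_assoc]
      _ = _ := by rw [PM_mul]

/-- one step of the `N`-Bruhat decomposition: if `s_i w < w` and `g ∈ N w B` then
`g = x_i(z) s_i g₁` with `g₁ ∈ N (s_i w) B`. -/
theorem InN.step {w : Wn n} {g : Mx n K} (h : InN w g) (i : Fin n) (hi : ¬ asc i w) :
    ∃ (z : K) (g₁ : Mx n K), InN (sw i * w) g₁ ∧
      g = emb i !![1, z; 0, 1] * (emb i !![0, 1; -1, 0] * g₁) := by
  have hne := ga_cs_ne i
  have hlt : i.castSucc < i.succ := Fin.castSucc_lt_succ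
  obtain ⟨b, c, hb, hc, hc', rfl⟩ := h
  set z := b i.castSucc i.succ with hz
  have e1 : emb i !![1, z; 0, 1] * emb i !![1, -z; 0, 1] = 1 := by
    rw [← emb_mul, ← emb_one i]
    congr 1
    ext a b
    fin_cases a <;> fin_cases b <;> simp [Matrix.mul_apply, Fin.sum_univ_two]
  have e2 : (!![0, 1; -1, 0] : Matrix (Fin 2) (Fin 2) K) * !![0, -1; 1, 0] = 1 := by
    ext a b
    fin_cases a <;> fin_cases b <;> simp [Matrix.mul_apply, Fin.sum_univ_two]
  have e2' : (!![0, -1; 1, 0] : Matrix (Fin 2) (Fin 2) K) * !![0, 1; -1, 0] = 1 := by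
    ext a b
    fin_cases a <;> fin_cases b <;> simp [Matrix.mul_apply, Fin.sum_univ_two]
  have e3 : emb i !![0, 1; -1, 0] * emb i !![0, -1; 1, 0] = (1 : Mx n K) := by
    rw [← emb_mul, e2, emb_one]
  let b' := emb i !![1, -z; 0, 1] * b
  have hb' : UU b' := by
    refine UU.mul ⟨ga_emb_UT i _ (by simp), fun a => ?_⟩ hb
    unfold emb
    by_cases h1 : a = i.castSucc
    · simp [h1]
    · by_cases h2 : a = i.succ
      · simp [h2, hne.symm]
      · simp [h1, h2]
  have h01 : b' i.castSucc i.succ = 0 := by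
    show (emb i !![1, -z; 0, 1] * b) i.castSucc i.succ = 0
    rw [ga_emb_mul_apply]
    simp [hb.2, ← hz]
  have hconj := ga_conj_UT i !![0, -1; 1, 0] !![0, 1; -1, 0] e2' hb'.1 (hb'.2 _) h01 (hb'.2 _)
  refine ⟨z, emb i !![0, -1; 1, 0] * (emb i !![1, -z; 0, 1] * (b * PM K w * c)), ?_, ?_⟩
  · rw [ga_InN_iff]
    refine ⟨emb i !![0, -1; 1, 0] * b' * emb i !![0, 1; -1, 0] * emb i !![-1, 0; 0, 1], c,
      hconj.mul (ga_emb_UT i _ (by simp)), ?_, hc, hc', ?_⟩
    · refine ga_mul_det (ga_mul_det (ga_mul_det (ga_emb_det_ne i ?_) ?_) (ga_emb_det_ne i ?_))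
        (ga_emb_det_ne i ?_)
      · simp [Matrix.det_fin_two]
      · rw [hb'.det]; exact one_ne_zero
      · simp [Matrix.det_fin_two]
      · simp [Matrix.det_fin_two]
    · have e4 : emb i !![0, 1; -1, 0] * emb i !![-1, 0; 0, 1] * PM K (sw i) = (1 : Mx n K) := by
        rw [← ga_emb_swap, ← emb_mul, ← emb_mul, ← emb_one i]
        congr 1
        ext a b
        fin_cases a <;> fin_cases b <;> simp [Matrix.mul_apply, Fin.sum_univ_two]
      rw [← PM_mul]
      calc emb i !![0, -1; 1, 0] * (emb i !![1, -z; 0, 1] * (b * PM K w * c)) =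
            emb i !![0, -1; 1, 0] * b' * 1 * PM K w * c := by
              rw [mul_one]; simp only [b', mul_assoc]
        _ = emb i !![0, -1; 1, 0] * b' * (emb i !![0, 1; -1, 0] * emb i !![-1, 0; 0, 1] *
            PM K (sw i)) * PM K w * c := by rw [e4]
        _ = _ := by simp only [mul_assoc]
  · calc b * PM K w * c = (emb i !![1, z; 0, 1] * emb i !![1, -z; 0, 1]) * (b * PM K w * c) := by
          rw [e1, one_mul]
      _ = emb i !![1, z; 0, 1] * (1 * (emb i !![1, -z; 0, 1] * (b * PM K w * c))) := by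
          rw [one_mul, mul_assoc]
      _ = _ := by rw [← e3]; simp only [mul_assoc]

end Pool.Agent.CSM.GL
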