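import Pool.Agent.CSM.GL.Basic

/-! # Module GC, auxiliary: algebra of `emb i g` -/

open Matrix

noncomputable section

namespace Pool.Agent.CSM.GL

variable {n : ℕ} {K : Type} [Field K]

theorem gc_ne (i : Fin n) : i.succ ≠ i.castSucc := by
  rw [Ne, Fin.ext_iff]; simp

theorem gc_ne' (i : Fin n) : i.castSucc ≠ i.succ := (gc_ne i).symm

/-- row `i` of `emb i g * N` -/
theorem gc_mul0 (i : Fin n) (g : Matrix (Fin 2) (Fin 2) K) (N : Mx n K) (b : Fin (n + 1)) :
    (emb i g * N) i.castSucc b = g 0 0 * N i.castSucc b + g 0 1 * N i.succ b := by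
  rw [Matrix.mul_apply, Finset.sum_eq_add i.castSucc i.succ (gc_ne' i)]
  · simp [emb, gc_ne i]
  · rintro c - ⟨h1, h2⟩
    simp [emb, h1, h2]
  · simp
  · simp

/-- row `i+1` of `emb i g * N` -/
theorem gc_mul1 (i : Fin n) (g : Matrix (Fin 2) (Fin 2) K) (N : Mx n K) (b : Fin (n + 1)) :
    (emb i g * N) i.succ b = g 1 0 * N i.castSucc b + g 1 1 * N i.succ b := by
  rw [Matrix.mul_apply, Finset.sum_eq_add i.castSucc i.succ (gc_ne' i)]
  · simp [emb, gc_ne i]
  · rintro c - ⟨h1, h2⟩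
    simp [emb, h1, h2]
  · simp
  · simp

/-- the other rows of `emb i g * N` -/
theorem gc_mul2 (i : Fin n) (g : Matrix (Fin 2) (Fin 2) K) (N : Mx n K) (a b : Fin (n + 1))
    (h0 : a ≠ i.castSucc) (h1 : a ≠ i.succ) :
    (emb i g * N) a b = N a b := by
  rw [Matrix.mul_apply, Finset.sum_eq_single a]
  · simp [emb, h0, h1]
  · intro c _ hc
    simp [emb, h0, h1, hc.symm]
  · simp

/-- column `i` of `N * emb i g` -/
theorem gc_cmul0 (i : Fin n) (g : Matrix (Fin 2) (Fin 2) K) (N : Mx n K) (a : Fin (n + 1)) :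
    (N * emb i g) a i.castSucc = N a i.castSucc * g 0 0 + N a i.succ * g 1 0 := by
  rw [Matrix.mul_apply, Finset.sum_eq_add i.castSucc i.succ (gc_ne' i)]
  · simp [emb, gc_ne i]
  · rintro c - ⟨h1, h2⟩
    simp [emb, h1, h2]
  · simp
  · simp

/-- column `i+1` of `N * emb i g` -/
theorem gc_cmul1 (i : Fin n) (g : Matrix (Fin 2) (Fin 2) K) (N : Mx n K) (a : Fin (n + 1)) :
    (N * emb i g) a i.succ = N a i.castSucc * g 0 1 + N a i.succ * g 1 1 := by
  rw [Matrix.mul_apply, Finset.sum_eq_add i.castSucc i.succ (gc_ne' i)]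
  · simp [emb, gc_ne i]
  · rintro c - ⟨h1, h2⟩
    simp [emb, h1, h2]
  · simp
  · simp

/-- the other columns of `N * emb i g` -/
theorem gc_cmul2 (i : Fin n) (g : Matrix (Fin 2) (Fin 2) K) (N : Mx n K) (a b : Fin (n + 1))
    (h0 : b ≠ i.castSucc) (h1 : b ≠ i.succ) :
    (N * emb i g) a b = N a b := by
  rw [Matrix.mul_apply, Finset.sum_eq_single b]
  · simp [emb, h0, h1]
  · intro c _ hc
    simp [emb, h0, h1, hc]
  · simp

theorem gc_emb_one (i : Fin n) : emb i (1 : Matrix (Fin 2) (Fin 2) K) = 1 := by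
  ext a b
  rw [Matrix.one_apply]
  by_cases h0 : a = i.castSucc
  · subst h0
    simp only [emb, if_true]
    by_cases h1 : b = i.castSucc
    · subst h1; simp
    · rw [if_neg h1, if_neg (fun h : i.castSucc = b => h1 h.symm)]
      simp
  · by_cases h1 : a = i.succ
    · subst h1
      simp only [emb, if_true, h0, if_false]
      by_cases h2 : b = i.succ
      · subst h2; simp [gc_ne i]
      · rw [if_neg h2, if_neg (fun h : i.succ = b => h2 h.symm)]
        simp
    · simp [emb, h0, h1]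

theorem gc_emb_mul (i : Fin n) (g g' : Matrix (Fin 2) (Fin 2) K) :
    emb i (g * g') = emb i g * emb i g' := by
  ext a b
  by_cases h0 : a = i.castSucc
  · subst h0
    rw [gc_mul0]
    by_cases hb0 : b = i.castSucc
    · subst hb0; simp [emb, gc_ne i, Matrix.mul_apply, Fin.sum_univ_two]
    · by_cases hb1 : b = i.succ
      · subst hb1; simp [emb, gc_ne i, Matrix.mul_apply, Fin.sum_univ_two]
      · simp [emb, hb0, hb1]
  · by_cases h1 : a = i.succ
    · subst h1
      rw [gc_mul1]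
      by_cases hb0 : b = i.castSucc
      · subst hb0; simp [emb, gc_ne i, Matrix.mul_apply, Fin.sum_univ_two]
      · by_cases hb1 : b = i.succ
        · subst hb1; simp [emb, gc_ne i, Matrix.mul_apply, Fin.sum_univ_two]
        · simp [emb, hb0, hb1]
    · rw [gc_mul2 _ _ _ _ _ h0 h1]
      simp [emb, h0, h1]

theorem gc_emb_inv_mul (i : Fin n) (g : Matrix.SpecialLinearGroup (Fin 2) K) :
    emb i ((g⁻¹ : Matrix.SpecialLinearGroup (Fin 2) K) : Matrix (Fin 2) (Fin 2) K)
      * emb i (g : Matrix (Fin 2) (Fin 2) K) = 1 := by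
  rw [← gc_emb_mul, ← Matrix.SpecialLinearGroup.coe_mul, inv_mul_cancel,
    Matrix.SpecialLinearGroup.coe_one, gc_emb_one]

theorem gc_emb_mul_inv (i : Fin n) (g : Matrix.SpecialLinearGroup (Fin 2) K) :
    emb i (g : Matrix (Fin 2) (Fin 2) K)
      * emb i ((g⁻¹ : Matrix.SpecialLinearGroup (Fin 2) K) : Matrix (Fin 2) (Fin 2) K) = 1 := by
  rw [← gc_emb_mul, ← Matrix.SpecialLinearGroup.coe_mul, mul_inv_cancel,
    Matrix.SpecialLinearGroup.coe_one, gc_emb_one]

/-- entries of the inverse in `SL₂` -/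
theorem gc_inv (g : Matrix.SpecialLinearGroup (Fin 2) K) :
    ((g⁻¹ : Matrix.SpecialLinearGroup (Fin 2) K) : Matrix (Fin 2) (Fin 2) K)
      = !![g 1 1, - g 0 1; - g 1 0, g 0 0] := by
  rw [Matrix.SpecialLinearGroup.coe_inv, Matrix.adjugate_fin_two]

theorem gc_inv00 (g : Matrix.SpecialLinearGroup (Fin 2) K) :
    (g⁻¹ : Matrix.SpecialLinearGroup (Fin 2) K) 0 0 = g 1 1 := by
  have := congrFun (congrFun (gc_inv g) 0) 0
  simpa using this

theorem gc_inv01 (g : Matrix.SpecialLinearGroup (Fin 2) K) :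
    (g⁻¹ : Matrix.SpecialLinearGroup (Fin 2) K) 0 1 = - g 0 1 := by
  have := congrFun (congrFun (gc_inv g) 0) 1
  simpa using this

theorem gc_inv10 (g : Matrix.SpecialLinearGroup (Fin 2) K) :
    (g⁻¹ : Matrix.SpecialLinearGroup (Fin 2) K) 1 0 = - g 1 0 := by
  have := congrFun (congrFun (gc_inv g) 1) 0
  simpa using this

theorem gc_inv11 (g : Matrix.SpecialLinearGroup (Fin 2) K) :
    (g⁻¹ : Matrix.SpecialLinearGroup (Fin 2) K) 1 1 = g 0 0 := by
  have := congrFun (congrFun (gc_inv g) 1) 1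
  simpa using this

end Pool.Agent.CSM.GL
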