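import Pool.Agent.CSM.GL.Cells

/-! # Module GM: minors on Bruhat cells -/

open Matrix

noncomputable section

namespace Pool.Agent.CSM.GL

variable {n : ℕ} {K : Type} [Field K]

theorem mnr_right {m : ℕ} (hm : m ≤ n + 1) (ρ : Fin m → Fin (n + 1)) (g : Mx n K) {c : Mx n K}
    (hc : UT c) : mnr hm ρ (g * c) = mnr hm ρ g * ∏ j : Fin m, c (Fin.castLE hm j) (Fin.castLE hm j) := by
  unfold mnr
  have h1 : (g * c).submatrix ρ (Fin.castLE hm) =
      g.submatrix ρ (Fin.castLE hm) * c.submatrix (Fin.castLE hm) (Fin.castLE hm) := by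
    ext i j
    rw [Matrix.submatrix_apply, Matrix.mul_apply, Matrix.mul_apply]
    symm
    apply Fintype.sum_of_injective (Fin.castLE hm) (Fin.castLE_injective hm)
    · intro x hx
      have : Fin.castLE hm j < x := by
        by_contra hcon
        apply hx
        have hx' : (x : ℕ) < m := by
          have h2 : x ≤ Fin.castLE hm j := not_lt.1 hcon
          have h3 : (x : ℕ) ≤ (j : ℕ) := h2
          have := j.isLt
          omega
        exact ⟨⟨x, hx'⟩, rfl⟩
      rw [hc x _ this, mul_zero]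
    · intro x
      rfl
  rw [h1, Matrix.det_mul]
  congr 1
  rw [Matrix.det_of_upperTriangular]
  · rfl
  · intro i j h
    exact hc _ _ (by exact h)

theorem gm_diag_ne {c : Mx n K} (hc : UT c) (hc' : c.det ≠ 0) (j : Fin (n + 1)) : c j j ≠ 0 := by
  rw [hc.det_eq, Finset.prod_ne_zero_iff] at hc'
  exact hc' j (Finset.mem_univ _)

theorem gm_diag_ne' {c : Mx n K} (hc : LT c) (hc' : c.det ≠ 0) (j : Fin (n + 1)) : c j j ≠ 0 := by
  rw [hc.det_eq, Finset.prod_ne_zero_iff] at hc'
  exact hc' j (Finset.mem_univ _)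

theorem gm_mul_PM (v : Wn n) (A : Mx n K) (a b : Fin (n + 1)) :
    (A * PM K v) a b = A a (v b) := by
  rw [Matrix.mul_apply, Finset.sum_eq_single (v b)]
  · unfold PM
    rw [if_pos rfl, mul_one]
  · intro x _ hx
    unfold PM
    rw [if_neg hx, mul_zero]
  · intro h; exact absurd (Finset.mem_univ _) h

/-- Leibniz expansion: a nonvanishing minor of `b P_y` gives a matching -/
theorem gm_match {y : Wn n} {b : Mx n K} (hb : LT b) {m : ℕ} (hm : m ≤ n + 1)
    {ρ : Fin m → Fin (n + 1)} (hρ : mnr hm ρ (b * PM K y) ≠ 0) :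
    ∃ π : Equiv.Perm (Fin m), ∀ j, y (Fin.castLE hm j) ≤ ρ (π j) := by
  unfold mnr at hρ
  rw [Matrix.det_apply'] at hρ
  obtain ⟨π, -, hπ⟩ := Finset.exists_ne_zero_of_sum_ne_zero hρ
  refine ⟨π, fun j => ?_⟩
  have h1 := right_ne_zero_of_mul hπ
  rw [Finset.prod_ne_zero_iff] at h1
  have h2 := h1 j (Finset.mem_univ _)
  rw [Matrix.submatrix_apply, gm_mul_PM] at h2
  by_contra hcon
  exact h2 (hb _ _ (not_le.1 hcon))

/-- the minor with rows `y 0, …, y (m-1)` does not vanish on `B⁻ y B` -/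
theorem mnr_ne_zero {y : Wn n} {g : Mx n K} (h : InC y g) {m : ℕ} (hm : m ≤ n + 1) :
    mnr hm (fun j => y (Fin.castLE hm j)) g ≠ 0 := by
  obtain ⟨b, c, hb, hb', hc, hc', rfl⟩ := h
  rw [mnr_right hm _ _ hc]
  refine mul_ne_zero ?_ (Finset.prod_ne_zero_iff.2 fun j _ => gm_diag_ne hc hc' _)
  unfold mnr
  rw [Matrix.det_apply', Finset.sum_eq_single 1]
  · simp only [Equiv.Perm.sign_one, Units.val_one, Int.cast_one, one_mul, Equiv.Perm.one_apply]
    refine Finset.prod_ne_zero_iff.2 fun j _ => ?_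
    rw [Matrix.submatrix_apply, gm_mul_PM]
    exact gm_diag_ne' hb hb' _
  · intro π _ hπ
    by_contra hcon
    have h1 := right_ne_zero_of_mul hcon
    rw [Finset.prod_ne_zero_iff] at h1
    have h2 : ∀ j, y (Fin.castLE hm j) ≤ y (Fin.castLE hm (π j)) := by
      intro j
      have h3 := h1 j (Finset.mem_univ _)
      rw [Matrix.submatrix_apply, gm_mul_PM] at h3
      by_contra hlt
      exact h3 (hb _ _ (not_le.1 hlt))
    have h4 : ∑ j : Fin m, ((y (Fin.castLE hm j) : Fin (n + 1)) : ℕ) =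
        ∑ j : Fin m, ((y (Fin.castLE hm (π j)) : Fin (n + 1)) : ℕ) :=
      (Equiv.sum_comp π (fun j => ((y (Fin.castLE hm j) : Fin (n + 1)) : ℕ))).symm
    have h5 := (Finset.sum_eq_sum_iff_of_le (fun j _ => (Fin.le_def.1 (h2 j)))).1 h4
    apply hπ
    ext j
    have h6 := h5 j (Finset.mem_univ _)
    have h7 : Fin.castLE hm j = Fin.castLE hm (π j) := y.injective (Fin.ext h6)
    have h8 := Fin.castLE_injective hm h7
    rw [← h8]
    rfl
  · intro h; exact absurd (Finset.mem_univ _) h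

/-- a nonvanishing minor on `B⁻ y B` has rows `≥ y[m]` -/
theorem rk_of_mnr_ne {y : Wn n} {g : Mx n K} (h : InC y g) {m : ℕ} (hm : m ≤ n + 1)
    {ρ : Fin m → Fin (n + 1)} (hρ : mnr hm ρ g ≠ 0) (l : ℕ) :
    (Finset.univ.filter (fun j : Fin m => ((ρ j : Fin (n + 1)) : ℕ) < l)).card ≤ rk y l m := by
  obtain ⟨b, c, hb, hb', hc, hc', rfl⟩ := h
  rw [mnr_right hm _ _ hc] at hρ
  obtain ⟨π, hπ⟩ := gm_match hb hm (left_ne_zero_of_mul hρ)
  unfold rk
  refine Finset.card_le_card_of_injOn (fun j => Fin.castLE hm (π.symm j)) ?_ ?_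
  · intro j hj
    simp only [Finset.coe_filter, Finset.mem_univ, true_and, Set.mem_setOf_eq] at hj ⊢
    have h1 := hπ (π.symm j)
    rw [Equiv.apply_symm_apply, Fin.le_def] at h1
    refine ⟨?_, by omega⟩
    have := (π.symm j).isLt
    simpa using this
  · intro j _ j' _ hjj
    exact π.symm.injective (Fin.castLE_injective hm hjj)

theorem gm_rk_eq (y : Wn n) {m : ℕ} (hm : m ≤ n + 1) (l : ℕ) :
    (Finset.univ.filter (fun j : Fin m => ((y (Fin.castLE hm j) : Fin (n + 1)) : ℕ) < l)).card =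
      rk y l m := by
  unfold rk
  refine Finset.card_bij (fun j _ => Fin.castLE hm j) ?_ ?_ ?_
  · intro j hj
    simp only [Finset.mem_filter, Finset.mem_univ, true_and] at hj ⊢
    exact ⟨j.isLt, hj⟩
  · intro j _ j' _ h
    exact Fin.castLE_injective hm h
  · intro x hx
    simp only [Finset.mem_filter, Finset.mem_univ, true_and] at hx
    exact ⟨⟨x, hx.1⟩, by simpa using hx.2, rfl⟩

/-- comparison of two cells through minors: if every minor not vanishing on `g'` does not vanish
on `g` then the rank function of the cell of `g'` is at most the one of `g` -/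
theorem rk_le_of_mnr {K' : Type} [Field K'] {y y' : Wn n} {g : Mx n K} {g' : Mx n K'}
    (h : InC y g) (h' : InC y' g')
    (hm : ∀ (m : ℕ) (hm : m ≤ n + 1) (ρ : Fin m → Fin (n + 1)), mnr hm ρ g' ≠ 0 → mnr hm ρ g ≠ 0)
    (l m : ℕ) : rk y' l m ≤ rk y l m := by
  have key : ∀ m, m ≤ n + 1 → rk y' l m ≤ rk y l m := by
    intro m hm1
    rw [← gm_rk_eq y' hm1]
    exact rk_of_mnr_ne h hm1 (hm m hm1 _ (mnr_ne_zero h' hm1)) l
  by_cases hm1 : m ≤ n + 1
  · exact key m hm1
  · have e : ∀ z : Wn n, rk z l m = rk z l (n + 1) := by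
      intro z
      unfold rk
      congr 1
      ext j
      simp only [Finset.mem_filter, Finset.mem_univ, true_and]
      have := j.isLt
      constructor
      · rintro ⟨_, h2⟩; exact ⟨this, h2⟩
      · rintro ⟨_, h2⟩; exact ⟨by omega, h2⟩
    rw [e, e]
    exact key _ le_rfl

/-! ### the pair of minors attached to `(i, v)` -/

/-- the last index -/
def gm_last (i : Fin n) (v : Wn n) : Fin (mv i v) :=
  ⟨((v⁻¹ i.castSucc : Fin (n + 1)) : ℕ), by unfold mv; omega⟩

theorem gm_v_last (i : Fin n) (v : Wn n) :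
    v (Fin.castLE (mv_le i v) (gm_last i v)) = i.castSucc := by
  have : Fin.castLE (mv_le i v) (gm_last i v) = v⁻¹ i.castSucc := Fin.ext rfl
  rw [this]
  simp

theorem gm_v_ne {i : Fin n} {v : Wn n} (h : asc i v) {j : Fin (mv i v)} (hj : j ≠ gm_last i v) :
    v (Fin.castLE (mv_le i v) j) ≠ i.castSucc ∧ v (Fin.castLE (mv_le i v) j) ≠ i.succ := by
  constructor
  · intro h1
    rw [← gm_v_last i v] at h1
    exact hj (Fin.castLE_injective _ (v.injective h1))
  · intro h1
    have h2 : Fin.castLE (mv_le i v) j = v⁻¹ i.succ := by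
      rw [← h1]; simp
    unfold asc at h
    rw [← h2, Fin.lt_def] at h
    have h3 := j.isLt
    unfold mv at h3
    simp only [Fin.val_castLE] at h
    omega

theorem gm_rb_last (i : Fin n) (v : Wn n) : rb i v (gm_last i v) = i.succ := by
  unfold rb
  rw [gm_v_last]
  unfold sw
  exact Equiv.swap_apply_left _ _

theorem gm_rb_ne {i : Fin n} {v : Wn n} (h : asc i v) {j : Fin (mv i v)} (hj : j ≠ gm_last i v) :
    rb i v j = ra i v j := by
  unfold rb ra sw
  obtain ⟨h1, h2⟩ := gm_v_ne h hj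
  exact Equiv.swap_apply_of_ne_of_ne h1 h2

theorem gm_cs_ne (i : Fin n) : i.castSucc ≠ i.succ := by
  intro h
  have := congrArg Fin.val h
  simp at this

theorem gm_emb_cs (i : Fin n) (l : Matrix (Fin 2) (Fin 2) K) (g : Mx n K) (b : Fin (n + 1)) :
    (emb i l * g) i.castSucc b = l 0 0 * g i.castSucc b + l 0 1 * g i.succ b := by
  rw [Matrix.mul_apply]
  have hne := gm_cs_ne i
  rw [Finset.sum_eq_add_of_mem i.castSucc i.succ (Finset.mem_univ _) (Finset.mem_univ _) hne]
  · unfold emb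
    simp [hne.symm]
  · intro c _ hc
    unfold emb
    simp [hc.1, hc.2]

theorem gm_emb_succ (i : Fin n) (l : Matrix (Fin 2) (Fin 2) K) (g : Mx n K) (b : Fin (n + 1)) :
    (emb i l * g) i.succ b = l 1 0 * g i.castSucc b + l 1 1 * g i.succ b := by
  rw [Matrix.mul_apply]
  have hne := gm_cs_ne i
  rw [Finset.sum_eq_add_of_mem i.castSucc i.succ (Finset.mem_univ _) (Finset.mem_univ _) hne]
  · unfold emb
    simp [hne.symm]
  · intro c _ hc
    unfold emb
    simp [hne.symm, hc.1, hc.2]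

theorem gm_emb_oth (i : Fin n) (l : Matrix (Fin 2) (Fin 2) K) (g : Mx n K) {a : Fin (n + 1)}
    (h1 : a ≠ i.castSucc) (h2 : a ≠ i.succ) (b : Fin (n + 1)) : (emb i l * g) a b = g a b := by
  rw [Matrix.mul_apply, Finset.sum_eq_single a]
  · unfold emb
    simp [h1, h2]
  · intro c _ hc
    unfold emb
    simp [h1, h2, Ne.symm hc]
  · intro h; exact absurd (Finset.mem_univ _) h

theorem gm_sub_ra (i : Fin n) (v : Wn n) (g : Mx n K) :
    g.submatrix (ra i v) (Fin.castLE (mv_le i v)) =
      Matrix.updateRow (g.submatrix (ra i v) (Fin.castLE (mv_le i v))) (gm_last i v)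
        (fun j => g i.castSucc (Fin.castLE (mv_le i v) j)) := by
  ext a b
  rw [Matrix.updateRow_apply]
  split_ifs with hab
  · subst hab
    rw [Matrix.submatrix_apply]
    unfold ra
    rw [gm_v_last]
  · rfl

theorem gm_sub_rb {i : Fin n} {v : Wn n} (h : asc i v) (g : Mx n K) :
    g.submatrix (rb i v) (Fin.castLE (mv_le i v)) =
      Matrix.updateRow (g.submatrix (ra i v) (Fin.castLE (mv_le i v))) (gm_last i v)
        (fun j => g i.succ (Fin.castLE (mv_le i v) j)) := by
  ext a b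
  rw [Matrix.updateRow_apply]
  split_ifs with hab
  · subst hab
    rw [Matrix.submatrix_apply, gm_rb_last]
  · rw [Matrix.submatrix_apply, Matrix.submatrix_apply, gm_rb_ne h hab]

theorem gm_sub_emb {i : Fin n} {v : Wn n} (h : asc i v) (l : Matrix (Fin 2) (Fin 2) K)
    (g : Mx n K) (ρ : Fin (n + 1) → K) :
    Matrix.updateRow ((emb i l * g).submatrix (ra i v) (Fin.castLE (mv_le i v))) (gm_last i v)
        (fun j => ρ (Fin.castLE (mv_le i v) j)) =
      Matrix.updateRow (g.submatrix (ra i v) (Fin.castLE (mv_le i v))) (gm_last i v)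
        (fun j => ρ (Fin.castLE (mv_le i v) j)) := by
  ext a b
  rw [Matrix.updateRow_apply, Matrix.updateRow_apply]
  split_ifs with hab
  · rfl
  · rw [Matrix.submatrix_apply, Matrix.submatrix_apply]
    obtain ⟨h1, h2⟩ := gm_v_ne h hab
    exact gm_emb_oth i l g h1 h2 _

theorem gm_det_comb {m : ℕ} (A : Matrix (Fin m) (Fin m) K) (a : Fin m) (r s : Fin m → K)
    (x y : K) : (Matrix.updateRow A a (fun j => x * r j + y * s j)).det =
      x * (Matrix.updateRow A a r).det + y * (Matrix.updateRow A a s).det := by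
  rw [← Matrix.det_updateRow_smul, ← Matrix.det_updateRow_smul, ← Matrix.det_updateRow_add]
  rfl

/-- the two minors attached to `(i, v)`, `s_i v > v`, form the standard representation -/
theorem mnr_ra_emb {i : Fin n} {v : Wn n} (h : asc i v) (l : Matrix (Fin 2) (Fin 2) K)
    (g : Mx n K) : mnr (mv_le i v) (ra i v) (emb i l * g)
      = l 0 0 * mnr (mv_le i v) (ra i v) g + l 0 1 * mnr (mv_le i v) (rb i v) g := by
  unfold mnr
  rw [gm_sub_ra i v (emb i l * g), gm_sub_emb h l g (fun b => (emb i l * g) i.castSucc b)]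
  simp only [gm_emb_cs]
  rw [gm_det_comb, gm_sub_rb h, ← gm_sub_ra]

theorem mnr_rb_emb {i : Fin n} {v : Wn n} (h : asc i v) (l : Matrix (Fin 2) (Fin 2) K)
    (g : Mx n K) : mnr (mv_le i v) (rb i v) (emb i l * g)
      = l 1 0 * mnr (mv_le i v) (ra i v) g + l 1 1 * mnr (mv_le i v) (rb i v) g := by
  unfold mnr
  rw [gm_sub_rb h (emb i l * g), gm_sub_emb h l g (fun b => (emb i l * g) i.succ b)]
  simp only [gm_emb_succ]
  rw [gm_det_comb, gm_sub_rb h, ← gm_sub_ra]

theorem mnr_ra_ne {i : Fin n} {v : Wn n} (h : asc i v) {g : Mx n K} (hg : InC v g) :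
    mnr (mv_le i v) (ra i v) g ≠ 0 := by
  have _ := h
  exact mnr_ne_zero hg (mv_le i v)

theorem mnr_rb_ne {i : Fin n} {v : Wn n} (h : asc i v) {g : Mx n K} (hg : InC (sw i * v) g) :
    mnr (mv_le i v) (rb i v) g ≠ 0 := by
  have _ := h
  exact mnr_ne_zero hg (mv_le i v)

theorem mnr_ra_zero {i : Fin n} {v : Wn n} (h : asc i v) {g : Mx n K} (hg : InC (sw i * v) g) :
    mnr (mv_le i v) (ra i v) g = 0 := by
  by_contra hcon
  have h1 := rk_of_mnr_ne hg (mv_le i v) hcon ((i : ℕ) + 1)
  rw [← gm_rk_eq (sw i * v) (mv_le i v)] at h1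
  have h2 : (Finset.univ.filter (fun j : Fin (mv i v) =>
      (((sw i * v) (Fin.castLE (mv_le i v) j) : Fin (n + 1)) : ℕ) < (i : ℕ) + 1)) ⊂
      (Finset.univ.filter (fun j : Fin (mv i v) => ((ra i v j : Fin (n + 1)) : ℕ) < (i : ℕ) + 1)) := by
    rw [Finset.ssubset_iff_of_subset]
    · refine ⟨gm_last i v, ?_, ?_⟩
      · simp only [Finset.mem_filter, Finset.mem_univ, true_and]
        unfold ra
        rw [gm_v_last]
        simp
      · simp only [Finset.mem_filter, Finset.mem_univ, true_and]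
        have : (sw i * v) (Fin.castLE (mv_le i v) (gm_last i v)) = i.succ := gm_rb_last i v
        rw [this]
        simp
    · intro j hj
      simp only [Finset.mem_filter, Finset.mem_univ, true_and] at hj ⊢
      by_cases hjl : j = gm_last i v
      · subst hjl
        unfold ra
        rw [gm_v_last]
        simp
      · have : (sw i * v) (Fin.castLE (mv_le i v) j) = ra i v j := gm_rb_ne h hjl
        rw [this] at hj
        exact hj
  have h3 := Finset.card_lt_card h2
  omega

end Pool.Agent.CSM.GL
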