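import Pool.Agent.CSM.GL.Cells

/-! # Module GW: the eigenvector matrix `Wm M` of an upper triangular matrix -/

open Matrix

noncomputable section

namespace Pool.Agent.CSM.GL

variable {n : ℕ} {K : Type} [Field K]

/-! ### polynomials in an upper triangular matrix -/

theorem gw_UT_add {a b : Mx n K} (ha : UT a) (hb : UT b) : UT (a + b) := by
  intro i j h
  rw [Matrix.add_apply, ha i j h, hb i j h, add_zero]

theorem gw_UT_scalar (r : K) : UT (algebraMap K (Mx n K) r) := by
  intro i j h
  rw [Matrix.algebraMap_matrix_apply, if_neg (ne_of_gt h)]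

theorem gw_aeval_UT {M : Mx n K} (hM : UT M) (P : Polynomial K) :
    UT (Polynomial.aeval M P) ∧ ∀ b, (Polynomial.aeval M P) b b = P.eval (M b b) := by
  induction P using Polynomial.induction_on' with
  | add p q hp hq =>
    rw [map_add]
    refine ⟨gw_UT_add hp.1 hq.1, fun b => ?_⟩
    rw [Matrix.add_apply, hp.2, hq.2, Polynomial.eval_add]
  | monomial m r =>
    rw [← Polynomial.C_mul_X_pow_eq_monomial, map_mul, Polynomial.aeval_C, map_pow,
      Polynomial.aeval_X]
    have key : ∀ m : ℕ, UT (M ^ m) ∧ ∀ b, (M ^ m) b b = (M b b) ^ m := by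
      intro m
      induction m with
      | zero =>
        rw [pow_zero]
        exact ⟨UT.one, fun b => by rw [Matrix.one_apply_eq, pow_zero]⟩
      | succ m ih =>
        rw [pow_succ]
        exact ⟨ih.1.mul hM, fun b => by rw [ih.1.mul_diag hM, ih.2, pow_succ]⟩
    obtain ⟨h1, h2⟩ := key m
    refine ⟨(gw_UT_scalar r).mul h1, fun b => ?_⟩
    rw [(gw_UT_scalar r).mul_diag h1, h2, Matrix.algebraMap_matrix_apply, if_pos rfl]
    simp

/-- the polynomial `∏_{c < m} (X - M_cc)` -/
def gw_Q {R : Type} [CommRing R] (M : Matrix (Fin (n + 1)) (Fin (n + 1)) R) (m : ℕ) :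
    Polynomial R :=
  ∏ c ∈ Finset.univ.filter (fun c : Fin (n + 1) => (c : ℕ) < m),
    (Polynomial.X - Polynomial.C (M c c))

theorem gw_Wm_apply {R : Type} [CommRing R] (M : Matrix (Fin (n + 1)) (Fin (n + 1)) R)
    (a b : Fin (n + 1)) : Wm M a b = (Polynomial.aeval M (gw_Q M (b : ℕ))) a b := by
  unfold Wm gw_Q
  have : Finset.Iio b = Finset.univ.filter (fun c : Fin (n + 1) => (c : ℕ) < (b : ℕ)) := by
    ext c
    simp
  rw [this]

theorem gw_Q_succ {R : Type} [CommRing R] (M : Matrix (Fin (n + 1)) (Fin (n + 1)) R)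
    (b : Fin (n + 1)) : gw_Q M ((b : ℕ) + 1) =
      gw_Q M (b : ℕ) * (Polynomial.X - Polynomial.C (M b b)) := by
  unfold gw_Q
  have : Finset.univ.filter (fun c : Fin (n + 1) => (c : ℕ) < (b : ℕ) + 1) =
      insert b (Finset.univ.filter (fun c : Fin (n + 1) => (c : ℕ) < (b : ℕ))) := by
    ext c
    simp only [Finset.mem_filter, Finset.mem_univ, true_and, Finset.mem_insert, Fin.ext_iff]
    omega
  rw [this, Finset.prod_insert (by simp), mul_comm]

/-- `∏_{c < m} (M - M_cc)` kills `e_j` for `j < m` -/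
theorem gw_kill {M : Mx n K} (hM : UT M) (m : ℕ) : ∀ j : Fin (n + 1), (j : ℕ) < m →
    ∀ a, (Polynomial.aeval M (gw_Q M m)) a j = 0 := by
  induction m with
  | zero => intro j hj; omega
  | succ m ih =>
    intro j hj a
    by_cases hm : m < n + 1
    · have hQ := gw_Q_succ M ⟨m, hm⟩
      simp only at hQ
      rw [hQ]
      rcases Nat.lt_succ_iff_lt_or_eq.1 hj with h | h
      · rw [mul_comm, map_mul, Matrix.mul_apply]
        exact Finset.sum_eq_zero fun x _ => by rw [ih j h, mul_zero]
      · have hj' : j = ⟨m, hm⟩ := Fin.ext h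
        rw [map_mul, Matrix.mul_apply]
        refine Finset.sum_eq_zero fun x _ => ?_
        rcases lt_trichotomy x j with hx | hx | hx
        · rw [ih x (by rw [← h]; exact hx), zero_mul]
        · have : (Polynomial.aeval M (Polynomial.X - Polynomial.C (M ⟨m, hm⟩ ⟨m, hm⟩))) x j = 0 := by
            rw [map_sub, Polynomial.aeval_X, Polynomial.aeval_C, Matrix.sub_apply,
              Matrix.algebraMap_matrix_apply, if_pos hx, hx, hj']
            simp
          rw [this, mul_zero]
        · have : (Polynomial.aeval M (Polynomial.X - Polynomial.C (M ⟨m, hm⟩ ⟨m, hm⟩))) x j = 0 := by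
            rw [map_sub, Polynomial.aeval_X, Polynomial.aeval_C, Matrix.sub_apply,
              Matrix.algebraMap_matrix_apply, if_neg (ne_of_gt hx), hM x j hx, sub_zero]
          rw [this, mul_zero]
    · have : gw_Q M (m + 1) = gw_Q M m := by
        unfold gw_Q
        congr 1
        ext c
        simp only [Finset.mem_filter, Finset.mem_univ, true_and]
        have := c.isLt
        omega
      rw [this]
      exact ih j (by have := j.isLt; omega) a

theorem Wm_UT {M : Mx n K} (hM : UT M) : UT (Wm M) := by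
  intro a b h
  rw [gw_Wm_apply]
  exact (gw_aeval_UT hM _).1 a b h

theorem Wm_diag {M : Mx n K} (hM : UT M) (b : Fin (n + 1)) :
    Wm M b b = ∏ c ∈ Finset.Iio b, (M b b - M c c) := by
  unfold Wm
  rw [(gw_aeval_UT hM _).2, Polynomial.eval_prod]
  simp

theorem Wm_eig {M : Mx n K} (hM : UT M) :
    M * Wm M = Wm M * Matrix.diagonal (fun b => M b b) := by
  ext a b
  rw [Matrix.mul_diagonal]
  have h1 := gw_kill hM ((b : ℕ) + 1) b (Nat.lt_succ_self _) a
  rw [gw_Q_succ, mul_comm, map_mul, map_sub, Polynomial.aeval_X, Polynomial.aeval_C, sub_mul,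
    Matrix.sub_apply, sub_eq_zero, ← Algebra.smul_def, Matrix.smul_apply, smul_eq_mul] at h1
  rw [gw_Wm_apply, mul_comm, ← h1, Matrix.mul_apply, Matrix.mul_apply]
  exact Finset.sum_congr rfl fun x _ => by rw [gw_Wm_apply]

theorem Wm_det_ne {M : Mx n K} (hM : UT M) (hd : ∀ a b, a ≠ b → M a a ≠ M b b) :
    (Wm M).det ≠ 0 := by
  rw [(Wm_UT hM).det_eq, Finset.prod_ne_zero_iff]
  intro b _
  rw [Wm_diag hM, Finset.prod_ne_zero_iff]
  intro c hc
  rw [Finset.mem_Iio] at hc
  exact sub_ne_zero.2 (hd b c (ne_of_gt hc))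

/-! ### conjugations -/

theorem gw_aeval_conj (M g h : Mx n K) (hg : h * g = 1) (P : Polynomial K) :
    Polynomial.aeval (g * M * h) P = g * Polynomial.aeval M P * h := by
  have hg' : g * h = 1 := mul_eq_one_comm.1 hg
  induction P using Polynomial.induction_on' with
  | add p q hp hq => rw [map_add, map_add, hp, hq, mul_add, add_mul]
  | monomial m r =>
    rw [← Polynomial.C_mul_X_pow_eq_monomial, map_mul, map_mul, Polynomial.aeval_C, map_pow,
      map_pow, Polynomial.aeval_X, Polynomial.aeval_X, Polynomial.aeval_C]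
    have key : ∀ m : ℕ, (g * M * h) ^ m = g * M ^ m * h := by
      intro m
      induction m with
      | zero => rw [pow_zero, pow_zero, mul_one, hg']
      | succ m ih =>
        rw [pow_succ, ih, pow_succ]
        calc g * M ^ m * h * (g * M * h) = g * M ^ m * (h * g) * M * h := by
              simp only [mul_assoc]
          _ = g * (M ^ m * M) * h := by rw [hg, mul_one]; simp only [mul_assoc]
    rw [key, ← Algebra.smul_def, ← Algebra.smul_def, Matrix.mul_smul, Matrix.smul_mul]

/-- conjugation by an upper unitriangular matrix -/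
theorem Wm_conj_UU {M g : Mx n K} (hM : UT M) (hg : UU g) : Wm (g * M * g⁻¹) = g * Wm M := by
  have hdet : g.det = 1 := hg.det
  have hu : IsUnit g.det := by rw [hdet]; exact isUnit_one
  have hinv : UU g⁻¹ := hg.inv
  have hd : ∀ c, (g * M * g⁻¹) c c = M c c := by
    intro c
    rw [(hg.1.mul hM).mul_diag hinv.1, hg.1.mul_diag hM, hg.2, hinv.2, one_mul, mul_one]
  have hQ : ∀ m, gw_Q (g * M * g⁻¹) m = gw_Q M m := by
    intro m
    unfold gw_Q
    exact Finset.prod_congr rfl fun c _ => by rw [hd]
  ext a b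
  rw [gw_Wm_apply, hQ, gw_aeval_conj _ _ _ (Matrix.nonsing_inv_mul g hu), Matrix.mul_apply,
    Finset.sum_eq_single b]
  · rw [hinv.2, mul_one, Matrix.mul_apply, Matrix.mul_apply]
    exact Finset.sum_congr rfl fun x _ => by rw [gw_Wm_apply]
  · intro x _ hx
    rcases lt_or_gt_of_ne hx with h | h
    · have : (g * (Polynomial.aeval M) (gw_Q M ↑b)) a x = 0 := by
        rw [Matrix.mul_apply]
        exact Finset.sum_eq_zero fun y _ => by rw [gw_kill hM b x h, mul_zero]
      rw [this, zero_mul]
    · rw [hinv.1 x b h, mul_zero]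
  · intro h; exact absurd (Finset.mem_univ _) h

/-- conjugation by a diagonal matrix -/
theorem Wm_conj_diag (M : Mx n K) (t : Fin (n + 1) → K) (ht : ∀ a, t a ≠ 0) :
    Wm (Matrix.of fun a b => t a * M a b * (t b)⁻¹ : Mx n K)
      = Matrix.diagonal t * Wm M * Matrix.diagonal (fun b => (t b)⁻¹) := by
  have h1 : (Matrix.of fun a b => t a * M a b * (t b)⁻¹ : Mx n K) =
      Matrix.diagonal t * M * Matrix.diagonal (fun b => (t b)⁻¹) := by
    ext a b
    rw [Matrix.mul_diagonal, Matrix.diagonal_mul, Matrix.of_apply]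
  have h2 : Matrix.diagonal (fun b => (t b)⁻¹) * Matrix.diagonal t = (1 : Mx n K) := by
    rw [Matrix.diagonal_mul_diagonal, ← Matrix.diagonal_one]
    congr 1
    funext a
    exact inv_mul_cancel₀ (ht a)
  have hQ : ∀ m, gw_Q (Matrix.of fun a b => t a * M a b * (t b)⁻¹ : Mx n K) m = gw_Q M m := by
    intro m
    unfold gw_Q
    refine Finset.prod_congr rfl fun c _ => ?_
    rw [Matrix.of_apply, mul_comm (t c), mul_assoc, mul_inv_cancel₀ (ht c), mul_one]
  ext a b
  rw [gw_Wm_apply, hQ, h1, gw_aeval_conj _ _ _ h2, Matrix.mul_diagonal, Matrix.diagonal_mul,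
    Matrix.mul_diagonal, Matrix.diagonal_mul, gw_Wm_apply]

/-- scaling -/
theorem Wm_smul (M : Mx n K) (z : K) :
    Wm (z • M) = Wm M * Matrix.diagonal (fun b : Fin (n + 1) => z ^ (b : ℕ)) := by
  ext a b
  rw [Matrix.mul_diagonal]
  have h1 : z • M = Polynomial.aeval M (Polynomial.C z * Polynomial.X) := by
    rw [map_mul, Polynomial.aeval_C, Polynomial.aeval_X, ← Algebra.smul_def]
  have h2 : (∏ c ∈ Finset.Iio b, (Polynomial.X - Polynomial.C ((z • M) c c))).comp
      (Polynomial.C z * Polynomial.X) =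
      Polynomial.C (z ^ (b : ℕ)) * ∏ c ∈ Finset.Iio b, (Polynomial.X - Polynomial.C (M c c)) := by
    rw [Polynomial.prod_comp]
    have : ∀ c ∈ Finset.Iio b, (Polynomial.X - Polynomial.C ((z • M) c c)).comp
        (Polynomial.C z * Polynomial.X) =
        Polynomial.C z * (Polynomial.X - Polynomial.C (M c c)) := by
      intro c _
      rw [Polynomial.sub_comp, Polynomial.X_comp, Polynomial.C_comp, Matrix.smul_apply,
        smul_eq_mul, Polynomial.C_mul, mul_sub]
    rw [Finset.prod_congr rfl this, Finset.prod_mul_distrib, Finset.prod_const, Fin.card_Iio,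
      Polynomial.C_pow]
  unfold Wm
  conv_lhs => rw [h1]
  rw [← Polynomial.aeval_comp, ← h1, h2, map_mul, Polynomial.aeval_C, ← Algebra.smul_def,
    Matrix.smul_apply, smul_eq_mul, mul_comm]

/-! ### conjugation by the Weyl element -/

/-- the signs -/
def gw_eps (i : Fin n) (K : Type) [Field K] : Fin (n + 1) → K :=
  fun b => if b = i.castSucc then -1 else 1

theorem gw_eps_sq (i : Fin n) (b : Fin (n + 1)) : gw_eps i K b * gw_eps i K b = 1 := by
  unfold gw_eps
  split_ifs <;> simp

theorem gw_PM_mul_apply (v : Wn n) (A : Mx n K) (a b : Fin (n + 1)) :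
    (PM K v * A) a b = A (v⁻¹ a) b := by
  rw [Matrix.mul_apply, Finset.sum_eq_single (v⁻¹ a)]
  · unfold PM
    rw [if_pos (by simp), one_mul]
  · intro x _ hx
    unfold PM
    rw [if_neg, zero_mul]
    rintro rfl
    exact hx (by simp)
  · intro h; exact absurd (Finset.mem_univ _) h

theorem gw_mul_PM_apply (v : Wn n) (A : Mx n K) (a b : Fin (n + 1)) :
    (A * PM K v) a b = A a (v b) := by
  rw [Matrix.mul_apply, Finset.sum_eq_single (v b)]
  · unfold PM
    rw [if_pos rfl, mul_one]
  · intro x _ hx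
    unfold PM
    rw [if_neg hx, mul_zero]
  · intro h; exact absurd (Finset.mem_univ _) h

theorem gw_sw_inv (i : Fin n) : (sw i)⁻¹ = sw i := by
  unfold sw
  exact Equiv.swap_inv _ _

theorem gw_cs_ne (i : Fin n) : i.castSucc ≠ i.succ := by
  intro h
  have := congrArg Fin.val h
  simp at this

theorem gw_emb_ss (i : Fin n) :
    emb i !![0, 1; -1, 0] = PM K (sw i) * Matrix.diagonal (gw_eps i K) := by
  ext a b
  rw [Matrix.mul_diagonal]
  unfold emb PM gw_eps sw
  have hne := gw_cs_ne i
  by_cases ha : a = i.castSucc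
  · subst ha
    by_cases hb : b = i.castSucc
    · subst hb; simp [hne]
    · by_cases hb' : b = i.succ
      · subst hb'; simp [hne.symm]
      · rw [Equiv.swap_apply_of_ne_of_ne hb hb']
        simp [hb, hb', Ne.symm hb]
  · by_cases ha' : a = i.succ
    · subst ha'
      by_cases hb : b = i.castSucc
      · subst hb; simp [hne.symm]
      · by_cases hb' : b = i.succ
        · subst hb'; simp [hne.symm]
        · rw [Equiv.swap_apply_of_ne_of_ne hb hb']
          simp [hne.symm, hb, hb', Ne.symm hb']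
    · by_cases hb : b = i.castSucc
      · subst hb; simp [ha, ha']
      · by_cases hb' : b = i.succ
        · subst hb'; simp [ha, ha']
        · rw [Equiv.swap_apply_of_ne_of_ne hb hb']
          simp [ha, ha', hb]

theorem gw_emb_ss' (i : Fin n) :
    emb i !![0, -1; 1, 0] = Matrix.diagonal (gw_eps i K) * PM K (sw i) := by
  ext a b
  rw [Matrix.diagonal_mul]
  unfold emb PM gw_eps sw
  have hne := gw_cs_ne i
  by_cases ha : a = i.castSucc
  · subst ha
    by_cases hb : b = i.castSucc
    · subst hb; simp [hne]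
    · by_cases hb' : b = i.succ
      · subst hb'; simp [hne.symm]
      · rw [Equiv.swap_apply_of_ne_of_ne hb hb']
        simp [hb, hb', Ne.symm hb]
  · by_cases ha' : a = i.succ
    · subst ha'
      by_cases hb : b = i.castSucc
      · subst hb; simp [hne.symm]
      · by_cases hb' : b = i.succ
        · subst hb'; simp [hne.symm]
        · rw [Equiv.swap_apply_of_ne_of_ne hb hb']
          simp [hne.symm, hb, hb', Ne.symm hb']
    · by_cases hb : b = i.castSucc
      · subst hb; simp [ha, ha']
      · by_cases hb' : b = i.succ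
        · subst hb'; simp [ha, ha']
        · rw [Equiv.swap_apply_of_ne_of_ne hb hb']
          simp [ha, ha']

theorem gw_diag_sq (i : Fin n) :
    Matrix.diagonal (gw_eps i K) * Matrix.diagonal (gw_eps i K) = (1 : Mx n K) := by
  rw [Matrix.diagonal_mul_diagonal, ← Matrix.diagonal_one]
  congr 1
  funext b
  exact gw_eps_sq i b

theorem gw_ss_inv (i : Fin n) :
    emb i !![0, -1; 1, 0] * emb i !![0, 1; -1, 0] = (1 : Mx n K) := by
  rw [gw_emb_ss, gw_emb_ss']
  calc Matrix.diagonal (gw_eps i K) * PM K (sw i) * (PM K (sw i) * Matrix.diagonal (gw_eps i K))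
      = Matrix.diagonal (gw_eps i K) * (PM K (sw i) * PM K (sw i)) * Matrix.diagonal (gw_eps i K) := by
        simp only [mul_assoc]
    _ = 1 := by rw [PM_mul, sw_sq, PM_one, mul_one, gw_diag_sq]

theorem gw_conj_apply (M : Mx n K) (i : Fin n) (a b : Fin (n + 1)) :
    (emb i !![0, 1; -1, 0] * M * emb i !![0, -1; 1, 0] : Mx n K) a b =
      gw_eps i K (sw i a) * M (sw i a) (sw i b) * gw_eps i K (sw i b) := by
  rw [gw_emb_ss, gw_emb_ss']
  rw [← mul_assoc, gw_mul_PM_apply, Matrix.mul_diagonal, mul_assoc (PM K (sw i)),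
    gw_PM_mul_apply, Matrix.diagonal_mul, gw_sw_inv]

theorem gw_sw_lt {i : Fin n} {a b : Fin (n + 1)} (h : b < a)
    (hab : ¬ (b = i.castSucc ∧ a = i.succ)) : sw i b < sw i a := by
  unfold sw
  rw [Fin.lt_def] at h ⊢
  simp only [Equiv.swap_apply_def]
  split_ifs with h1 h2 h3 h4 h5 h6 h7 <;> simp only [Fin.ext_iff, Fin.val_castSucc, Fin.val_succ] at * <;> omega

theorem gw_conj_UT {M : Mx n K} (hM : UT M) (i : Fin n) (hi : M i.castSucc i.succ = 0) :
    UT (emb i !![0, 1; -1, 0] * M * emb i !![0, -1; 1, 0]) := by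
  intro a b h
  rw [gw_conj_apply]
  by_cases hab : b = i.castSucc ∧ a = i.succ
  · obtain ⟨rfl, rfl⟩ := hab
    have h1 : sw i i.succ = i.castSucc := by unfold sw; exact Equiv.swap_apply_right _ _
    have h2 : sw i i.castSucc = i.succ := by unfold sw; exact Equiv.swap_apply_left _ _
    rw [h1, h2, hi, mul_zero, zero_mul]
  · rw [hM _ _ (gw_sw_lt h hab), mul_zero, zero_mul]

/-- a matrix commuting with a diagonal matrix with distinct entries is diagonal -/
theorem gw_comm_diag {d : Fin (n + 1) → K} (hd : ∀ a b, a ≠ b → d a ≠ d b) {X : Mx n K}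
    (h : Matrix.diagonal d * X = X * Matrix.diagonal d) : X = Matrix.diagonal (fun b => X b b) := by
  ext a b
  by_cases hab : a = b
  · subst hab
    rw [Matrix.diagonal_apply_eq]
  · rw [Matrix.diagonal_apply_ne _ hab]
    have h1 := congrFun (congrFun h a) b
    rw [Matrix.diagonal_mul, Matrix.mul_diagonal] at h1
    have h2 : (d a - d b) * X a b = 0 := by linear_combination h1
    exact (mul_eq_zero.1 h2).resolve_left (sub_ne_zero.2 (hd a b hab))

/-- conjugation by the Weyl element when the entry `(i,i+1)` vanishes -/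
theorem Wm_conj_ss {M : Mx n K} (hM : UT M) (hd : ∀ a b, a ≠ b → M a a ≠ M b b) (i : Fin n)
    (hi : M i.castSucc i.succ = 0) :
    ∃ D : Fin (n + 1) → K, (∀ b, D b ≠ 0) ∧
      Wm (emb i !![0, 1; -1, 0] * M * emb i !![0, -1; 1, 0])
        = emb i !![0, 1; -1, 0] * Wm M * PM K (sw i) * Matrix.diagonal D := by
  set S : Mx n K := emb i !![0, 1; -1, 0] with hS
  set S' : Mx n K := emb i !![0, -1; 1, 0] with hS'
  have hSS : S' * S = 1 := gw_ss_inv i
  have hSS' : S * S' = 1 := mul_eq_one_comm.1 hSS
  set M' := S * M * S' with hM'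
  have hUT : UT M' := gw_conj_UT hM i hi
  have hdiag : ∀ b, M' b b = M (sw i b) (sw i b) := by
    intro b
    rw [hM', hS, hS', gw_conj_apply, mul_comm (gw_eps i K (sw i b)), mul_assoc, gw_eps_sq, mul_one]
  have hd' : ∀ a b, a ≠ b → M' a a ≠ M' b b := by
    intro a b hab
    rw [hdiag, hdiag]
    exact hd _ _ (fun h => hab ((sw i).injective h))
  set V : Mx n K := S * Wm M * PM K (sw i) with hV
  set d' : Fin (n + 1) → K := fun b => M' b b with hd'def
  -- `V` consists of eigenvectors
  have hMV : M' * V = V * Matrix.diagonal d' := by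
    have e1 : M' * V = S * (M * Wm M) * PM K (sw i) := by
      rw [hM', hV]
      calc S * M * S' * (S * Wm M * PM K (sw i)) = S * M * (S' * S) * Wm M * PM K (sw i) := by
            simp only [mul_assoc]
        _ = S * (M * Wm M) * PM K (sw i) := by rw [hSS, mul_one]; simp only [mul_assoc]
    have e2 : Matrix.diagonal (fun b => M b b) * PM K (sw i) =
        PM K (sw i) * Matrix.diagonal d' := by
      ext a b
      rw [gw_mul_PM_apply, Matrix.mul_diagonal, hd'def]
      simp only
      rw [hdiag]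
      unfold PM
      by_cases hab : a = sw i b
      · rw [if_pos hab, hab, Matrix.diagonal_apply_eq, one_mul]
      · rw [if_neg hab, Matrix.diagonal_apply_ne _ hab, zero_mul]
    rw [e1, Wm_eig hM, hV]
    calc S * (Wm M * Matrix.diagonal fun b => M b b) * PM K (sw i)
        = S * Wm M * (Matrix.diagonal (fun b => M b b) * PM K (sw i)) := by simp only [mul_assoc]
      _ = _ := by rw [e2]; simp only [mul_assoc]
  have hVdet : V.det ≠ 0 := by
    rw [hV, Matrix.det_mul, Matrix.det_mul]
    refine mul_ne_zero (mul_ne_zero ?_ (Wm_det_ne hM hd)) (PM_det _)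
    have := congrArg Matrix.det hSS
    rw [Matrix.det_mul, Matrix.det_one] at this
    exact right_ne_zero_of_mul (by rw [this]; exact one_ne_zero)
  have hVu : IsUnit V.det := isUnit_iff_ne_zero.2 hVdet
  have hW := Wm_eig hUT
  set X : Mx n K := V⁻¹ * Wm M' with hX
  have hVX : Wm M' = V * X := by rw [hX, Matrix.mul_nonsing_inv_cancel_left _ _ hVu]
  have hcomm : Matrix.diagonal d' * X = X * Matrix.diagonal d' := by
    have e3 : V * (Matrix.diagonal d' * X) = V * (X * Matrix.diagonal d') := by
      rw [← mul_assoc, ← hMV, mul_assoc, ← hVX, hW, hVX, mul_assoc]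
    have e4 := congrArg (fun Y => V⁻¹ * Y) e3
    simp only [Matrix.nonsing_inv_mul_cancel_left _ _ hVu] at e4
    exact e4
  have hXd := gw_comm_diag hd' hcomm
  refine ⟨fun b => X b b, ?_, ?_⟩
  · intro b hb
    have h1 : (Wm M').det ≠ 0 := Wm_det_ne hUT hd'
    rw [hVX, Matrix.det_mul, hXd, Matrix.det_diagonal] at h1
    have h2 : ∏ b, (fun b => X b b) b = 0 := Finset.prod_eq_zero (Finset.mem_univ b) hb
    exact h1 (by rw [h2, mul_zero])
  · rw [← hXd, hVX]

/-- compatibility with ring homomorphisms -/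
theorem Wm_map {R S : Type} [CommRing R] [CommRing S] (f : R →+* S)
    (M : Matrix (Fin (n + 1)) (Fin (n + 1)) R) : Wm (M.map f) = (Wm M).map f := by
  ext a b
  rw [Matrix.map_apply]
  unfold Wm
  have h := Polynomial.map_aeval_eq_aeval_map (S := Matrix (Fin (n + 1)) (Fin (n + 1)) R)
    (U := Matrix (Fin (n + 1)) (Fin (n + 1)) S) (φ := f) (ψ := f.mapMatrix) (by
      ext r i j
      simp only [RingHom.comp_apply, Matrix.algebraMap_matrix_apply, RingHom.mapMatrix_apply,
        Matrix.map_apply, Algebra.algebraMap_self, RingHom.id_apply]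
      split_ifs <;> simp)
    (∏ c ∈ Finset.Iio b, (Polynomial.X - Polynomial.C (M c c))) M
  have h2 : (∏ c ∈ Finset.Iio b, (Polynomial.X - Polynomial.C (M c c))).map f =
      ∏ c ∈ Finset.Iio b, (Polynomial.X - Polynomial.C ((M.map f) c c)) := by
    rw [Polynomial.map_prod]
    refine Finset.prod_congr rfl fun c _ => ?_
    simp
  rw [h2] at h
  have h' := congrFun (congrFun h a) b
  rw [RingHom.mapMatrix_apply, Matrix.map_apply] at h'
  exact h'.symm

end Pool.Agent.CSM.GL
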