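import Pool.Agent.CSM.GL.Setup
import Pool.Agent.CSM.GL.Wmat
import Pool.Agent.CSM.GL.Minor

/-! # Module GE: properties of the sets `En v u` and of the lines `Lfn i v u` -/

open Matrix MvPolynomial

noncomputable section

namespace Pool.Agent.CSM.GL

variable {n : ℕ} {k : Type} [Field k]

/-! ### lattice facts -/

/-- additive functional to `ℤ` and a unit give a character -/
def ge_char (f : Ln n →+ ℤ) (u : kˣ) : Multiplicative (Ln n) →* kˣ where
  toFun x := u ^ (f x.toAdd)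
  map_one' := by simp
  map_mul' x y := by
    change u ^ (f (x.toAdd + y.toAdd)) = _
    rw [map_add, _root_.zpow_add]

theorem ge_two_zpow [CharZero k] (m : ℤ) (hm : m ≠ 0) : (Units.mk0 (2 : k) two_ne_zero) ^ m ≠ 1 := by
  intro h
  have h1 : ((Units.mk0 (2 : k) two_ne_zero) ^ m : kˣ).val = (1 : kˣ).val := by rw [h]
  rw [Units.val_zpow_eq_zpow_val, Units.val_mk0, Units.val_one] at h1
  rcases Int.eq_nat_or_neg m with ⟨r, hr | hr⟩
  · subst hr
    rw [zpow_natCast] at h1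
    have h2 : ((2 ^ r : ℕ) : k) = ((1 : ℕ) : k) := by push_cast; exact h1
    have h3 := Nat.cast_injective h2
    have : r = 0 := by
      by_contra hr0
      have := Nat.one_lt_two_pow hr0
      omega
    exact hm (by simp [this])
  · subst hr
    rw [_root_.zpow_neg, zpow_natCast, inv_eq_one] at h1
    have h2 : ((2 ^ r : ℕ) : k) = ((1 : ℕ) : k) := by push_cast; exact h1
    have h3 := Nat.cast_injective h2
    have : r = 0 := by
      by_contra hr0
      have := Nat.one_lt_two_pow hr0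
      omega
    exact hm (by simp [this])

theorem sep_Ln [CharZero k] : Sep k (Ln n) := by
  intro a ha
  have key : ∃ f : Ln n →+ ℤ, f a ≠ 0 := by
    by_contra hcon
    push Not at hcon
    apply ha
    refine Prod.ext ?_ (Prod.ext ?_ ?_)
    · funext j
      exact hcon ((Pi.evalAddMonoidHom (fun _ : Fin (n + 1) => ℤ) j).comp
        (AddMonoidHom.fst (Fin (n + 1) → ℤ) (ℤ × ℤ)))
    · exact hcon ((AddMonoidHom.fst ℤ ℤ).comp (AddMonoidHom.snd (Fin (n + 1) → ℤ) (ℤ × ℤ)))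
    · exact hcon ((AddMonoidHom.snd ℤ ℤ).comp (AddMonoidHom.snd (Fin (n + 1) → ℤ) (ℤ × ℤ)))
  obtain ⟨f, hf⟩ := key
  exact ⟨ge_char f (Units.mk0 (2 : k) two_ne_zero), ge_two_zpow _ hf⟩

theorem pos0_Ln : ∃ τ : Ln n →+ ℝ, Pos (wt (n := n)) τ := by
  refine ⟨(Int.castAddHom ℝ).comp ((AddMonoidHom.fst ℤ ℤ).comp
    (AddMonoidHom.snd (Fin (n + 1) → ℤ) (ℤ × ℤ))), fun s => ?_⟩
  simp [wt]

/-- the degree functional -/
def degn (n : ℕ) : Ln n →+ ℤ where
  toFun x := x.2.1 + x.2.2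
  map_zero' := by simp
  map_add' x y := by simp; ring

/-! ### auxiliary facts on matrices -/

theorem ge_UT_diag (t : Fin (n + 1) → k) : UT (Matrix.diagonal t) := by
  intro a b hab
  exact Matrix.diagonal_apply_ne _ hab.ne'

theorem ge_LT_diag (t : Fin (n + 1) → k) : LT (Matrix.diagonal t) := by
  intro a b hab
  exact Matrix.diagonal_apply_ne _ hab.ne

theorem ge_det_diag (t : Fin (n + 1) → k) (ht : ∀ a, t a ≠ 0) :
    (Matrix.diagonal t).det ≠ 0 := by
  rw [Matrix.det_diagonal]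
  exact Finset.prod_ne_zero_iff.2 fun a _ => ht a

theorem ge_diag_PM (u : Wn n) (D : Fin (n + 1) → k) :
    Matrix.diagonal D * PM k u = PM k u * Matrix.diagonal (fun b => D (u b)) := by
  ext a b
  rw [Matrix.diagonal_mul, Matrix.mul_diagonal, PM]
  split_ifs with h
  · rw [h]; ring
  · ring

theorem ge_toM_act (i : Fin n) (g : Matrix.SpecialLinearGroup (Fin 2) k) (p : Sg n → k) :
    toM ((actn k i).ρ g p) = emb i (g : Matrix (Fin 2) (Fin 2) k) * toM p *
      emb i ((g⁻¹ : Matrix.SpecialLinearGroup (Fin 2) k) : Matrix (Fin 2) (Fin 2) k) := rfl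

theorem ge_emb_inv (i : Fin n) (g : Matrix.SpecialLinearGroup (Fin 2) k) :
    emb i ((g⁻¹ : Matrix.SpecialLinearGroup (Fin 2) k) : Matrix (Fin 2) (Fin 2) k)
      = (emb i (g : Matrix (Fin 2) (Fin 2) k))⁻¹ := by
  symm
  apply Matrix.inv_eq_right_inv
  rw [← emb_mul, ← Matrix.SpecialLinearGroup.coe_mul, mul_inv_cancel,
    Matrix.SpecialLinearGroup.coe_one, emb_one]

theorem ge_i_ne (i : Fin n) : i.castSucc ≠ i.succ := Fin.castSucc_lt_succ.ne

/-- `emb i (xx t)` is upper unitriangular -/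
theorem ge_emb_xx (i : Fin n) (t : k) :
    UU (emb i ((xx t : Matrix.SpecialLinearGroup (Fin 2) k) : Matrix (Fin 2) (Fin 2) k)) := by
  constructor
  · intro a b hab
    simp only [emb, xx]
    split_ifs with h1 h2 h3 h4 h5 h6
    · subst h1; exact absurd h2 (by rw [h2] at hab; exact absurd hab (lt_irrefl _))
    · subst h1; subst h3; exact absurd hab (by
        rw [Fin.lt_def]; simp)
    · rfl
    · simp
    · subst h4; subst h6; exact absurd hab (lt_irrefl _)
    · rfl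
    · subst_vars; exact absurd hab (lt_irrefl _)
    · rfl
  · intro a
    simp only [emb, xx]
    split_ifs with h1 h2
    · simp
    · simp
    · rfl

/-- `emb i (dd c)` is diagonal -/
def ge_dt (i : Fin n) (c : kˣ) : Fin (n + 1) → k :=
  fun a => if a = i.castSucc then (c : k) else if a = i.succ then ((c⁻¹ : kˣ) : k) else 1

theorem ge_dt_ne (i : Fin n) (c : kˣ) (a : Fin (n + 1)) : ge_dt i c a ≠ 0 := by
  unfold ge_dt
  split_ifs
  · exact Units.ne_zero _
  · exact Units.ne_zero _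
  · exact one_ne_zero

theorem ge_emb_dd (i : Fin n) (c : kˣ) :
    emb i ((dd c : Matrix.SpecialLinearGroup (Fin 2) k) : Matrix (Fin 2) (Fin 2) k)
      = Matrix.diagonal (ge_dt i c) := by
  ext a b
  simp only [emb, dd, ge_dt, Matrix.diagonal_apply]
  have hi := ge_i_ne i
  by_cases h1 : a = i.castSucc
  · subst h1
    by_cases h2 : b = i.castSucc
    · subst h2; simp
    · simp only [if_true, if_neg h2]
      rw [if_neg (Ne.symm h2)]
      simp
  · by_cases h2 : a = i.succ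
    · subst h2
      by_cases h3 : b = i.succ
      · subst h3; simp [h1]
      · rw [if_neg h1, if_pos rfl, if_neg (Ne.symm h3), if_neg h3]
        simp
    · rw [if_neg h1, if_neg h2]
      by_cases h3 : a = b
      · subst h3; simp [h1, h2]
      · simp [h3]

theorem ge_dd_inv (c : kˣ) :
    (dd c : Matrix.SpecialLinearGroup (Fin 2) k)⁻¹ = dd c⁻¹ := by
  ext i j
  rw [Matrix.SpecialLinearGroup.coe_inv, Matrix.adjugate_fin_two]
  fin_cases i <;> fin_cases j <;> simp [dd]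

theorem ge_conj_diag (M : Mx n k) (t t' : Fin (n + 1) → k) :
    Matrix.diagonal t * M * Matrix.diagonal t' = Matrix.of fun a b => t a * M a b * t' b := by
  ext a b
  rw [Matrix.mul_diagonal, Matrix.diagonal_mul, Matrix.of_apply]

theorem ge_toM_dd (i : Fin n) (c : kˣ) (p : Sg n → k) :
    toM ((actn k i).ρ (dd c) p)
      = Matrix.of fun a b => ge_dt i c a * toM p a b * (ge_dt i c b)⁻¹ := by
  rw [ge_toM_act, ge_dd_inv, ge_emb_dd, ge_emb_dd, ge_conj_diag]
  ext a b
  rw [Matrix.of_apply, Matrix.of_apply]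
  congr 1
  simp only [ge_dt]
  split_ifs <;> simp

/-- the eigenvector matrix after a torus element of `SL₂` -/
theorem ge_Wm_dd (i : Fin n) (c : kˣ) (p : Sg n → k) (u : Wn n) :
    Wm (toM ((actn k i).ρ (dd c) p)) * PM k u
      = emb i ((dd c : Matrix.SpecialLinearGroup (Fin 2) k) : Matrix (Fin 2) (Fin 2) k)
        * (Wm (toM p) * PM k u) * Matrix.diagonal (fun b => (ge_dt i c (u b))⁻¹) := by
  rw [ge_toM_dd, Wm_conj_diag _ _ (ge_dt_ne i c), ge_emb_dd, Matrix.mul_assoc, ge_diag_PM]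
  simp only [Matrix.mul_assoc]

/-- torus data of a character -/
def ge_t (χ : Multiplicative (Ln n) →* kˣ) (a : Fin (n + 1)) : k :=
  (χ (Multiplicative.ofAdd ((Pi.single a 1, 0, 0) : Ln n)) : k)

theorem ge_t_ne (χ : Multiplicative (Ln n) →* kˣ) (a : Fin (n + 1)) : ge_t χ a ≠ 0 :=
  Units.ne_zero _

def ge_z (χ : Multiplicative (Ln n) →* kˣ) : k := (χ (Multiplicative.ofAdd (hbn : Ln n)) : k)

theorem ge_z_ne (χ : Multiplicative (Ln n) →* kˣ) : ge_z χ ≠ 0 := Units.ne_zero _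

theorem ge_chi_wt (χ : Multiplicative (Ln n) →* kˣ) (a b : Fin (n + 1)) :
    (χ (Multiplicative.ofAdd (wt ((a, b) : Sg n))) : k) = ge_z χ * (ge_t χ a * (ge_t χ b)⁻¹) := by
  have h : (wt ((a, b) : Sg n) : Ln n) = hbn + ((Pi.single a 1, 0, 0) : Ln n)
      + -((Pi.single b 1, 0, 0) : Ln n) := by
    refine Prod.ext ?_ (Prod.ext ?_ ?_)
    · simp [wt, hbn, sub_eq_add_neg]
    · simp [wt, hbn]
    · simp [wt, hbn]
  rw [h, ofAdd_add, ofAdd_add, ofAdd_neg, map_mul, map_mul, map_inv]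
  simp only [Units.val_mul, Units.val_inv_eq_inv_val, ge_z, ge_t]
  ring

theorem ge_toM_tact (χ : Multiplicative (Ln n) →* kˣ) (p : Sg n → k) :
    toM (tact (wt (n := n)) χ p) = ge_z χ •
      (Matrix.of fun a b => ge_t χ a * toM p a b * (ge_t χ b)⁻¹ : Mx n k) := by
  ext a b
  rw [Matrix.smul_apply, Matrix.of_apply, smul_eq_mul]
  change (χ (Multiplicative.ofAdd (wt ((a, b) : Sg n))) : k) * p (a, b) = _
  rw [ge_chi_wt]
  change _ = ge_z χ * (ge_t χ a * p (a, b) * (ge_t χ b)⁻¹)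
  ring

theorem ge_Wm_tact (χ : Multiplicative (Ln n) →* kˣ) (p : Sg n → k) (u : Wn n) :
    Wm (toM (tact (wt (n := n)) χ p)) * PM k u
      = Matrix.diagonal (ge_t χ) * (Wm (toM p) * PM k u)
        * Matrix.diagonal (fun b => (ge_t χ (u b))⁻¹ * ge_z χ ^ ((u b : Fin (n + 1)) : ℕ)) := by
  rw [ge_toM_tact, Wm_smul, Wm_conj_diag _ _ (ge_t_ne χ), Matrix.mul_assoc _ _ (PM k u),
    ge_diag_PM, ← Matrix.mul_assoc, Matrix.mul_assoc _ _ (PM k u), ge_diag_PM]
  simp only [Matrix.mul_assoc, Matrix.diagonal_mul_diagonal]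

theorem ge_det_emb (i : Fin n) (g : Matrix.SpecialLinearGroup (Fin 2) k) :
    (emb i (g : Matrix (Fin 2) (Fin 2) k)).det ≠ 0 := by
  rw [emb_det, g.det_coe]; exact one_ne_zero

theorem ge_sw_sw (i : Fin n) (v : Wn n) : sw i * (sw i * v) = v := by
  rw [← mul_assoc]; simp [sw]

/-- both cells together are stable under `L_i` from the left -/
theorem ge_InC_emb (i : Fin n) (v : Wn n) {g : Mx n k} (h : InC v g ∨ InC (sw i * v) g)
    (l : Matrix (Fin 2) (Fin 2) k) (hl : l.det ≠ 0) :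
    InC v (emb i l * g) ∨ InC (sw i * v) (emb i l * g) := by
  rcases h with h | h
  · exact InC.emb_left h i l hl
  · have := InC.emb_left h i l hl
    rw [ge_sw_sw] at this
    exact this.symm

theorem ge_mem_union (v v' u : Wn n) (p : Sg n → k) :
    p ∈ En k v u ∪ En k v' u ↔ UT (toM p) ∧ (∀ a b, a ≠ b → p (a, a) ≠ p (b, b)) ∧
      (InC v (Wm (toM p) * PM k u) ∨ InC v' (Wm (toM p) * PM k u)) := by
  simp only [En, Set.mem_union, Set.mem_ofPred_eq]
  tauto

/-! ### the sets -/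

theorem En_T (v u : Wn n) : TStable (wt (n := n)) (En k v u) := by
  intro χ p hp
  obtain ⟨h1, h2, h3⟩ := hp
  refine ⟨?_, ?_, ?_⟩
  · intro a b hab
    change (χ (Multiplicative.ofAdd (wt ((a, b) : Sg n))) : k) * p (a, b) = 0
    have : p (a, b) = 0 := h1 a b hab
    rw [this, mul_zero]
  · intro a b hab
    change (χ (Multiplicative.ofAdd (wt ((a, a) : Sg n))) : k) * p (a, a) ≠
      (χ (Multiplicative.ofAdd (wt ((b, b) : Sg n))) : k) * p (b, b)
    have haa : (wt ((a, a) : Sg n) : Ln n) = wt ((b, b) : Sg n) := by simp [wt]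
    rw [haa]
    intro h
    exact h2 a b hab (mul_left_cancel₀ (Units.ne_zero _) h)
  · rw [ge_Wm_tact]
    refine InC.right (InC.left h3 (ge_LT_diag _) (ge_det_diag _ (ge_t_ne χ))) (ge_UT_diag _)
      (ge_det_diag _ fun b => mul_ne_zero (inv_ne_zero (ge_t_ne χ _)) (pow_ne_zero _ (ge_z_ne χ)))

theorem En_A (v u : Wn n) (p : Sg n → k) (hp : p ∈ En k v u) (j : Sg n) (hj : j ∉ An n) :
    p j = 0 := by
  obtain ⟨a, b⟩ := j
  have hab : b < a := by
    simpa [An] using hj
  exact hp.1 a b hab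

theorem En_h (v u : Wn n) (p : Sg n → k) (hp : p ∈ En k v u) (i : Fin n) :
    eval p (actn k i).h ≠ 0 := by
  change eval p (X (i.castSucc, i.castSucc) - X (i.succ, i.succ)) ≠ 0
  rw [map_sub, eval_X, eval_X, sub_ne_zero]
  exact hp.2.1 _ _ (ge_i_ne i)

theorem ge_PM_one_mul (g : Mx n k) : g * PM k (1 : Wn n) = g := by
  rw [PM_one, Matrix.mul_one]

theorem ge_mem_one {p : Sg n → k} (h1 : UT (toM p)) (h2 : ∀ a b, a ≠ b → p (a, a) ≠ p (b, b)) :
    p ∈ En k (1 : Wn n) 1 := by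
  refine ⟨h1, h2, ?_⟩
  rw [ge_PM_one_mul]
  exact InC_one (Wm_UT h1) (Wm_det_ne h1 h2)

theorem En_one [CharZero k] : vI (En k (1 : Wn n) 1) =
    Ideal.span {p | ∃ j ∉ An n, p = (X j : MvPolynomial (Sg n) k)} := by
  classical
  apply le_antisymm
  · intro f hf
    set J : Ideal (MvPolynomial (Sg n) k) :=
      Ideal.span {p | ∃ j ∉ An n, p = (X j : MvPolynomial (Sg n) k)} with hJ
    let φ : MvPolynomial (Sg n) k →ₐ[k] MvPolynomial (Sg n) k :=
      aeval fun j => if j ∈ An n then X j else 0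
    have hφ : ∀ g : MvPolynomial (Sg n) k, g - φ g ∈ J := by
      intro g
      rw [← Ideal.Quotient.mk_eq_mk_iff_sub_mem]
      have : ((Ideal.Quotient.mkₐ k J).comp φ) = Ideal.Quotient.mkₐ k J := by
        apply MvPolynomial.algHom_ext
        intro j
        simp only [AlgHom.comp_apply, φ, aeval_X]
        split_ifs with hj
        · rfl
        · rw [map_zero]
          symm
          change Ideal.Quotient.mk J (X j) = 0
          rw [Ideal.Quotient.eq_zero_iff_mem]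
          exact Ideal.subset_span ⟨j, hj, rfl⟩
      exact (DFunLike.congr_fun this g).symm
    let Δ : MvPolynomial (Sg n) k := ∏ q ∈ Finset.univ.filter
      (fun q : Fin (n + 1) × Fin (n + 1) => q.1 ≠ q.2), (X (q.1, q.1) - X (q.2, q.2))
    have hΔ : Δ ≠ 0 := by
      refine Finset.prod_ne_zero_iff.2 fun q hq => ?_
      rw [sub_ne_zero]
      intro h
      have h' := X_injective h
      simp only [Finset.mem_filter, Finset.mem_univ, true_and] at hq
      exact hq (Prod.mk.inj h').1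
    have hprod : φ f * Δ = 0 := by
      apply MvPolynomial.funext
      intro p
      rw [map_mul, map_zero]
      by_cases hp : eval p Δ = 0
      · rw [hp, mul_zero]
      · have hd : ∀ a b, a ≠ b → p (a, a) ≠ p (b, b) := by
          intro a b hab h
          apply hp
          change eval p (∏ q ∈ Finset.univ.filter
            (fun q : Fin (n + 1) × Fin (n + 1) => q.1 ≠ q.2), (X (q.1, q.1) - X (q.2, q.2))) = 0
          rw [map_prod]
          refine Finset.prod_eq_zero (i := (a, b))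
            (Finset.mem_filter.2 ⟨Finset.mem_univ _, hab⟩) ?_
          rw [map_sub, eval_X, eval_X, h, sub_self]
        let p' : Sg n → k := fun j => if j ∈ An n then p j else 0
        have hp' : p' ∈ En k (1 : Wn n) 1 := by
          apply ge_mem_one
          · intro a b hab
            change p' (a, b) = 0
            simp only [p']
            rw [if_neg]
            simp [An, hab]
          · intro a b hab
            have ha : p' (a, a) = p (a, a) := by simp [p', An]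
            have hb : p' (b, b) = p (b, b) := by simp [p', An]
            rw [ha, hb]
            exact hd a b hab
        have h1 : eval p (φ f) = eval p' f := by
          have : ((aeval p : MvPolynomial (Sg n) k →ₐ[k] k).comp φ) = aeval p' := by
            apply MvPolynomial.algHom_ext
            intro j
            simp only [AlgHom.comp_apply, φ, aeval_X, p']
            split_ifs <;> simp
          exact DFunLike.congr_fun this f
        rw [h1, hf p' hp', zero_mul]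
    have h0 : φ f = 0 := (mul_eq_zero.1 hprod).resolve_right hΔ
    have := hφ f
    rwa [h0, sub_zero] at this
  · rw [Ideal.span_le]
    rintro p ⟨j, hj, rfl⟩ x hx
    rw [eval_X]
    exact En_A _ _ x hx j hj

theorem En_one' (v : Wn n) (hv : v ≠ 1) : En k v 1 = ∅ := by
  rw [Set.eq_empty_iff_forall_notMem]
  intro p hp
  obtain ⟨h1, h2, h3⟩ := hp
  have h4 := (ge_mem_one h1 h2).2.2
  exact hv (InC.unique h3 h4)

theorem Eh_x (i : Fin n) (v u : Wn n) (h : asc i v) (p : Sg n → k)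
    (hp : p ∈ En k v u ∪ En k (sw i * v) u) (t : k) :
    (actn k i).ρ (xx t) p ∈ En k v u ∪ En k (sw i * v) u := by
  rw [ge_mem_union] at hp ⊢
  obtain ⟨h1, h2, h3⟩ := hp
  have hU := ge_emb_xx (k := k) i t
  have hUi := UU.inv hU
  have hM : toM ((actn k i).ρ (xx t) p)
      = emb i ((xx t : Matrix.SpecialLinearGroup (Fin 2) k) : Matrix (Fin 2) (Fin 2) k) * toM p *
        (emb i ((xx t : Matrix.SpecialLinearGroup (Fin 2) k) : Matrix (Fin 2) (Fin 2) k))⁻¹ := by
    rw [ge_toM_act, ge_emb_inv]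
  refine ⟨?_, ?_, ?_⟩
  · rw [hM]
    exact UT.mul (UT.mul hU.1 h1) hUi.1
  · have hdiag : ∀ a, (actn k i).ρ (xx t) p (a, a) = p (a, a) := by
      intro a
      have h4 : toM ((actn k i).ρ (xx t) p) a a = toM p a a := by
        rw [hM, UT.mul_diag (UT.mul hU.1 h1) hUi.1, UT.mul_diag hU.1 h1, hU.2, hUi.2, one_mul,
          mul_one]
      exact h4
    intro a b hab
    rw [hdiag, hdiag]
    exact h2 a b hab
  · rw [hM, Wm_conj_UU h1 hU, Matrix.mul_assoc]
    exact ge_InC_emb i v h3 _ (by rw [Matrix.SpecialLinearGroup.det_coe]; exact one_ne_zero)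

theorem Eh_d (i : Fin n) (v u : Wn n) (h : asc i v) (p : Sg n → k)
    (hp : p ∈ En k v u ∪ En k (sw i * v) u) (c : kˣ) :
    (actn k i).ρ (dd c) p ∈ En k v u ∪ En k (sw i * v) u := by
  rw [ge_mem_union] at hp ⊢
  obtain ⟨h1, h2, h3⟩ := hp
  have hM := ge_toM_dd (k := k) i c p
  have hent : ∀ a b, (actn k i).ρ (dd c) p (a, b)
      = ge_dt i c a * p (a, b) * (ge_dt i c b)⁻¹ := by
    intro a b
    exact congrFun (congrFun hM a) b
  refine ⟨?_, ?_, ?_⟩
  · intro a b hab
    change (actn k i).ρ (dd c) p (a, b) = 0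
    have h4 : p (a, b) = 0 := h1 a b hab
    rw [hent, h4, mul_zero, zero_mul]
  · have hdiag : ∀ a, (actn k i).ρ (dd c) p (a, a) = p (a, a) := by
      intro a
      rw [hent, mul_comm (ge_dt i c a), mul_assoc, mul_inv_cancel₀ (ge_dt_ne i c a), mul_one]
    intro a b hab
    rw [hdiag, hdiag]
    exact h2 a b hab
  · rw [ge_Wm_dd]
    rcases ge_InC_emb i v h3 ((dd c : Matrix.SpecialLinearGroup (Fin 2) k) :
      Matrix (Fin 2) (Fin 2) k) (by rw [Matrix.SpecialLinearGroup.det_coe]; exact one_ne_zero)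
      with h4 | h4
    · exact Or.inl (InC.right h4 (ge_UT_diag _)
        (ge_det_diag _ fun b => inv_ne_zero (ge_dt_ne i c _)))
    · exact Or.inr (InC.right h4 (ge_UT_diag _)
        (ge_det_diag _ fun b => inv_ne_zero (ge_dt_ne i c _)))

theorem ge_ss_coe : ((ss : Matrix.SpecialLinearGroup (Fin 2) k) : Matrix (Fin 2) (Fin 2) k)
    = !![0, 1; -1, 0] := rfl

theorem ge_ss_inv_coe : ((ss⁻¹ : Matrix.SpecialLinearGroup (Fin 2) k) : Matrix (Fin 2) (Fin 2) k)
    = !![0, -1; 1, 0] := by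
  rw [Matrix.SpecialLinearGroup.coe_inv, Matrix.adjugate_fin_two]
  ext a b
  fin_cases a <;> fin_cases b <;> simp [ss]

/-- the eigenvector matrix after the Weyl element -/
theorem ge_Wm_ss (i : Fin n) (p : Sg n → k) (u : Wn n) (h1 : UT (toM p))
    (h2 : ∀ a b, a ≠ b → p (a, a) ≠ p (b, b)) (he : p (actn k i).ei = 0) :
    ∃ D : Fin (n + 1) → k, (∀ b, D b ≠ 0) ∧
    Wm (toM ((actn k i).ρ ss p)) * PM k (sw i * u)
      = emb i ((ss : Matrix.SpecialLinearGroup (Fin 2) k) : Matrix (Fin 2) (Fin 2) k)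
        * (Wm (toM p) * PM k u) * Matrix.diagonal D := by
  obtain ⟨D, hD, hW⟩ := Wm_conj_ss h1 h2 i he
  refine ⟨fun b => D ((sw i * u) b), fun b => hD _, ?_⟩
  rw [ge_toM_act, ge_ss_coe, ge_ss_inv_coe, hW, Matrix.mul_assoc _ _ (PM k (sw i * u)),
    ge_diag_PM, ← Matrix.mul_assoc, Matrix.mul_assoc _ (PM k (sw i)) (PM k (sw i * u)), PM_mul,
    ge_sw_sw, Matrix.mul_assoc _ (Wm (toM p)) (PM k u)]

theorem ge_sw_lt (i : Fin n) {a b : Fin (n + 1)} (hab : b < a)
    (hne : ¬ (a = i.succ ∧ b = i.castSucc)) : sw i b < sw i a := by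
  have hi : (i : ℕ) < n := i.isLt
  have hval : ∀ c : Fin (n + 1), ((sw i c : Fin (n + 1)) : ℕ) =
      if (c : ℕ) = i then (i : ℕ) + 1 else if (c : ℕ) = i + 1 then (i : ℕ) else c := by
    intro c
    unfold sw
    rw [Equiv.swap_apply_def]
    split_ifs with h1 h2 h3 h4 h5 <;> simp_all [Fin.ext_iff]
  rw [Fin.lt_def] at hab ⊢
  rw [hval, hval]
  rw [Fin.ext_iff, Fin.ext_iff, Fin.val_succ, Fin.val_castSucc] at hne
  split_ifs <;> omega

theorem Eh_s (i : Fin n) (v u : Wn n) (h : asc i v) (p : Sg n → k)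
    (hp : p ∈ En k v u ∪ En k (sw i * v) u) (he : p (actn k i).ei = 0) :
    (actn k i).ρ ss p ∈ En k v (sw i * u) ∪ En k (sw i * v) (sw i * u) := by
  rw [ge_mem_union] at hp ⊢
  obtain ⟨h1, h2, h3⟩ := hp
  have hent : ∀ a b, (actn k i).ρ ss p (a, b)
      = ((eta k i a * eta k i b : kˣ) : k) * p (sw i a, sw i b) := by
    intro a b
    exact (actn k i).rho_s p (a, b)
  refine ⟨?_, ?_, ?_⟩
  · intro a b hab
    change (actn k i).ρ ss p (a, b) = 0
    rw [hent]
    by_cases hne : a = i.succ ∧ b = i.castSucc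
    · obtain ⟨rfl, rfl⟩ := hne
      have : p (sw i i.succ, sw i i.castSucc) = 0 := by
        have h4 : (sw i i.succ, sw i i.castSucc) = (i.castSucc, i.succ) := by simp [sw]
        rw [h4]; exact he
      rw [this, mul_zero]
    · have : p (sw i a, sw i b) = 0 := h1 _ _ (ge_sw_lt i hab hne)
      rw [this, mul_zero]
  · have hdiag : ∀ a, (actn k i).ρ ss p (a, a) = p (sw i a, sw i a) := by
      intro a
      rw [hent]
      have : (eta k i a * eta k i a : kˣ) = 1 := by
        unfold eta; split_ifs <;> simp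
      rw [this, Units.val_one, one_mul]
    intro a b hab
    rw [hdiag, hdiag]
    exact h2 _ _ ((sw i).injective.ne hab)
  · obtain ⟨D, hD, hW⟩ := ge_Wm_ss i p u h1 h2 he
    rw [hW]
    rcases ge_InC_emb i v h3 ((ss : Matrix.SpecialLinearGroup (Fin 2) k) :
      Matrix (Fin 2) (Fin 2) k) (by rw [Matrix.SpecialLinearGroup.det_coe]; exact one_ne_zero)
      with h4 | h4
    · exact Or.inl (InC.right h4 (ge_UT_diag _) (ge_det_diag _ hD))
    · exact Or.inr (InC.right h4 (ge_UT_diag _) (ge_det_diag _ hD))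

/-! ### the lines -/

theorem L_zero' (i : Fin n) (v u : Wn n) (h : asc i v) (p : Sg n → k)
    (hp : p ∈ En k v u) : Lfn i v u p 0 ≠ 0 := mnr_ra_ne h hp.2.2

theorem L_ne (i : Fin n) (v u : Wn n) (h : asc i v) (p : Sg n → k)
    (hp : p ∈ En k v u ∪ En k (sw i * v) u) : Lfn i v u p ≠ 0 := by
  intro h0
  rcases hp with hp | hp
  · exact L_zero' i v u h p hp (congrFun h0 0)
  · exact mnr_rb_ne h hp.2.2 (congrFun h0 1)

theorem L_zero (i : Fin n) (v u : Wn n) (h : asc i v) (p : Sg n → k)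
    (hp : p ∈ En k v u ∪ En k (sw i * v) u) :
    (Lfn i v u p 0 = 0 ↔ p ∈ En k (sw i * v) u) := by
  constructor
  · intro h0
    rcases hp with hp | hp
    · exact absurd h0 (L_zero' i v u h p hp)
    · exact hp
  · intro h0
    exact mnr_ra_zero h h0.2.2

theorem L_x (i : Fin n) (v u : Wn n) (h : asc i v) (p : Sg n → k)
    (hp : p ∈ En k v u ∪ En k (sw i * v) u) (t : k) : ∃ c : k, c ≠ 0 ∧
    Lfn i v u ((actn k i).ρ (xx t) p) = c • ![Lfn i v u p 0 + t * Lfn i v u p 1, Lfn i v u p 1] := by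
  rw [ge_mem_union] at hp
  obtain ⟨h1, h2, h3⟩ := hp
  have hU := ge_emb_xx (k := k) i t
  have hM : toM ((actn k i).ρ (xx t) p)
      = emb i ((xx t : Matrix.SpecialLinearGroup (Fin 2) k) : Matrix (Fin 2) (Fin 2) k) * toM p *
        (emb i ((xx t : Matrix.SpecialLinearGroup (Fin 2) k) : Matrix (Fin 2) (Fin 2) k))⁻¹ := by
    rw [ge_toM_act, ge_emb_inv]
  refine ⟨1, one_ne_zero, ?_⟩
  rw [one_smul]
  have hW : Wm (toM ((actn k i).ρ (xx t) p)) * PM k u
      = emb i ((xx t : Matrix.SpecialLinearGroup (Fin 2) k) : Matrix (Fin 2) (Fin 2) k)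
        * (Wm (toM p) * PM k u) := by
    rw [hM, Wm_conj_UU h1 hU, Matrix.mul_assoc]
  unfold Lfn
  rw [hW, mnr_ra_emb h, mnr_rb_emb h]
  simp [xx]

theorem ge_prod_ne {m : ℕ} (hm : m ≤ n + 1) (D : Fin (n + 1) → k) (hD : ∀ b, D b ≠ 0) :
    ∏ j : Fin m, (Matrix.diagonal D) (Fin.castLE hm j) (Fin.castLE hm j) ≠ 0 := by
  refine Finset.prod_ne_zero_iff.2 fun j _ => ?_
  rw [Matrix.diagonal_apply_eq]
  exact hD _

theorem L_d (i : Fin n) (v u : Wn n) (h : asc i v) (p : Sg n → k)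
    (hp : p ∈ En k v u ∪ En k (sw i * v) u) (a : kˣ) : ∃ c : k, c ≠ 0 ∧
    Lfn i v u ((actn k i).ρ (dd a) p)
      = c • ![(a : k) * Lfn i v u p 0, ((a⁻¹ : kˣ) : k) * Lfn i v u p 1] := by
  refine ⟨_, ge_prod_ne (mv_le i v) (fun b => (ge_dt i a (u b))⁻¹)
    (fun b => inv_ne_zero (ge_dt_ne i a _)), ?_⟩
  unfold Lfn
  rw [ge_Wm_dd, mnr_right _ _ _ (ge_UT_diag _), mnr_right _ _ _ (ge_UT_diag _), mnr_ra_emb h,
    mnr_rb_emb h]
  ext j
  fin_cases j
  · simp [dd]; ring
  · simp [dd]; ring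

theorem L_s (i : Fin n) (v u : Wn n) (h : asc i v) (p : Sg n → k)
    (hp : p ∈ En k v u ∪ En k (sw i * v) u) (he : p (actn k i).ei = 0) : ∃ c : k, c ≠ 0 ∧
    Lfn i v (sw i * u) ((actn k i).ρ ss p) = c • ![Lfn i v u p 1, - Lfn i v u p 0] := by
  rw [ge_mem_union] at hp
  obtain ⟨h1, h2, h3⟩ := hp
  obtain ⟨D, hD, hW⟩ := ge_Wm_ss i p u h1 h2 he
  refine ⟨_, ge_prod_ne (mv_le i v) D hD, ?_⟩
  unfold Lfn
  rw [hW, mnr_right _ _ _ (ge_UT_diag _), mnr_right _ _ _ (ge_UT_diag _), mnr_ra_emb h,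
    mnr_rb_emb h]
  ext j
  fin_cases j
  · simp [ss]; ring
  · simp [ss]; ring

theorem ge_mnr_diag {m : ℕ} (hm : m ≤ n + 1) (ρ : Fin m → Fin (n + 1)) (t : Fin (n + 1) → k)
    (g : Mx n k) : mnr hm ρ (Matrix.diagonal t * g) = (∏ j, t (ρ j)) * mnr hm ρ g := by
  unfold mnr
  have : (Matrix.diagonal t * g).submatrix ρ (Fin.castLE hm)
      = Matrix.of fun a b => t (ρ a) * (g.submatrix ρ (Fin.castLE hm)) a b := by
    ext a b
    rw [Matrix.submatrix_apply, Matrix.diagonal_mul, Matrix.of_apply, Matrix.submatrix_apply]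
  rw [this, Matrix.det_mul_column]

theorem ge_last (i : Fin n) (v : Wn n) : ∃ j₀ : Fin (mv i v),
    Fin.castLE (mv_le i v) j₀ = v⁻¹ i.castSucc :=
  ⟨⟨((v⁻¹ i.castSucc : Fin (n + 1)) : ℕ), by unfold mv; omega⟩, by ext; rfl⟩

theorem ge_ra_last (i : Fin n) (v : Wn n) (j₀ : Fin (mv i v))
    (hj : Fin.castLE (mv_le i v) j₀ = v⁻¹ i.castSucc) :
    ra i v j₀ = i.castSucc ∧ rb i v j₀ = i.succ := by
  unfold ra rb
  rw [hj]
  simp [sw]

theorem ge_rb_other (i : Fin n) (v : Wn n) (h : asc i v) (j₀ : Fin (mv i v))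
    (hj : Fin.castLE (mv_le i v) j₀ = v⁻¹ i.castSucc) (j : Fin (mv i v)) (hne : j ≠ j₀) :
    rb i v j = ra i v j := by
  unfold ra rb sw
  apply Equiv.swap_apply_of_ne_of_ne
  · intro h1
    apply hne
    have h2 : Fin.castLE (mv_le i v) j = v⁻¹ i.castSucc := by
      rw [← h1]; simp
    rw [← hj] at h2
    exact Fin.castLE_injective _ h2
  · intro h1
    have h2 : Fin.castLE (mv_le i v) j = v⁻¹ i.succ := by
      rw [← h1]; simp
    have h3 : ((Fin.castLE (mv_le i v) j : Fin (n + 1)) : ℕ) < mv i v := j.isLt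
    have h4 : v⁻¹ i.castSucc < v⁻¹ i.succ := h
    have h5 : v⁻¹ i.castSucc < Fin.castLE (mv_le i v) j := by rw [h2]; exact h4
    have h6 : ((v⁻¹ i.castSucc : Fin (n + 1)) : ℕ) < ((Fin.castLE (mv_le i v) j : Fin (n + 1)) : ℕ) :=
      h5
    have h7 : ((Fin.castLE (mv_le i v) j : Fin (n + 1)) : ℕ) <
        ((v⁻¹ i.castSucc : Fin (n + 1)) : ℕ) + 1 := h3
    exact absurd (Nat.lt_of_lt_of_le h6 (Nat.le_of_lt_succ h7)) (lt_irrefl _)

theorem L_T (i : Fin n) (v u : Wn n) (h : asc i v) (p : Sg n → k)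
    (hp : p ∈ En k v u ∪ En k (sw i * v) u) (χ : Multiplicative (Ln n) →* kˣ) :
    ∃ c : k, c ≠ 0 ∧ Lfn i v u (tact (wt (n := n)) χ p)
      = c • ![(χ (Multiplicative.ofAdd (wy1n i)) : k) * Lfn i v u p 0,
          (χ (Multiplicative.ofAdd (wy2n i)) : k) * Lfn i v u p 1] := by
  classical
  obtain ⟨j₀, hj₀⟩ := ge_last i v
  have hD : ∀ b, (fun b => (ge_t χ (u b))⁻¹ * ge_z χ ^ ((u b : Fin (n + 1)) : ℕ)) b ≠ 0 :=
    fun b => mul_ne_zero (inv_ne_zero (ge_t_ne χ _)) (pow_ne_zero _ (ge_z_ne χ))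
  let η : kˣ := χ (Multiplicative.ofAdd ((0, 0, 1) : Ln n))
  let c0 : k := ∏ j ∈ Finset.univ.erase j₀, ge_t χ (ra i v j)
  have hc0 : c0 ≠ 0 := Finset.prod_ne_zero_iff.2 fun j _ => ge_t_ne χ _
  have hra : ∏ j, ge_t χ (ra i v j) = c0 * ge_t χ i.castSucc := by
    rw [← Finset.prod_erase_mul _ _ (Finset.mem_univ j₀), (ge_ra_last i v j₀ hj₀).1]
  have hrb : ∏ j, ge_t χ (rb i v j) = c0 * ge_t χ i.succ := by
    rw [← Finset.prod_erase_mul _ _ (Finset.mem_univ j₀), (ge_ra_last i v j₀ hj₀).2]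
    congr 1
    refine Finset.prod_congr rfl fun j hj => ?_
    rw [ge_rb_other i v h j₀ hj₀ j (Finset.ne_of_mem_erase hj)]
  have hw1 : (χ (Multiplicative.ofAdd (wy1n i)) : k) = ge_t χ i.castSucc * η := by
    have : (wy1n i : Ln n) = ((Pi.single i.castSucc 1, 0, 0) : Ln n) + (0, 0, 1) := by
      simp [wy1n]
    rw [this, ofAdd_add, map_mul, Units.val_mul]
    rfl
  have hw2 : (χ (Multiplicative.ofAdd (wy2n i)) : k) = ge_t χ i.succ * η := by
    have : (wy2n i : Ln n) = ((Pi.single i.succ 1, 0, 0) : Ln n) + (0, 0, 1) := by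
      simp [wy2n]
    rw [this, ofAdd_add, map_mul, Units.val_mul]
    rfl
  refine ⟨c0 * (η : k)⁻¹ * _, mul_ne_zero (mul_ne_zero hc0 (inv_ne_zero (Units.ne_zero η)))
    (ge_prod_ne (mv_le i v) _ hD), ?_⟩
  unfold Lfn
  rw [ge_Wm_tact, mnr_right _ _ _ (ge_UT_diag _), mnr_right _ _ _ (ge_UT_diag _), ge_mnr_diag,
    ge_mnr_diag, hra, hrb, hw1, hw2]
  have hη : (η : k) ≠ 0 := Units.ne_zero η
  ext j
  fin_cases j
  · simp only [Fin.zero_eta, Matrix.cons_val_zero, Pi.smul_apply, smul_eq_mul]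
    field_simp
  · simp only [Fin.mk_one, Matrix.cons_val_one, Matrix.cons_val_fin_one, Pi.smul_apply,
      smul_eq_mul]
    field_simp

theorem ge_mnr_map {R S : Type} [CommRing R] [CommRing S] (f : R →+* S) {m : ℕ}
    (hm : m ≤ n + 1) (ρ : Fin m → Fin (n + 1)) (g : Mx n R) :
    mnr hm ρ (g.map f) = f (mnr hm ρ g) := by
  unfold mnr
  rw [RingHom.map_det]
  rfl

theorem ge_PM_map {R S : Type} [CommRing R] [CommRing S] (f : R →+* S) (v : Wn n) :
    (PM R v).map f = PM S v := by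
  ext a b
  simp only [PM, Matrix.map_apply]
  split_ifs <;> simp

theorem ge_gen_map (p : Sg n → k) : (gen k n).map (eval p) = toM p := by
  ext a b
  simp [gen, toM]

theorem ge_Wgen_map (p : Sg n → k) (u : Wn n) :
    (Wm (gen k n) * PM _ u).map (eval p) = Wm (toM p) * PM k u := by
  rw [Matrix.map_mul, ← Wm_map, ge_gen_map, ge_PM_map]

theorem eval_qn (i : Fin n) (v u : Wn n) (p : Sg n → k) :
    eval p (qn k i v u) = Lfn i v u p 0 := by
  change eval p (mnr (mv_le i v) (ra i v) (Wm (gen k n) * PM _ u))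
    = mnr (mv_le i v) (ra i v) (Wm (toM p) * PM k u)
  rw [← ge_mnr_map, ge_Wgen_map]

theorem eval_qn' (i : Fin n) (v u : Wn n) (p : Sg n → k) :
    eval p (qn' k i v u) = Lfn i v u p 1 := by
  change eval p (mnr (mv_le i v) (rb i v) (Wm (gen k n) * PM _ u))
    = mnr (mv_le i v) (rb i v) (Wm (toM p) * PM k u)
  rw [← ge_mnr_map, ge_Wgen_map]

/-! ### weights -/

/-- weight of the entry `(a, b)` of a product of `r` factors `M - c` -/
def ge_w (r : ℕ) (a b : Fin (n + 1)) : Ln n := (Pi.single a 1 - Pi.single b 1, (r : ℤ), 0)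

theorem ge_w_add (r s : ℕ) (a b c : Fin (n + 1)) :
    (ge_w r a b : Ln n) + ge_w s b c = ge_w (r + s) a c := by
  refine Prod.ext ?_ (Prod.ext ?_ ?_)
  · simp [ge_w]
  · simp [ge_w]
  · simp [ge_w]

theorem ge_hom_one (a b : Fin (n + 1)) : IsWeightedHomogeneous (wt (n := n))
    ((1 : Mx n (MvPolynomial (Sg n) k)) a b) (ge_w 0 a b) := by
  by_cases hab : a = b
  · subst hab
    rw [Matrix.one_apply_eq]
    have : (ge_w 0 a a : Ln n) = 0 := by simp [ge_w]
    rw [this]
    exact isWeightedHomogeneous_one k _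
  · rw [Matrix.one_apply_ne hab]
    exact isWeightedHomogeneous_zero k _ _

theorem ge_hom_mul {r s : ℕ} {A B : Mx n (MvPolynomial (Sg n) k)}
    (hA : ∀ a b, IsWeightedHomogeneous (wt (n := n)) (A a b) (ge_w r a b))
    (hB : ∀ a b, IsWeightedHomogeneous (wt (n := n)) (B a b) (ge_w s a b)) (a b : Fin (n + 1)) :
    IsWeightedHomogeneous (wt (n := n)) ((A * B) a b) (ge_w (r + s) a b) := by
  rw [Matrix.mul_apply]
  refine IsWeightedHomogeneous.sum _ _ _ fun c _ => ?_
  rw [← ge_w_add r s a c b]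
  exact (hA a c).mul (hB c b)

theorem ge_hom_fac (c a b : Fin (n + 1)) : IsWeightedHomogeneous (wt (n := n))
    ((Polynomial.aeval (gen k n) (Polynomial.X - Polynomial.C ((gen k n) c c)) :
      Mx n (MvPolynomial (Sg n) k)) a b) (ge_w 1 a b) := by
  rw [map_sub, Polynomial.aeval_X, Polynomial.aeval_C, Matrix.sub_apply,
    Matrix.algebraMap_matrix_apply]
  have hX : ∀ a b : Fin (n + 1), IsWeightedHomogeneous (wt (n := n))
      ((gen k n) a b) (ge_w 1 a b) := by
    intro a b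
    have := isWeightedHomogeneous_X k (wt (n := n)) ((a, b) : Sg n)
    have hw : (wt ((a, b) : Sg n) : Ln n) = ge_w 1 a b := by simp [wt, ge_w]
    rwa [hw] at this
  by_cases hab : a = b
  · subst hab
    rw [if_pos rfl]
    have h1 := hX a a
    have h2 := hX c c
    have hw : (ge_w 1 c c : Ln n) = ge_w 1 a a := by simp [ge_w]
    rw [hw] at h2
    exact (weightedHomogeneousSubmodule k (wt (n := n)) (ge_w 1 a a)).sub_mem h1 h2
  · rw [if_neg hab, sub_zero]
    exact hX a b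

theorem ge_hom_prod (s : Finset (Fin (n + 1))) (a b : Fin (n + 1)) :
    IsWeightedHomogeneous (wt (n := n))
    ((Polynomial.aeval (gen k n) (∏ c ∈ s, (Polynomial.X - Polynomial.C ((gen k n) c c))) :
      Mx n (MvPolynomial (Sg n) k)) a b) (ge_w s.card a b) := by
  classical
  induction s using Finset.induction_on generalizing a b with
  | empty =>
    rw [Finset.prod_empty, map_one, Finset.card_empty]
    exact ge_hom_one a b
  | insert c s hc ih =>
    rw [Finset.prod_insert hc, map_mul, Finset.card_insert_of_notMem hc,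
      Nat.add_comm s.card 1]
    exact ge_hom_mul (ge_hom_fac c) ih a b

theorem ge_hom_W (u : Wn n) (a b : Fin (n + 1)) :
    IsWeightedHomogeneous (wt (n := n))
      ((Wm (gen k n) * PM (MvPolynomial (Sg n) k) u : Mx n (MvPolynomial (Sg n) k)) a b)
      (ge_w ((u b : Fin (n + 1)) : ℕ) a (u b)) := by
  have h1 : (Wm (gen k n) * PM (MvPolynomial (Sg n) k) u) a b = Wm (gen k n) a (u b) := by
    rw [Matrix.mul_apply]
    simp only [PM, mul_ite, mul_one, mul_zero]
    rw [Finset.sum_ite_eq' Finset.univ (u b)]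
    simp
  rw [h1]
  have := ge_hom_prod (k := k) (Finset.Iio (u b)) a (u b)
  rw [Fin.card_Iio] at this
  exact this

theorem ge_hom_mnr {m : ℕ} (hm : m ≤ n + 1) (ρ : Fin m → Fin (n + 1)) (u : Wn n) :
    IsWeightedHomogeneous (wt (n := n)) (mnr hm ρ (Wm (gen k n) * PM _ u))
      ((∑ j : Fin m, (Pi.single (ρ j) 1 - Pi.single (u (Fin.castLE hm j)) 1),
        ∑ j : Fin m, ((u (Fin.castLE hm j) : Fin (n + 1)) : ℤ), 0) : Ln n) := by
  unfold mnr
  rw [Matrix.det_apply]
  refine IsWeightedHomogeneous.sum _ _ _ fun σ _ => ?_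
  have key : IsWeightedHomogeneous (wt (n := n))
      (∏ j : Fin m, (Wm (gen k n) * PM (MvPolynomial (Sg n) k) u : Mx n (MvPolynomial (Sg n) k))
        (ρ (σ j)) (Fin.castLE hm j))
      (∑ j : Fin m, ge_w ((u (Fin.castLE hm j) : Fin (n + 1)) : ℕ) (ρ (σ j))
        (u (Fin.castLE hm j))) :=
    IsWeightedHomogeneous.prod _ _ _ fun j _ => ge_hom_W u _ _
  have hw : (∑ j : Fin m, ge_w ((u (Fin.castLE hm j) : Fin (n + 1)) : ℕ) (ρ (σ j))
        (u (Fin.castLE hm j)))
      = ((∑ j : Fin m, (Pi.single (ρ j) 1 - Pi.single (u (Fin.castLE hm j)) 1),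
        ∑ j : Fin m, ((u (Fin.castLE hm j) : Fin (n + 1)) : ℤ), 0) : Ln n) := by
    refine Prod.ext ?_ (Prod.ext ?_ ?_)
    · rw [Prod.fst_sum]
      simp only [ge_w]
      rw [Finset.sum_sub_distrib, Finset.sum_sub_distrib]
      congr 1
      exact Equiv.sum_comp σ (fun j => (Pi.single (ρ j) 1 : Fin (n + 1) → ℤ))
    · rw [Prod.snd_sum, Prod.fst_sum]
      simp [ge_w]
    · rw [Prod.snd_sum, Prod.snd_sum]
      simp [ge_w]
  rw [hw] at key
  have hsmul := (weightedHomogeneousSubmodule k (wt (n := n)) _).toAddSubgroup.zsmul_mem key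
    (Equiv.Perm.sign σ : ℤ)
  rw [Units.smul_def]
  exact hsmul

theorem qn_w (i : Fin n) (v u : Wn n) : qn k i v u ∈ pc k (wt (n := n)) (cqn i v u + wy1n i) := by
  rw [mem_weightedHomogeneousSubmodule]
  have h1 : (cqn i v u + wy1n i : Ln n) =
      ((∑ j : Fin (mv i v), (Pi.single (ra i v j) 1 - Pi.single (u (Fin.castLE (mv_le i v) j)) 1),
        ∑ j : Fin (mv i v), ((u (Fin.castLE (mv_le i v) j) : Fin (n + 1)) : ℤ), 0) : Ln n) := by
    unfold cqn
    rw [sub_add_cancel]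
  rw [h1]
  exact ge_hom_mnr (mv_le i v) (ra i v) u

theorem qn'_w (i : Fin n) (v u : Wn n) (h : asc i v) :
    qn' k i v u ∈ pc k (wt (n := n)) (cqn i v u + wy2n i) := by
  classical
  obtain ⟨j₀, hj₀⟩ := ge_last i v
  rw [mem_weightedHomogeneousSubmodule]
  have h1 : (cqn i v u + wy2n i : Ln n) =
      ((∑ j : Fin (mv i v), (Pi.single (rb i v j) 1 - Pi.single (u (Fin.castLE (mv_le i v) j)) 1),
        ∑ j : Fin (mv i v), ((u (Fin.castLE (mv_le i v) j) : Fin (n + 1)) : ℤ), 0) : Ln n) := by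
    have hsum : (∑ j : Fin (mv i v), (Pi.single (rb i v j) 1 : Fin (n + 1) → ℤ))
        = (∑ j : Fin (mv i v), (Pi.single (ra i v j) 1 : Fin (n + 1) → ℤ))
          - Pi.single i.castSucc 1 + Pi.single i.succ 1 := by
      rw [← Finset.sum_erase_add _ _ (Finset.mem_univ j₀), (ge_ra_last i v j₀ hj₀).2,
        ← Finset.sum_erase_add (f := fun j => (Pi.single (ra i v j) 1 : Fin (n + 1) → ℤ))
          _ (Finset.mem_univ j₀), (ge_ra_last i v j₀ hj₀).1]
      have : ∑ j ∈ Finset.univ.erase j₀, (Pi.single (rb i v j) 1 : Fin (n + 1) → ℤ)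
          = ∑ j ∈ Finset.univ.erase j₀, (Pi.single (ra i v j) 1 : Fin (n + 1) → ℤ) :=
        Finset.sum_congr rfl fun j hj => by
          rw [ge_rb_other i v h j₀ hj₀ j (Finset.ne_of_mem_erase hj)]
      rw [this]
      abel
    refine Prod.ext ?_ (Prod.ext ?_ ?_)
    · change (∑ j : Fin (mv i v), (Pi.single (ra i v j) 1 -
        Pi.single (u (Fin.castLE (mv_le i v) j)) 1)) - Pi.single i.castSucc 1
        + Pi.single i.succ 1 = ∑ j : Fin (mv i v), ((Pi.single (rb i v j) 1 : Fin (n + 1) → ℤ) -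
        Pi.single (u (Fin.castLE (mv_le i v) j)) 1)
      rw [Finset.sum_sub_distrib, Finset.sum_sub_distrib, hsum]
      abel
    · simp [cqn, wy1n, wy2n]
    · simp [cqn, wy1n, wy2n]
  rw [h1]
  exact ge_hom_mnr (mv_le i v) (rb i v) u

end Pool.Agent.CSM.GL
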