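import Pool.Agent.CSM.GL.Cells

/-! # Module GR: parametrisation of Richardson points and the dimension count -/

open Matrix

noncomputable section

namespace Pool.Agent.CSM.GL

variable {n : ℕ} {k K : Type} [Field k] [Field K] [Algebra k K]

/-- entries in an intermediate field -/
def gr_Ov (F : IntermediateField k K) (M : Mx n K) : Prop := ∀ a b, M a b ∈ F

theorem gr_Ov_mul {F : IntermediateField k K} {A B : Mx n K} (hA : gr_Ov F A) (hB : gr_Ov F B) :
    gr_Ov F (A * B) := by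
  intro a b
  rw [Matrix.mul_apply]
  exact sum_mem (fun j _ => mul_mem (hA a j) (hB j b))

theorem gr_Ov_emb {F : IntermediateField k K} (i : Fin n) (l : Matrix (Fin 2) (Fin 2) K)
    (hl : ∀ a b, l a b ∈ F) : gr_Ov F (emb i l) := by
  intro a b
  unfold emb
  split_ifs <;> first | exact hl _ _ | exact zero_mem _ | exact one_mem _

theorem gr_emb_LT (i : Fin n) (l : Matrix (Fin 2) (Fin 2) K) (h : l 0 1 = 0) :
    LT (emb i l) := by
  intro a b hab
  unfold emb
  split_ifs with h1 h2 h3 h4 h5 h6 h7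
  · rw [h1, h2] at hab; exact absurd hab (lt_irrefl _)
  · exact h
  · rfl
  · rw [h4, h5] at hab
    have := Fin.castSucc_lt_succ (i := i)
    exact absurd hab (not_lt.mpr this.le)
  · rw [h4, h6] at hab; exact absurd hab (lt_irrefl _)
  · rfl
  · rw [h7] at hab; exact absurd hab (lt_irrefl _)
  · rfl

theorem gr_emb_UU (i : Fin n) (z : K) : UU (emb i !![1, z; 0, 1]) := by
  constructor
  · intro a b hab
    unfold emb
    split_ifs with h1 h2 h3 h4 h5 h6 h7
    · rw [h1, h2] at hab; exact absurd hab (lt_irrefl _)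
    · rw [h1, h3] at hab
      have := Fin.castSucc_lt_succ (i := i)
      exact absurd hab (not_lt.mpr this.le)
    · rfl
    · simp
    · rw [h4, h6] at hab; exact absurd hab (lt_irrefl _)
    · rfl
    · rw [h7] at hab; exact absurd hab (lt_irrefl _)
    · rfl
  · intro a
    have hne : i.succ ≠ i.castSucc := (Fin.castSucc_lt_succ (i := i)).ne'
    unfold emb
    by_cases h1 : a = i.castSucc
    · simp [h1]
    · by_cases h2 : a = i.succ
      · simp [h2, hne]
      · simp [h1, h2]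

theorem gr_len_step (i : Fin n) (y : Wn n) : len y ≤ len (sw i * y) + 1 := by
  by_cases h : asc i y
  · rw [len_sw i y h]; omega
  · have h2 : asc i (sw i * y) := (asc_sw_iff i y).mpr h
    have h3 := len_sw i (sw i * y) h2
    rw [← mul_assoc, sw_sq, one_mul] at h3
    omega

/-- a point of `N w B ∩ B⁻ y B` is defined over a field generated by `len w - len y` elements -/
theorem richardson (w y : Wn n) (g : Mx n K) (hw : InN w g) (hy : InC y g) :
    ∃ (s : ℕ) (p : Fin s → K) (G0 D : Mx n K), s + len y ≤ len w ∧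
      (∀ a b, G0 a b ∈ IntermediateField.adjoin k (Set.range p)) ∧
      UT D ∧ D.det ≠ 0 ∧ g = G0 * D := by
  induction hN : len w generalizing w y g with
  | zero =>
    have hw1 : w = 1 := by
      by_contra hne
      obtain ⟨i, hi⟩ := exists_desc w hne
      have h2 : asc i (sw i * w) := (asc_sw_iff i w).mpr hi
      have h3 := len_sw i (sw i * w) h2
      rw [← mul_assoc, sw_sq, one_mul] at h3
      omega
    subst hw1
    have hdet := hw.det_ne
    obtain ⟨b, c, hb, hc, hc', rfl⟩ := hw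
    have hU : UT (b * PM K (1 : Wn n) * c) := by
      rw [PM_one, mul_one]; exact hb.1.mul hc
    have hy1 := InC.unique hy (InC_one hU hdet)
    subst hy1
    refine ⟨0, Fin.elim0, 1, b * PM K (1 : Wn n) * c, ?_, ?_, hU, hdet, ?_⟩
    · rw [len_one]
    · intro a b
      rw [Matrix.one_apply]
      split_ifs
      · exact one_mem _
      · exact zero_mem _
    · rw [one_mul]
  | succ N ih =>
    have hw1 : w ≠ 1 := by
      rintro rfl
      rw [len_one] at hN; omega
    obtain ⟨i, hi⟩ := exists_desc w hw1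
    have h2 : asc i (sw i * w) := (asc_sw_iff i w).mpr hi
    have h3 := len_sw i (sw i * w) h2
    rw [← mul_assoc, sw_sq, one_mul] at h3
    have h4 : len (sw i * w) = N := by omega
    obtain ⟨z, g₁, hg₁, hg⟩ := hw.step i hi
    by_cases hz : z = 0
    · subst hz
      have e1 : (emb i !![1, 0; 0, 1] : Mx n K) = 1 := by
        have : (!![1, 0; 0, 1] : Matrix (Fin 2) (Fin 2) K) = 1 := by
          ext a b; fin_cases a <;> fin_cases b <;> simp
        rw [this, emb_one]
      rw [e1, one_mul] at hg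
      have hg' : g₁ = emb i !![0, -1; 1, 0] * g := by
        rw [hg, ← mul_assoc, ← emb_mul]
        have : (!![0, -1; 1, 0] * !![0, 1; -1, 0] : Matrix (Fin 2) (Fin 2) K) = 1 := by
          ext a b; fin_cases a <;> fin_cases b <;> simp [Matrix.mul_apply, Fin.sum_univ_two]
        rw [this, emb_one, one_mul]
      have hy2 := hy.emb_left i !![0, -1; 1, 0] (by simp [Matrix.det_fin_two])
      rw [← hg'] at hy2
      have key : ∃ y₁, InC y₁ g₁ ∧ len y ≤ len y₁ + 1 := by
        rcases hy2 with h | h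
        · exact ⟨y, h, by omega⟩
        · exact ⟨_, h, gr_len_step i y⟩
      obtain ⟨y₁, hy₁, hle⟩ := key
      obtain ⟨s, p, G0, D, hs, hG0, hD, hD', hgD⟩ := ih (sw i * w) y₁ g₁ hg₁ hy₁ h4
      refine ⟨s, p, emb i !![0, 1; -1, 0] * G0, D, by omega, ?_, hD, hD', ?_⟩
      · apply gr_Ov_mul _ hG0
        apply gr_Ov_emb
        intro a b
        fin_cases a <;> fin_cases b <;> simp [zero_mem, one_mem]
      · rw [hg, hgD, mul_assoc]
    · -- z ≠ 0
      have hA : (!![1, z; 0, 1] * !![0, 1; -1, 0] : Matrix (Fin 2) (Fin 2) K)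
          = !![1, 0; z⁻¹, 1] * !![-z, 0; 0, -z⁻¹] * !![1, -z⁻¹; 0, 1] := by
        ext a b; fin_cases a <;> fin_cases b <;>
          simp [Matrix.mul_apply, Fin.sum_univ_two, hz]
      have hg2 : emb i !![1, -z⁻¹; 0, 1] * g₁
          = emb i (!![-z⁻¹, 0; 0, -z] * !![1, 0; -z⁻¹, 1]) * g := by
        rw [hg, ← mul_assoc (emb i !![1, z; 0, 1]), ← emb_mul, hA, ← mul_assoc, ← emb_mul]
        congr 2
        ext a b; fin_cases a <;> fin_cases b <;>
          simp [Matrix.mul_apply, Fin.sum_univ_two, hz]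
      have hg1' : InN (sw i * w) (emb i !![1, -z⁻¹; 0, 1] * g₁) :=
        hg₁.left (gr_emb_UU i _)
      have hy' : InC y (emb i !![1, -z⁻¹; 0, 1] * g₁) := by
        rw [hg2]
        apply hy.left
        · apply gr_emb_LT
          simp [Matrix.mul_apply, Fin.sum_univ_two]
        · rw [emb_det]
          simp [Matrix.det_fin_two, hz]
      obtain ⟨s, p, G0, D, hs, hG0, hD, hD', hgD⟩ := ih (sw i * w) y _ hg1' hy' h4
      refine ⟨s + 1, Fin.snoc p z, emb i (!![1, z; 0, 1] * !![0, 1; -1, 0] * !![1, z⁻¹; 0, 1]) * G0,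
        D, by omega, ?_, hD, hD', ?_⟩
      · have hzm : z ∈ IntermediateField.adjoin k (Set.range (Fin.snoc p z : Fin (s + 1) → K)) := by
          apply IntermediateField.subset_adjoin
          exact ⟨Fin.last s, by simp⟩
        have hpm : IntermediateField.adjoin k (Set.range p)
            ≤ IntermediateField.adjoin k (Set.range (Fin.snoc p z : Fin (s + 1) → K)) := by
          apply IntermediateField.adjoin.mono
          rintro _ ⟨j, rfl⟩
          exact ⟨j.castSucc, by simp⟩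
        apply gr_Ov_mul _ (fun a b => hpm (hG0 a b))
        apply gr_Ov_emb
        have hzi := inv_mem hzm
        have hE : (!![1, z; 0, 1] * !![0, 1; -1, 0] * !![1, z⁻¹; 0, 1] :
            Matrix (Fin 2) (Fin 2) K) = !![-z, 0; -1, -z⁻¹] := by
          ext a b; fin_cases a <;> fin_cases b <;>
            simp [Matrix.mul_apply, Fin.sum_univ_two, hz]
        rw [hE]
        intro a b
        fin_cases a <;> fin_cases b
        · exact neg_mem hzm
        · exact zero_mem _
        · exact neg_mem (one_mem _)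
        · exact neg_mem hzi
      · rw [mul_assoc, ← hgD, ← mul_assoc, ← emb_mul, hg, ← mul_assoc, ← emb_mul]
        congr 2
        ext a b; fin_cases a <;> fin_cases b <;>
          simp [Matrix.mul_apply, Fin.sum_univ_two]

theorem gr_PM_map {F : IntermediateField k K} (w : Wn n) :
    (PM F w).map (algebraMap F K) = PM K w := by
  ext a b
  simp only [Matrix.map_apply, PM]
  split_ifs <;> simp

theorem gr_det_map {F : IntermediateField k K} (A : Mx n F) :
    (A.map (algebraMap F K)).det = algebraMap F K A.det := by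
  rw [RingHom.map_det]; rfl

theorem gr_InN_map {F : IntermediateField k K} {w : Wn n} {A : Mx n F} (h : InN w A) :
    ∃ b c : Mx n K, UU b ∧ gr_Ov F b ∧ gr_Ov F b⁻¹ ∧ UT c ∧ c.det ≠ 0 ∧
      A.map (algebraMap F K) = b * PM K w * c := by
  obtain ⟨b, c, hb, hc, hc', rfl⟩ := h
  refine ⟨b.map (algebraMap F K), c.map (algebraMap F K), ⟨?_, ?_⟩, ?_, ?_, ?_, ?_, ?_⟩
  · intro x y hxy
    rw [Matrix.map_apply, hb.1 x y hxy, map_zero]
  · intro x
    rw [Matrix.map_apply, hb.2 x, map_one]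
  · intro x y
    exact (b x y).2
  · have h1 : (b⁻¹).map (algebraMap F K) * b.map (algebraMap F K) = 1 := by
      rw [← Matrix.map_mul, Matrix.nonsing_inv_mul]
      · simp
      · rw [hb.det]; exact isUnit_one
    rw [Matrix.inv_eq_left_inv h1]
    intro x y
    exact (b⁻¹ x y).2
  · intro x y hxy
    rw [Matrix.map_apply, hc x y hxy, map_zero]
  · rw [gr_det_map]
    exact fun h0 => hc' ((map_eq_zero _).mp h0)
  · rw [Matrix.map_mul, Matrix.map_mul, gr_PM_map]

theorem gr_mul_PM (M : Mx n K) (w : Wn n) (a j : Fin (n + 1)) :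
    (M * PM K w) a j = M a (w j) := by
  rw [Matrix.mul_apply, Finset.sum_eq_single (w j)]
  · simp [PM]
  · intro b _ hb
    simp [PM, hb]
  · intro h; exact absurd (Finset.mem_univ _) h

theorem gr_PM_mul (M : Mx n K) (w : Wn n) (a j : Fin (n + 1)) :
    (PM K w * M) a j = M (w⁻¹ a) j := by
  rw [Matrix.mul_apply, Finset.sum_eq_single (w⁻¹ a)]
  · simp [PM]
  · intro b _ hb
    have : a ≠ w b := by
      rintro rfl
      exact hb (by simp)
    simp [PM, this]
  · intro h; exact absurd (Finset.mem_univ _) h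

theorem gr_aux (k : Type) [Field k] [Algebra k K] (Mb G C : Mx n K) (hM : UT Mb)
    (hG : G.det ≠ 0) (hC : UT C) (h : Mb * G = G * C) (y : Wn n) (hy : InC y G) :
    ∃ (w : Wn n) (s : ℕ) (p : Fin s → K) (G0 D nn M0 : Mx n K), s + len y ≤ len w ∧
      gr_Ov (IntermediateField.adjoin k (Set.range p)) G0 ∧ UT D ∧ D.det ≠ 0 ∧ G = G0 * D ∧
      gr_Ov (IntermediateField.adjoin k (Set.range p)) nn ∧
      gr_Ov (IntermediateField.adjoin k (Set.range p)) nn⁻¹ ∧ Mb = nn * M0 * nn⁻¹ ∧
      (∀ a b, ¬ (a ≤ b ∧ w⁻¹ a ≤ w⁻¹ b) → M0 a b = 0) ∧ ∀ a, M0 a a = Mb a a := by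
  obtain ⟨w, hw⟩ := exists_InN G hG
  obtain ⟨s, p, G0, D, hs, hG0, hD, hD', hGD⟩ := richardson (k := k) w y G hw hy
  set F := IntermediateField.adjoin k (Set.range p) with hF
  have hGdet : G0.det ≠ 0 := by
    intro h0
    apply hG
    rw [hGD, Matrix.det_mul, h0, zero_mul]
  set G0' : Mx n F := fun a b => ⟨G0 a b, hG0 a b⟩ with hG0'
  have hmap : G0'.map (algebraMap F K) = G0 := by ext a b; rfl
  have hdet0 : G0'.det ≠ 0 := by
    intro h0
    apply hGdet
    rw [← hmap, gr_det_map, h0, map_zero]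
  obtain ⟨w', hw'⟩ := exists_InN G0' hdet0
  obtain ⟨nn, c, hn, hno, hno', hc, hc', he⟩ := gr_InN_map hw'
  rw [hmap] at he
  have h1 : InN w' G0 := ⟨nn, c, hn, hc, hc', he⟩
  have hDu : IsUnit D.det := isUnit_iff_ne_zero.mpr hD'
  have hDi : D⁻¹.det ≠ 0 := by
    intro h0
    have := Matrix.det_nonsing_inv_mul_det D hDu
    rw [h0, zero_mul] at this
    exact zero_ne_one this
  have h2 : InN w G0 := by
    have : G0 = G * D⁻¹ := by
      rw [hGD, mul_assoc, Matrix.mul_nonsing_inv _ hDu, mul_one]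
    rw [this]
    exact hw.right hD.inv hDi
  have h3 := InN.unique h1 h2
  subst h3
  have hnu : IsUnit nn.det := by rw [hn.det]; exact isUnit_one
  have hni : nn⁻¹ * nn = 1 := Matrix.nonsing_inv_mul _ hnu
  have hni' : nn * nn⁻¹ = 1 := Matrix.mul_nonsing_inv _ hnu
  have hcD : UT (c * D) := hc.mul hD
  have hcDu : IsUnit (c * D).det := by
    rw [Matrix.det_mul]
    exact isUnit_iff_ne_zero.mpr (mul_ne_zero hc' hD')
  have hM0 : UT (nn⁻¹ * Mb * nn) := (hn.inv.1.mul hM).mul hn.1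
  have key : nn⁻¹ * Mb * nn * PM K w' = PM K w' * ((c * D) * C * (c * D)⁻¹) := by
    have e1 : nn⁻¹ * Mb * nn * PM K w' * (c * D) = PM K w' * (c * D) * C := by
      have e2 : nn * PM K w' * (c * D) = G := by
        rw [hGD, he]; simp only [mul_assoc]
      calc nn⁻¹ * Mb * nn * PM K w' * (c * D) = nn⁻¹ * (Mb * (nn * PM K w' * (c * D))) := by
            simp only [mul_assoc]
        _ = nn⁻¹ * (G * C) := by rw [e2, h]
        _ = nn⁻¹ * (nn * PM K w' * (c * D) * C) := by rw [e2]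
        _ = (nn⁻¹ * nn) * (PM K w' * (c * D) * C) := by simp only [mul_assoc]
        _ = PM K w' * (c * D) * C := by rw [hni, one_mul]
    calc nn⁻¹ * Mb * nn * PM K w' = nn⁻¹ * Mb * nn * PM K w' * ((c * D) * (c * D)⁻¹) := by
          rw [Matrix.mul_nonsing_inv _ hcDu, mul_one]
      _ = (nn⁻¹ * Mb * nn * PM K w' * (c * D)) * (c * D)⁻¹ := by simp only [mul_assoc]
      _ = _ := by rw [e1]; simp only [mul_assoc]
  have hC'' : UT ((c * D) * C * (c * D)⁻¹) := (hcD.mul hC).mul hcD.inv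
  refine ⟨w', s, p, G0, D, nn, nn⁻¹ * Mb * nn, hs, hG0, hD, hD', hGD, hno, hno', ?_, ?_, ?_⟩
  · calc Mb = (nn * nn⁻¹) * Mb * (nn * nn⁻¹) := by rw [hni', one_mul, mul_one]
      _ = _ := by simp only [mul_assoc]
  · intro a b hab
    by_cases hab1 : a ≤ b
    · have hab2 : w'⁻¹ b < w'⁻¹ a := by
        by_contra hcon
        exact hab ⟨hab1, not_lt.mp hcon⟩
      have := congrFun (congrFun key a) (w'⁻¹ b)
      rw [gr_mul_PM, gr_PM_mul, hC'' _ _ hab2] at this
      simpa using this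
    · exact hM0 a b (not_le.mp hab1)
  · intro a
    rw [UT.mul_diag (hn.inv.1.mul hM) hn.1, UT.mul_diag hn.inv.1 hM, hn.inv.2, hn.2]
    ring

theorem gr_fin {Mb G0 nn M0 : Mx n K} {w : Wn n} {s : ℕ} {p : Fin s → K}
    (hG0 : gr_Ov (IntermediateField.adjoin k (Set.range p)) G0)
    (hn : gr_Ov (IntermediateField.adjoin k (Set.range p)) nn)
    (hn' : gr_Ov (IntermediateField.adjoin k (Set.range p)) nn⁻¹)
    (hMb : Mb = nn * M0 * nn⁻¹)
    (hM0 : ∀ a b, ¬ (a ≤ b ∧ w⁻¹ a ≤ w⁻¹ b) → M0 a b = 0)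
    (T : Finset (Fin (n + 1) × Fin (n + 1)))
    (hT : ∀ a b, a ≤ b → w⁻¹ a ≤ w⁻¹ b → ∃ c ∈ T, M0 a b = M0 c.1 c.2) :
    ∃ p' : Fin (s + T.card) → K,
      (∀ a b, Mb a b ∈ IntermediateField.adjoin k (Set.range p')) ∧
      (∀ a b, G0 a b ∈ IntermediateField.adjoin k (Set.range p')) := by
  set q : Fin T.card → K := fun j => M0 (T.equivFin.symm j).1.1 (T.equivFin.symm j).1.2 with hq
  have hpm : IntermediateField.adjoin k (Set.range p)
      ≤ IntermediateField.adjoin k (Set.range (Fin.append p q)) := by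
    apply IntermediateField.adjoin.mono
    rintro _ ⟨j, rfl⟩
    exact ⟨Fin.castAdd _ j, by simp⟩
  have hqm : ∀ c ∈ T, M0 c.1 c.2 ∈ IntermediateField.adjoin k (Set.range (Fin.append p q)) := by
    intro c hc
    apply IntermediateField.subset_adjoin
    refine ⟨Fin.natAdd s (T.equivFin ⟨c, hc⟩), ?_⟩
    rw [Fin.append_right, hq]
    simp
  have hM : gr_Ov (IntermediateField.adjoin k (Set.range (Fin.append p q))) M0 := by
    intro a b
    by_cases hab : a ≤ b ∧ w⁻¹ a ≤ w⁻¹ b
    · obtain ⟨c, hc, he⟩ := hT a b hab.1 hab.2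
      rw [he]
      exact hqm c hc
    · rw [hM0 a b hab]; exact zero_mem _
  refine ⟨Fin.append p q, ?_, fun a b => hpm (hG0 a b)⟩
  rw [hMb]
  exact gr_Ov_mul (gr_Ov_mul (fun a b => hpm (hn a b)) hM) (fun a b => hpm (hn' a b))

theorem count (Mb G C : Mx n K) (hM : UT Mb) (hG : G.det ≠ 0) (hC : UT C) (h : Mb * G = G * C)
    (y : Wn n) (hy : InC y G) :
    ∃ (s : ℕ) (p : Fin s → K) (G0 D : Mx n K), s + len y ≤ nA n ∧
      (∀ a b, Mb a b ∈ IntermediateField.adjoin k (Set.range p)) ∧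
      (∀ a b, G0 a b ∈ IntermediateField.adjoin k (Set.range p)) ∧
      UT D ∧ D.det ≠ 0 ∧ G = G0 * D := by
  obtain ⟨w, s, p, G0, D, nn, M0, hs, hG0, hD, hD', hGD, hn, hn', hMb, hM0, -⟩ :=
    gr_aux k Mb G C hM hG hC h y hy
  have hcard := card_add_len w
  obtain ⟨p', h1, h2⟩ := gr_fin hG0 hn hn' hMb hM0
    (Finset.univ.filter (fun p : Fin (n + 1) × Fin (n + 1) => p.1 ≤ p.2 ∧ w⁻¹ p.1 ≤ w⁻¹ p.2))
    (fun a b hab hab' => ⟨(a, b), Finset.mem_filter.mpr ⟨Finset.mem_univ _, hab, hab'⟩, rfl⟩)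
  exact ⟨_, p', G0, D, by omega, h1, h2, hD, hD', hGD⟩

theorem count' (Mb G C : Mx n K) (hM : UT Mb) (hG : G.det ≠ 0) (hC : UT C) (h : Mb * G = G * C)
    (y : Wn n) (hy : InC y G) (i : Fin n)
    (hi : Mb i.castSucc i.castSucc = Mb i.succ i.succ) :
    ∃ (s : ℕ) (p : Fin s → K) (G0 D : Mx n K), s + 1 + len y ≤ nA n ∧
      (∀ a b, Mb a b ∈ IntermediateField.adjoin k (Set.range p)) ∧
      (∀ a b, G0 a b ∈ IntermediateField.adjoin k (Set.range p)) ∧
      UT D ∧ D.det ≠ 0 ∧ G = G0 * D := by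
  obtain ⟨w, s, p, G0, D, nn, M0, hs, hG0, hD, hD', hGD, hn, hn', hMb, hM0, hdiag⟩ :=
    gr_aux k Mb G C hM hG hC h y hy
  have hcard := card_add_len w
  have hne : i.castSucc ≠ i.succ := (Fin.castSucc_lt_succ (i := i)).ne
  set T := Finset.univ.filter
    (fun p : Fin (n + 1) × Fin (n + 1) => p.1 ≤ p.2 ∧ w⁻¹ p.1 ≤ w⁻¹ p.2) with hTdef
  have hmem : (i.succ, i.succ) ∈ T := by simp [hTdef]
  obtain ⟨p', h1, h2⟩ := gr_fin hG0 hn hn' hMb hM0 (T.erase (i.succ, i.succ)) (by
    intro a b hab hab'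
    by_cases hc : (a, b) = (i.succ, i.succ)
    · refine ⟨(i.castSucc, i.castSucc), ?_, ?_⟩
      · rw [Finset.mem_erase]
        exact ⟨fun he => hne (congrArg Prod.fst he), by simp [hTdef]⟩
      · have ha : a = i.succ := congrArg Prod.fst hc
        have hb : b = i.succ := congrArg Prod.snd hc
        rw [ha, hb, hdiag, ← hi, ← hdiag]
    · exact ⟨(a, b), Finset.mem_erase.mpr ⟨hc, Finset.mem_filter.mpr
        ⟨Finset.mem_univ _, hab, hab'⟩⟩, rfl⟩)
  have hce := Finset.card_erase_of_mem hmem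
  have hpos := Finset.card_pos.mpr ⟨_, hmem⟩
  exact ⟨_, p', G0, D, by omega, h1, h2, hD, hD', hGD⟩

end Pool.Agent.CSM.GL
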