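import Pool.Agent.CSM.GL.Minor
import Pool.Agent.CSM.Defs

/-! # Module GS: specialisation of flags along a valuation ring -/

open Matrix MvPolynomial

noncomputable section

namespace Pool.Agent.CSM.GL

variable {n : ℕ}

/-- column reduction by row operations over the valuation ring -/
theorem gs_step {K : Type} [Field K] (O : ValuationSubring K) (g : Mx n K) (k : ℕ)
    (hk : k ≤ n + 1) :
    ∃ h : Matrix (Fin (n + 1)) (Fin (n + 1)) O, IsUnit h.det ∧
      ∀ a b : Fin (n + 1), b < a → (b : ℕ) < k → (h.map (algebraMap O K) * g) a b = 0 := by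
  classical
  induction k with
  | zero => exact ⟨1, by rw [Matrix.det_one]; exact isUnit_one, fun a b _ h => by omega⟩
  | succ k ih =>
    obtain ⟨h, hdet, hz⟩ := ih (by omega)
    set M : Mx n K := h.map (algebraMap O K) * g with hM
    let kk : Fin (n + 1) := ⟨k, by omega⟩
    have hkk : (kk : ℕ) = k := rfl
    obtain ⟨i, hi, himax⟩ := Finset.exists_max_image (Finset.univ.filter fun a => kk ≤ a)
      (fun a => O.valuation (M a kk)) ⟨kk, by simp⟩
    simp only [Finset.mem_filter, Finset.mem_univ, true_and] at hi himax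
    -- the quotients
    have hc : ∀ a, kk ≤ a → ∃ c : O, M a kk = (algebraMap O K c) * M i kk := by
      intro a ha
      by_cases h0 : M i kk = 0
      · refine ⟨0, ?_⟩
        have h1 := himax a ha
        rw [h0, map_zero, le_zero_iff, map_eq_zero] at h1
        rw [h1, h0, mul_zero]
      · refine ⟨⟨M a kk / M i kk, ?_⟩, ?_⟩
        · rw [← ValuationSubring.valuation_le_one_iff, map_div₀]
          have h1 : O.valuation (M i kk) ≠ 0 := by
            rwa [ne_eq, map_eq_zero]
          exact div_le_one_of_le₀ (himax a ha) zero_le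
        · show M a kk = (M a kk / M i kk) * M i kk
          rw [div_mul_cancel₀ _ h0]
    choose! c hc using hc
    let σ : Equiv.Perm (Fin (n + 1)) := Equiv.swap kk i
    have hσ : ∀ a, kk ≤ a → kk ≤ σ a := by
      intro a ha
      by_cases h1 : a = kk
      · rw [h1]; simp only [σ, Equiv.swap_apply_left]; exact hi
      · by_cases h2 : a = i
        · rw [h2]; simp only [σ, Equiv.swap_apply_right]; exact le_rfl
        · simp only [σ, Equiv.swap_apply_of_ne_of_ne h1 h2]; exact ha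
    have hσ' : ∀ a, a < kk → σ a = a := by
      intro a ha
      have h1 : a ≠ kk := ne_of_lt ha
      have h2 : a ≠ i := ne_of_lt (lt_of_lt_of_le ha hi)
      simp only [σ, Equiv.swap_apply_of_ne_of_ne h1 h2]
    let h1 : Matrix (Fin (n + 1)) (Fin (n + 1)) O := h.submatrix σ id
    let d : Fin (n + 1) → O := fun a => if kk < a then -c (σ a) else 0
    let h2 : Matrix (Fin (n + 1)) (Fin (n + 1)) O := Matrix.of fun a b => h1 a b + d a * h1 kk b
    have hd2 : h2.det = h1.det := by
      apply Matrix.det_eq_of_forall_row_eq_smul_add_const d kk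
      · simp [d]
      · intro a b; rfl
    have hd1 : h1.det = Equiv.Perm.sign σ * h.det := Matrix.det_permute σ h
    have hmul : ∀ a b, (h2.map (algebraMap O K) * g) a b =
        M (σ a) b + algebraMap O K (d a) * M (σ kk) b := by
      intro a b
      simp only [Matrix.mul_apply, Matrix.map_apply, h2, Matrix.of_apply, map_add, map_mul,
        add_mul, Finset.sum_add_distrib, hM, Finset.mul_sum, h1, Matrix.submatrix_apply, id]
      simp only [mul_assoc]
    refine ⟨h2, ?_, ?_⟩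
    · rw [hd2, hd1]
      refine IsUnit.mul ?_ hdet
      exact (Equiv.Perm.sign σ).isUnit.map (Int.castRingHom O)
    · intro a b hab hbk
      rw [hmul]
      have hσkk : σ kk = i := by simp [σ]
      by_cases hb : b = kk
      · subst hb
        have ha : kk ≤ a := le_of_lt hab
        rw [hc (σ a) (hσ a ha), hσkk]
        simp only [d, if_pos hab, map_neg]
        ring
      · have hbk' : (b : ℕ) < k := by
          have : (b : ℕ) ≠ k := fun h => hb (Fin.ext h)
          omega
        have hbk2 : b < kk := hbk'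
        have h3 : M (σ kk) b = 0 := by
          rw [hσkk]
          exact hz i b (lt_of_lt_of_le hbk2 hi) hbk'
        rw [h3, mul_zero, add_zero]
        by_cases ha : a < kk
        · rw [hσ' a ha]; exact hz a b hab hbk'
        · exact hz (σ a) b (lt_of_lt_of_le hbk2 (hσ a (not_lt.1 ha))) hbk'

/-- Iwasawa: `GL(K) = GL(O) B(K)` for a valuation subring `O` -/
theorem iwasawa {K : Type} [Field K] (O : ValuationSubring K) (g : Mx n K) (hg : g.det ≠ 0) :
    ∃ (g' : Matrix (Fin (n + 1)) (Fin (n + 1)) O) (b : Mx n K), IsUnit g'.det ∧ UT b ∧ b.det ≠ 0 ∧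
      g = g'.map (algebraMap O K) * b := by
  obtain ⟨h, hdet, hz⟩ := gs_step O g (n + 1) le_rfl
  refine ⟨h⁻¹, h.map (algebraMap O K) * g, ?_, fun a b hab => hz a b hab b.isLt, ?_, ?_⟩
  · exact Matrix.isUnit_nonsing_inv_det h hdet
  · rw [Matrix.det_mul]
    refine mul_ne_zero ?_ hg
    have h1 : (h.map (algebraMap O K)).det = algebraMap O K h.det :=
      ((algebraMap O K).map_det h).symm
    rw [h1]
    exact (hdet.map (algebraMap O K)).ne_zero
  · rw [← Matrix.mul_assoc, ← Matrix.map_mul, Matrix.nonsing_inv_mul h hdet, Matrix.map_one _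
      (map_zero _) (map_one _), Matrix.one_mul]

theorem gs_mnr_map {R S : Type} [CommRing R] [CommRing S] (f : R →+* S) {m : ℕ} (hm : m ≤ n + 1)
    (ρ : Fin m → Fin (n + 1)) (g : Mx n R) : mnr hm ρ (g.map f) = f (mnr hm ρ g) := by
  unfold mnr
  rw [RingHom.map_det]
  rfl

/-- domination by a valuation ring -/
theorem gs_dominate {F R : Type} [Field F] [CommRing R] (ψ : R →+* F) (q : Ideal R)
    (hq : q.IsPrime) (hψ : ∀ f, ψ f = 0 → f ∈ q) :
    ∃ (O : ValuationSubring F) (ψO : R →+* O), (∀ f, algebraMap O F (ψO f) = ψ f) ∧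
      ∀ f, IsUnit (ψO f) ↔ f ∉ q := by
  have hu : ∀ x : q.primeCompl, IsUnit (ψ x) := by
    intro x
    rw [isUnit_iff_ne_zero]
    intro h2
    exact x.2 (hψ _ h2)
  obtain ⟨O, hO, hloc⟩ := IsLocalRing.exists_factor_valuationRing
    (IsLocalization.lift (M := q.primeCompl) (S := Localization.AtPrime q) (g := ψ) hu)
  refine ⟨O, RingHom.comp (RingHom.codRestrict _ O.toSubring hO)
    (algebraMap R (Localization.AtPrime q)), ?_, ?_⟩
  · intro f
    exact IsLocalization.lift_eq hu f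
  · intro f
    have h2 : IsUnit ((RingHom.codRestrict (IsLocalization.lift (M := q.primeCompl)
        (S := Localization.AtPrime q) (g := ψ) hu) O.toSubring hO)
        (algebraMap R (Localization.AtPrime q) f)) ↔
        IsUnit (algebraMap R (Localization.AtPrime q) f) :=
      ⟨fun h => hloc.map_nonunit _ h, fun h => h.map _⟩
    refine Iff.trans h2 ?_
    rw [IsLocalization.AtPrime.isUnit_to_map_iff (Localization.AtPrime q) q f]
    exact Iff.rfl

/-- the specialised matrices -/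
theorem gs_field {A F R : Type} [CommRing A] [Field F] [CommRing R] (π : A →+* F)
    (ev : R →+* A) (q : Ideal R) (hq : q.IsPrime) (hker : ∀ f, π (ev f) = 0 → f ∈ q)
    (x : Fin (n + 1) → Fin (n + 1) → R) (GA CA : Mx n A) (hdet : IsUnit GA.det)
    (hCA : ∀ a b, b < a → CA a b = 0)
    (hMG : (Matrix.of fun a b => ev (x a b)) * GA = GA * CA) :
    ∃ (K : Type) (_ : Field K) (φ : R →+* K) (G C : Mx n K), RingHom.ker φ = q ∧ G.det ≠ 0 ∧
      UT C ∧ (Matrix.of (fun a b => φ (x a b)) : Mx n K) * G = G * C ∧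
      (∀ (m : ℕ) (hm : m ≤ n + 1) (ρ : Fin m → Fin (n + 1)), mnr hm ρ G ≠ 0 →
        π (mnr hm ρ GA) ≠ 0) ∧
      (∀ (m : ℕ) (hm : m ≤ n + 1) (ρ ρ' : Fin m → Fin (n + 1)) (s s' : R),
        mnr hm ρ GA * ev s' = mnr hm ρ' GA * ev s →
        mnr hm ρ G * φ s' = mnr hm ρ' G * φ s) := by
  obtain ⟨O, ψO, hψO, hunit⟩ := gs_dominate (π.comp ev) q hq hker
  have hGF : (GA.map π).det ≠ 0 := by
    have h2 : (GA.map π).det = π GA.det := by
      rw [RingHom.map_det]; rfl
    rw [h2]
    exact (hdet.map π).ne_zero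
  obtain ⟨g', b, hg', hb, hb', hgb⟩ := iwasawa O (GA.map π) hGF
  have hinj : Function.Injective (algebraMap O F) := fun x y h => Subtype.ext h
  -- the matrices over `O`
  obtain ⟨MO, hMO⟩ : ∃ MO : Matrix (Fin (n + 1)) (Fin (n + 1)) O,
    MO = Matrix.of fun a b => ψO (x a b) := ⟨_, rfl⟩
  obtain ⟨CO, hCO'⟩ : ∃ CO : Matrix (Fin (n + 1)) (Fin (n + 1)) O, CO = g'⁻¹ * MO * g' :=
    ⟨_, rfl⟩
  have hMOF : MO.map (algebraMap O F) = (Matrix.of fun a b => ev (x a b)).map π := by
    ext a b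
    rw [hMO]
    exact hψO _
  have hMgO : MO * g' = g' * CO := by
    rw [hCO', Matrix.mul_assoc, ← Matrix.mul_assoc g', Matrix.mul_nonsing_inv g' hg',
      Matrix.one_mul]
  have hbu : IsUnit b.det := hb'.isUnit
  have hg'F : IsUnit (g'.map (algebraMap O F)).det := by
    have h2 : (g'.map (algebraMap O F)).det = algebraMap O F g'.det := by
      rw [RingHom.map_det]; rfl
    rw [h2]
    exact hg'.map _
  have hCF : UT (CA.map π) := by
    intro a b' hab
    rw [Matrix.map_apply, hCA a b' hab, map_zero]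
  have hCO : CO.map (algebraMap O F) = b * CA.map π * b⁻¹ := by
    have h2 : (Matrix.of fun a b => ev (x a b)).map π * GA.map π = GA.map π * CA.map π := by
      rw [← Matrix.map_mul, ← Matrix.map_mul, hMG]
    rw [hgb] at h2
    have h3 : (Matrix.of fun a b => ev (x a b)).map π * g'.map (algebraMap O F) =
        g'.map (algebraMap O F) * CO.map (algebraMap O F) := by
      rw [← hMOF, ← Matrix.map_mul, ← Matrix.map_mul, hMgO]
    rw [← Matrix.mul_assoc, h3, Matrix.mul_assoc, Matrix.mul_assoc] at h2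
    have h4 : CO.map (algebraMap O F) * b = b * CA.map π := by
      have h5 := congrArg (fun Y => (g'.map (algebraMap O F))⁻¹ * Y) h2
      simp only [← Matrix.mul_assoc, Matrix.nonsing_inv_mul _ hg'F, Matrix.one_mul] at h5
      exact h5
    rw [← h4, Matrix.mul_assoc, Matrix.mul_nonsing_inv b hbu, Matrix.mul_one]
  have hCOUT : ∀ a b' : Fin (n + 1), b' < a → CO a b' = 0 := by
    intro a b' hab
    apply hinj
    have h2 : UT (CO.map (algebraMap O F)) := by
      rw [hCO]
      exact (hb.mul hCF).mul hb.inv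
    rw [map_zero]
    exact h2 a b' hab
  -- diagonal of `b`
  have hbd : ∀ j, b j j ≠ 0 := by
    intro j hj
    apply hb'
    rw [hb.det_eq]
    exact Finset.prod_eq_zero (Finset.mem_univ j) hj
  have hprod : ∀ {m : ℕ} (hm : m ≤ n + 1),
      (∏ j : Fin m, b (Fin.castLE hm j) (Fin.castLE hm j)) ≠ 0 :=
    fun hm => Finset.prod_ne_zero_iff.2 fun j _ => hbd _
  have hmnrF : ∀ {m : ℕ} (hm : m ≤ n + 1) (ρ : Fin m → Fin (n + 1)),
      π (mnr hm ρ GA) = algebraMap O F (mnr hm ρ g') *
        ∏ j : Fin m, b (Fin.castLE hm j) (Fin.castLE hm j) := by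
    intro m hm ρ
    rw [← gs_mnr_map, ← gs_mnr_map, ← mnr_right hm ρ _ hb, ← hgb]
  refine ⟨IsLocalRing.ResidueField O, inferInstance, (IsLocalRing.residue O).comp ψO,
    g'.map (IsLocalRing.residue O), CO.map (IsLocalRing.residue O), ?_, ?_, ?_, ?_, ?_, ?_⟩
  · ext f
    rw [RingHom.mem_ker]
    show IsLocalRing.residue O (ψO f) = 0 ↔ _
    rw [IsLocalRing.residue_eq_zero_iff, IsLocalRing.mem_maximalIdeal, mem_nonunits_iff, hunit,
      not_not]
  · have h2 : (g'.map (IsLocalRing.residue O)).det = IsLocalRing.residue O g'.det := by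
      rw [RingHom.map_det]; rfl
    rw [h2]
    exact (hg'.map _).ne_zero
  · intro a b' hab
    rw [Matrix.map_apply, hCOUT a b' hab, map_zero]
  · have h2 : (Matrix.of (fun a b => ((IsLocalRing.residue O).comp ψO) (x a b)) :
        Mx n (IsLocalRing.ResidueField O)) = MO.map (IsLocalRing.residue O) := by
      rw [hMO]; rfl
    rw [h2, ← Matrix.map_mul, ← Matrix.map_mul, hMgO]
  · intro m hm ρ h2 h3
    rw [hmnrF] at h3
    rcases mul_eq_zero.1 h3 with h4 | h4
    · have h5 : mnr hm ρ g' = 0 := hinj (by rw [h4, map_zero])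
      apply h2
      rw [gs_mnr_map, h5, map_zero]
    · exact hprod hm h4
  · intro m hm ρ ρ' s s' h3
    have h2 : mnr hm ρ g' * ψO s' = mnr hm ρ' g' * ψO s := by
      apply hinj
      have h4 := congrArg π h3
      rw [map_mul, map_mul, hmnrF, hmnrF] at h4
      have h5 : ∀ f, π (ev f) = algebraMap O F (ψO f) := fun f => (hψO f).symm
      rw [h5, h5] at h4
      rw [map_mul, map_mul]
      apply mul_right_cancel₀ (hprod hm)
      linear_combination h4
    have h3 := congrArg (IsLocalRing.residue O) h2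
    rw [map_mul, map_mul, ← gs_mnr_map, ← gs_mnr_map] at h3
    exact h3

theorem spec {k σ' : Type} [Field k] [Fintype σ'] (mu : Fin (n + 1) → Fin (n + 1) → σ')
    (S : Set (σ' → k)) (g c : (σ' → k) → Mx n k) (y : (σ' → k) → Wn n)
    (hg : ∀ p ∈ S, (g p).det ≠ 0) (hc : ∀ p ∈ S, UT (c p))
    (hstab : ∀ p ∈ S, (Matrix.of (fun a b => p (mu a b)) : Mx n k) * g p = g p * c p)
    (hy : ∀ p ∈ S, InC (y p) (g p))
    (q : Ideal (MvPolynomial σ' k)) (hq : q.IsPrime) (hSq : vI S ≤ q) :
    ∃ (K : Type) (_ : Field K) (_ : Algebra k K) (φ : MvPolynomial σ' k →ₐ[k] K)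
      (G C : Mx n K) (p0 : σ' → k) (y' : Wn n),
      RingHom.ker φ = q ∧ G.det ≠ 0 ∧ UT C ∧
      (Matrix.of (fun a b => φ (X (mu a b))) : Mx n K) * G = G * C ∧
      p0 ∈ S ∧ InC y' G ∧ (∀ l m, rk y' l m ≤ rk (y p0) l m) ∧
      (∀ (m : ℕ) (hm : m ≤ n + 1) (ρ ρ' : Fin m → Fin (n + 1)) (s s' : σ'),
        (∀ p ∈ S, mnr hm ρ (g p) * p s' = mnr hm ρ' (g p) * p s) →
        mnr hm ρ G * φ (X s') = mnr hm ρ' G * φ (X s)) := by
  classical
  -- the product ring
  obtain ⟨ev, hev⟩ : ∃ ev : MvPolynomial σ' k →+* (S → k),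
    ∀ f (p : S), ev f p = MvPolynomial.eval p.1 f :=
    ⟨RingHom.pi (fun p : S => MvPolynomial.eval p.1), fun f p => rfl⟩
  have h1 : (⊥ : Ideal (S → k)).comap ev ≤ q := by
    intro f hf
    apply hSq
    intro x hx
    rw [Ideal.mem_comap, Ideal.mem_bot] at hf
    rw [← hev f ⟨x, hx⟩, hf]
    rfl
  obtain ⟨q0, hq0, hq0q⟩ := Ideal.exists_minimalPrimes_le h1
  obtain ⟨P, hP, -, hPq⟩ := Ideal.exists_comap_eq_of_mem_minimalPrimes ev q0 hq0
  obtain ⟨π, hπ⟩ : ∃ π : (S → k) →+* FractionRing ((S → k) ⧸ P), ∀ a, π a = 0 ↔ a ∈ P := by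
    refine ⟨(algebraMap ((S → k) ⧸ P) (FractionRing ((S → k) ⧸ P))).comp
      (Ideal.Quotient.mk P), fun a => ?_⟩
    show algebraMap ((S → k) ⧸ P) (FractionRing ((S → k) ⧸ P)) (Ideal.Quotient.mk P a) = 0 ↔ _
    rw [map_eq_zero_iff _ (IsFractionRing.injective ((S → k) ⧸ P) (FractionRing ((S → k) ⧸ P))),
      Ideal.Quotient.eq_zero_iff_mem]
  have hker : ∀ f, π (ev f) = 0 → f ∈ q := by
    intro f hf
    apply hq0q
    rw [← hPq, Ideal.mem_comap]
    exact (hπ _).1 hf
  -- the matrices over the product ring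
  obtain ⟨GA, hGA⟩ : ∃ GA : Mx n (S → k), ∀ a b (p : S), GA a b p = g p.1 a b :=
    ⟨Matrix.of fun a b (p : S) => g p.1 a b, fun a b p => rfl⟩
  obtain ⟨CA, hCA⟩ : ∃ CA : Mx n (S → k), ∀ a b (p : S), CA a b p = c p.1 a b :=
    ⟨Matrix.of fun a b (p : S) => c p.1 a b, fun a b p => rfl⟩
  have hGAp : ∀ p : S, GA.map (Pi.evalRingHom (fun _ : S => k) p) = g p.1 := fun p => by
    ext a b
    exact hGA a b p
  have hMG : (Matrix.of fun a b => ev (X (mu a b))) * GA = GA * CA := by
    refine Matrix.ext fun a b => funext fun p => ?_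
    have h2 := congrFun (congrFun (hstab p.1 p.2) a) b
    simp only [Matrix.mul_apply, Matrix.of_apply] at h2
    simp only [Matrix.mul_apply, Finset.sum_apply, Pi.mul_apply, hGA, hCA, Matrix.of_apply, hev,
      MvPolynomial.eval_X]
    exact h2
  have hmnrA : ∀ {m : ℕ} (hm : m ≤ n + 1) (ρ : Fin m → Fin (n + 1)) (p : S),
      mnr hm ρ GA p = mnr hm ρ (g p.1) := by
    intro m hm ρ p
    rw [← hGAp p, gs_mnr_map]
    rfl
  have hdetA : IsUnit GA.det := by
    rw [Pi.isUnit_iff]
    intro p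
    have h2 : GA.det p = (g p.1).det := by
      rw [← hGAp p, ← RingHom.mapMatrix_apply, ← RingHom.map_det]
      rfl
    rw [h2]
    exact (hg p.1 p.2).isUnit
  obtain ⟨K, fK, φ₀, G, C, hφ, hG, hC, hM, hm1, hm2⟩ := gs_field π ev q hq hker
    (fun a b => X (mu a b)) GA CA hdetA (fun a b hab => funext fun p => (hCA a b p).trans
      (hc p.1 p.2 a b hab)) hMG
  obtain ⟨y', hy'⟩ := exists_InC G hG
  -- the point `p0`
  obtain ⟨p0, hp0⟩ : ∃ p0 : S, ∀ (m : ℕ) (hm : m ≤ n + 1) (ρ : Fin m → Fin (n + 1)),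
      mnr hm ρ G ≠ 0 → mnr hm ρ (g p0.1) ≠ 0 := by
    let I : Type := Σ m : Fin (n + 2), (Fin m → Fin (n + 1))
    let a : I → (S → k) := fun i =>
      if mnr (Nat.lt_succ_iff.1 i.1.isLt) i.2 G ≠ 0 then mnr (Nat.lt_succ_iff.1 i.1.isLt) i.2 GA
      else 1
    have h2 : π (∏ i, a i) ≠ 0 := by
      rw [map_prod]
      refine Finset.prod_ne_zero_iff.2 fun i _ => ?_
      by_cases h3 : mnr (Nat.lt_succ_iff.1 i.1.isLt) i.2 G ≠ 0
      · simp only [a, if_pos h3]
        exact hm1 _ _ _ h3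
      · simp only [a, if_neg h3, map_one]
        exact one_ne_zero
    have h3 : (∏ i, a i) ≠ 0 := by
      intro h4
      rw [h4, map_zero] at h2
      exact h2 rfl
    obtain ⟨p0, hp0⟩ := Function.ne_iff.1 h3
    refine ⟨p0, fun m hm ρ h4 h5 => hp0 ?_⟩
    rw [Finset.prod_apply]
    refine Finset.prod_eq_zero (Finset.mem_univ (⟨⟨m, by omega⟩, ρ⟩ : I)) ?_
    simp only [a]
    rw [if_pos h4]
    exact (hmnrA hm ρ p0).trans h5
  let _ : Algebra k K := (φ₀.comp MvPolynomial.C).toAlgebra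
  let φ : MvPolynomial σ' k →ₐ[k] K := { φ₀ with commutes' := fun r => rfl }
  refine ⟨K, fK, inferInstance, φ, G, C, p0.1, y', hφ, hG, hC, hM, p0.2, hy', ?_, ?_⟩
  · intro l m
    exact rk_le_of_mnr (hy p0.1 p0.2) hy' (fun m hm ρ h => hp0 m hm ρ h) l m
  · intro m hm ρ ρ' s s' hss
    refine hm2 m hm ρ ρ' (X s) (X s') ?_
    funext p
    rw [Pi.mul_apply, Pi.mul_apply, hmnrA, hmnrA, hev, hev, MvPolynomial.eval_X,
      MvPolynomial.eval_X]
    exact hss p.1 p.2

end Pool.Agent.CSM.GL
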