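import Pool.Agent.CSM.GL.Eset
import Pool.Agent.CSM.GL.Rich
import Pool.Agent.CSM.GL.Spec
import Pool.Agent.CSM.HilbGrowth

/-! # Module GN: growth bounds for `GL_{n+1}` -/

open Matrix MvPolynomial

noncomputable section

namespace Pool.Agent.CSM.GL

variable {n : ℕ} {k : Type} [Field k]

theorem sLn_hbn (i : Fin n) : sLn i hbn = hbn := by
  refine Prod.ext ?_ rfl
  funext a; simp [sLn, hbn]

theorem single_comp_sw (i : Fin n) (b : Fin (n + 1)) :
    (Pi.single b (1 : ℤ) : Fin (n + 1) → ℤ) ∘ sw i = Pi.single (sw i b) 1 := by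
  funext a
  by_cases h : sw i a = b
  · subst h; simp [sw]
  · have : a ≠ sw i b := by
      rintro rfl; apply h; simp [sw]
    simp [Pi.single_apply, h, this]

theorem sLn_wy1 (i : Fin n) : sLn i (wy1n i) = wy2n i := by
  refine Prod.ext ?_ rfl
  change (Pi.single i.castSucc (1 : ℤ) : Fin (n + 1) → ℤ) ∘ sw i = _
  rw [single_comp_sw]; simp [sw, wy2n]

theorem sLn_wy2 (i : Fin n) : sLn i (wy2n i) = wy1n i := by
  refine Prod.ext ?_ rfl
  change (Pi.single i.succ (1 : ℤ) : Fin (n + 1) → ℤ) ∘ sw i = _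
  rw [single_comp_sw]; simp [sw, wy1n]

theorem wy_sub (i : Fin n) : wy1n i - wy2n i = aln i := by
  refine Prod.ext rfl (Prod.ext ?_ ?_) <;> simp [wy1n, wy2n, aln]

/-- the extended action -/
abbrev exn (k : Type) [Field k] (i : Fin n) :=
  (actn k i).ext (wy1n i) (wy2n i) (wy_sub i) (sLn_hbn i) (sLn_wy1 i) (sLn_wy2 i)

/-! ### flags -/

theorem gn_diag_PM (u : Wn n) (d : Fin (n + 1) → k) :
    Matrix.diagonal d * PM k u = PM k u * Matrix.diagonal (fun b => d (u b)) := by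
  ext a b
  rw [Matrix.diagonal_mul, Matrix.mul_diagonal]
  unfold PM
  by_cases h : a = u b
  · rw [if_pos h, h]; ring
  · rw [if_neg h]; ring

theorem gn_UT_diag (d : Fin (n + 1) → k) : UT (Matrix.diagonal d) := by
  intro a b hab
  rw [Matrix.diagonal_apply_ne]
  exact ne_of_gt hab

theorem gn_eig {p : Sg n → k} {v u : Wn n} (hp : p ∈ En k v u) :
    toM p * (Wm (toM p) * PM k u) = (Wm (toM p) * PM k u) *
      Matrix.diagonal (fun b => p (u b, u b)) := by
  have h1 := Wm_eig hp.1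
  have h2 := gn_diag_PM u (fun b => toM p b b)
  calc toM p * (Wm (toM p) * PM k u) = (toM p * Wm (toM p)) * PM k u := by
        rw [Matrix.mul_assoc]
    _ = Wm (toM p) * (Matrix.diagonal (fun b => toM p b b) * PM k u) := by
        rw [h1, Matrix.mul_assoc]
    _ = _ := by rw [h2, Matrix.mul_assoc]; rfl

theorem gn_emb_inv (i : Fin n) (g : Matrix.SpecialLinearGroup (Fin 2) k) :
    emb i ((g⁻¹ : Matrix.SpecialLinearGroup (Fin 2) k) : Matrix (Fin 2) (Fin 2) k) *
      emb i (g : Matrix (Fin 2) (Fin 2) k) = 1 := by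
  rw [← emb_mul, ← Matrix.SpecialLinearGroup.coe_mul, inv_mul_cancel,
    Matrix.SpecialLinearGroup.coe_one, emb_one]

theorem gn_toM_act (i : Fin n) (g : Matrix.SpecialLinearGroup (Fin 2) k) (p : Sg n → k) :
    toM ((actn k i).ρ g p) = emb i (g : Matrix (Fin 2) (Fin 2) k) * toM p *
      emb i ((g⁻¹ : Matrix.SpecialLinearGroup (Fin 2) k) : Matrix (Fin 2) (Fin 2) k) := by
  ext a b; rfl

theorem gn_flag {i : Fin n} {v u : Wn n} (h : asc i v) {M : Sg n → k}
    (hM : M ∈ En k v u ∪ En k (sw i * v) u) (g : Matrix.SpecialLinearGroup (Fin 2) k) :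
    ∃ (G c : Mx n k) (y : Wn n), G.det ≠ 0 ∧ UT c ∧
      toM ((actn k i).ρ g M) * G = G * c ∧ InC y G ∧ (∀ l m, rk y l m ≤ rk v l m) ∧
      mnr (mv_le i v) (ra i v) G = g 0 0 * Lfn i v u M 0 + g 0 1 * Lfn i v u M 1 ∧
      mnr (mv_le i v) (rb i v) G = g 1 0 * Lfn i v u M 0 + g 1 1 * Lfn i v u M 1 := by
  have heig : toM M * (Wm (toM M) * PM k u) = (Wm (toM M) * PM k u) *
      Matrix.diagonal (fun b => M (u b, u b)) := by
    rcases hM with hM | hM
    · exact gn_eig hM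
    · exact gn_eig hM
  have hdet : ((g : Matrix (Fin 2) (Fin 2) k)).det ≠ 0 := by rw [g.det_coe]; exact one_ne_zero
  have hC : ∃ y, InC y (emb i (g : Matrix (Fin 2) (Fin 2) k) * (Wm (toM M) * PM k u)) ∧
      ∀ l m, rk y l m ≤ rk v l m := by
    rcases hM with hM | hM
    · rcases InC.emb_left hM.2.2 i (g : Matrix (Fin 2) (Fin 2) k) hdet with h1 | h1
      · exact ⟨v, h1, fun l m => le_rfl⟩
      · exact ⟨sw i * v, h1, fun l m => rk_sw_le i v h l m⟩
    · rcases InC.emb_left hM.2.2 i (g : Matrix (Fin 2) (Fin 2) k) hdet with h1 | h1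
      · exact ⟨sw i * v, h1, fun l m => rk_sw_le i v h l m⟩
      · refine ⟨v, ?_, fun l m => le_rfl⟩
        rwa [← mul_assoc, sw_sq, one_mul] at h1
  obtain ⟨y, hy, hrk⟩ := hC
  refine ⟨emb i (g : Matrix (Fin 2) (Fin 2) k) * (Wm (toM M) * PM k u),
    Matrix.diagonal (fun b => M (u b, u b)), y, hy.det_ne, gn_UT_diag _, ?_, hy, hrk, ?_, ?_⟩
  · rw [gn_toM_act]
    calc emb i (g : Matrix (Fin 2) (Fin 2) k) * toM M *
          emb i ((g⁻¹ : Matrix.SpecialLinearGroup (Fin 2) k) : Matrix (Fin 2) (Fin 2) k) *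
          (emb i (g : Matrix (Fin 2) (Fin 2) k) * (Wm (toM M) * PM k u))
        = emb i (g : Matrix (Fin 2) (Fin 2) k) * toM M *
          ((emb i ((g⁻¹ : Matrix.SpecialLinearGroup (Fin 2) k) : Matrix (Fin 2) (Fin 2) k) *
          emb i (g : Matrix (Fin 2) (Fin 2) k)) * (Wm (toM M) * PM k u)) := by
          simp only [Matrix.mul_assoc]
      _ = emb i (g : Matrix (Fin 2) (Fin 2) k) * (toM M * (Wm (toM M) * PM k u)) := by
          rw [gn_emb_inv, Matrix.one_mul, Matrix.mul_assoc]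
      _ = _ := by rw [heig]; simp only [Matrix.mul_assoc]
  · rw [mnr_ra_emb h]; rfl
  · rw [mnr_rb_emb h]; rfl

/-! ### block upper triangular matrices -/

/-- upper triangular except for the entry `(i+1,i)` -/
def gnBU (i : Fin n) (M : Mx n k) : Prop :=
  ∀ a b, b < a → ¬ (a = i.succ ∧ b = i.castSucc) → M a b = 0

theorem gnBU_of_UT {i : Fin n} {M : Mx n k} (h : UT M) : gnBU i M := fun a b hab _ => h a b hab

theorem gnBU_mul {i : Fin n} {M N : Mx n k} (hM : gnBU i M) (hN : gnBU i N) :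
    gnBU i (M * N) := by
  intro a b hab hne
  rw [Matrix.mul_apply]
  refine Finset.sum_eq_zero fun c _ => ?_
  have key : (c < a ∧ ¬ (a = i.succ ∧ c = i.castSucc)) ∨ (b < c ∧ ¬ (c = i.succ ∧ b = i.castSucc)) := by
    rw [Fin.lt_def] at hab
    rw [Fin.ext_iff, Fin.ext_iff, Fin.val_succ, Fin.val_castSucc] at hne
    rw [Fin.lt_def, Fin.lt_def, Fin.ext_iff, Fin.ext_iff, Fin.ext_iff, Fin.ext_iff, Fin.val_succ,
      Fin.val_castSucc]
    omega
  rcases key with ⟨h1, h2⟩ | ⟨h1, h2⟩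
  · rw [hM a c h1 h2, zero_mul]
  · rw [hN c b h1 h2, mul_zero]

theorem gnBU_emb (i : Fin n) (g : Matrix (Fin 2) (Fin 2) k) : gnBU i (emb i g) := by
  intro a b hab hne
  unfold emb
  rw [Fin.lt_def] at hab
  rw [Fin.ext_iff, Fin.ext_iff, Fin.val_succ, Fin.val_castSucc] at hne
  simp only [Fin.ext_iff, Fin.val_succ, Fin.val_castSucc]
  split_ifs <;> first | rfl | (exfalso; omega)

theorem gn_UT_of_mem {v u : Wn n} {i : Fin n} {M : Sg n → k}
    (hM : M ∈ En k v u ∪ En k (sw i * v) u) : UT (toM M) := by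
  rcases hM with hM | hM
  · exact hM.1
  · exact hM.1

theorem gn_low {v u : Wn n} {i : Fin n} {M : Sg n → k}
    (hM : M ∈ En k v u ∪ En k (sw i * v) u) (g : Matrix.SpecialLinearGroup (Fin 2) k)
    (a b : Fin (n + 1)) (hab : b < a) (hne : ¬ (a = i.succ ∧ b = i.castSucc)) :
    (actn k i).ρ g M (a, b) = 0 := by
  have h1 : gnBU i (toM ((actn k i).ρ g M)) := by
    rw [gn_toM_act]
    exact gnBU_mul (gnBU_mul (gnBU_emb i _) (gnBU_of_UT (gn_UT_of_mem hM))) (gnBU_emb i _)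
  exact h1 a b hab hne

/-! ### growth of `En` -/

theorem gn_mem_of_ker {σ' K : Type} [Field K] [Algebra k K] {q : Ideal (MvPolynomial σ' k)}
    {φ : MvPolynomial σ' k →ₐ[k] K} (hq : RingHom.ker φ = q) {p : MvPolynomial σ' k}
    (hp : p ∈ q) : φ p = 0 := by
  rw [← hq] at hp
  exact hp

theorem gr_En [CharZero k] (v u : Wn n) :
    Gr (wt (n := n)) (vI (En k v u)) ((An n).card - len v) := by
  refine gr_of_param (degn n) (fun j => by simp [degn, wt]) (isHom_vI sep_Ln (En_T v u)) ?_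
  intro q hq hle
  obtain ⟨K, _, _, φ, G, C', p0, y', hker, hG, hC, hMG, hp0, hy', hrk, -⟩ :=
    spec (fun a b => ((a, b) : Sg n)) (En k v u) (fun p => Wm (toM p) * PM k u)
      (fun p => Matrix.diagonal (fun b => p (u b, u b))) (fun _ => v)
      (fun p hp => hp.2.2.det_ne) (fun p _ => gn_UT_diag _) (fun p hp => gn_eig hp)
      (fun p hp => hp.2.2) q hq hle
  have hUT : UT (Matrix.of (fun a b => φ (X (a, b))) : Mx n K) := by
    intro a b hab
    refine gn_mem_of_ker hker (hle ?_)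
    intro p hp
    rw [eval_X]
    exact hp.1 a b hab
  obtain ⟨s, p, G0, D, hs, hMb, -, -, -, -⟩ := count (k := k) _ G C' hUT hG hC hMG y' hy'
  have hlen := (len_le_of_rk v y' hrk).1
  have hcard : (An n).card = nA n := rfl
  refine ParamLE.mono (s := s) ⟨K, _, _, φ, hker, p, ?_⟩ (by omega)
  rintro ⟨a, b⟩
  exact hMb a b

/-! ### the sweeps -/

theorem gn_vI_le {σ' : Type} {S : Set (σ' → k)} {T : Set (MvPolynomial σ' k)}
    {q : Ideal (MvPolynomial σ' k)} (hle : vI S ⊔ Ideal.span T ≤ q) : vI S ≤ q :=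
  le_trans le_sup_left hle

theorem gn_span_le {σ' : Type} {S : Set (σ' → k)} {T : Set (MvPolynomial σ' k)}
    {q : Ideal (MvPolynomial σ' k)} (hle : vI S ⊔ Ideal.span T ≤ q) {x : MvPolynomial σ' k}
    (hx : x ∈ T) : x ∈ q :=
  hle (Ideal.mem_sup_right (Ideal.subset_span hx))

/-- the invariant relation `H² = h² + 4 e f` on the sweep -/
theorem gn_rel {i : Fin n} {Z : Set (Sg n ⊕ Fin 3 → k)}
    (hf : ∀ z ∈ Z, z (Sum.inl (actn k i).fi) = 0)
    (hH : ∀ z ∈ Z, z (Sum.inr 0) = eval (z ∘ Sum.inl) (actn k i).h) :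
    (X (Sum.inr 0) : MvPolynomial (Sg n ⊕ Fin 3) k) ^ 2 - (rename Sum.inl (actn k i).h) ^ 2 -
      4 * X (Sum.inl (actn k i).ei) * X (Sum.inl (actn k i).fi) ∈ vI ((exn k i).orb Z) := by
  rintro p ⟨g, z, hz, rfl⟩
  have hdet := g.det_coe
  rw [Matrix.det_fin_two] at hdet
  have he := (exn k i).tr_e g z
  have hh := (exn k i).tr_h g z
  have hf' := (exn k i).tr_f g z
  have hHi := (exn k i).tr_H g z
  change (exn k i).ρ g z (Sum.inl (actn k i).ei) = _ at he
  change eval ((exn k i).ρ g z) (rename Sum.inl (actn k i).h) = _ at hh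
  change (exn k i).ρ g z (Sum.inl (actn k i).fi) = _ at hf'
  change (exn k i).ρ g z (Sum.inr 0) = z (Sum.inr 0) at hHi
  have e1 : eval z (exn k i).h = eval (z ∘ Sum.inl) (actn k i).h := by
    change eval z (rename Sum.inl (actn k i).h) = _
    rw [eval_rename]
  have e2 : z (exn k i).fi = 0 := hf z hz
  have e3 := hH z hz
  rw [e1, e2] at he hh hf'
  rw [e3] at hHi
  simp only [map_sub, map_pow, map_mul, eval_X, map_ofNat]
  rw [he, hh, hf', hHi]
  have h4 : (eval (z ∘ Sum.inl) (actn k i).h) ^ 2 *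
      ((g 0 0 * g 1 1 - g 0 1 * g 1 0) ^ 2 - 1) = 0 := by rw [hdet]; ring
  linear_combination (-1) * h4

theorem gn_prime [CharZero k] {i : Fin n} {v u : Wn n} (h : asc i v)
    {Z : Set (Sg n ⊕ Fin 3 → k)}
    (hZ1 : ∀ z ∈ Z, z ∘ Sum.inl ∈ En k v u ∪ En k (sw i * v) u)
    (hZ2 : ∀ z ∈ Z, z (Sum.inr 0) = eval (z ∘ Sum.inl) (actn k i).h)
    (hZ3 : ∀ z ∈ Z, z (Sum.inr 1) * Lfn i v u (z ∘ Sum.inl) 1
      = z (Sum.inr 2) * Lfn i v u (z ∘ Sum.inl) 0)
    (q : Ideal (MvPolynomial (Sg n ⊕ Fin 3) k)) (hq : q.IsPrime)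
    (hle : vI ((exn k i).orb Z) ⊔
      Ideal.span {X (Sum.inl (actn k i).fi), X (Sum.inr 0)} ≤ q) :
    ∃ (K : Type) (_ : Field K) (_ : Algebra k K)
      (φ : MvPolynomial (Sg n ⊕ Fin 3) k →ₐ[k] K) (s : ℕ) (p : Fin s → K)
      (G G0 D : Mx n K) (y' : Wn n), RingHom.ker φ = q ∧ s + 1 + len y' ≤ nA n ∧
      (∀ l m, rk y' l m ≤ rk v l m) ∧ InC y' G ∧
      (∀ a b, φ (X (Sum.inl (a, b))) ∈ IntermediateField.adjoin k (Set.range p)) ∧
      φ (X (Sum.inr 0)) = 0 ∧
      (∀ a b, G0 a b ∈ IntermediateField.adjoin k (Set.range p)) ∧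
      UT D ∧ D.det ≠ 0 ∧ G = G0 * D ∧
      mnr (mv_le i v) (ra i v) G * φ (X (Sum.inr 2))
        = mnr (mv_le i v) (rb i v) G * φ (X (Sum.inr 1)) := by
  have key : ∀ p : Sg n ⊕ Fin 3 → k, ∃ (G c : Mx n k) (y : Wn n),
      p ∈ (exn k i).orb Z → G.det ≠ 0 ∧ UT c ∧ toM (p ∘ Sum.inl) * G = G * c ∧ InC y G ∧
        (∀ l m, rk y l m ≤ rk v l m) ∧
        mnr (mv_le i v) (ra i v) G * p (Sum.inr 2) = mnr (mv_le i v) (rb i v) G * p (Sum.inr 1) := by
    intro p
    by_cases hp : p ∈ (exn k i).orb Z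
    · obtain ⟨g, z, hz, rfl⟩ := hp
      obtain ⟨G, c, y, h1, h2, h3, h4, h5, h6, h7⟩ := gn_flag h (hZ1 z hz) g
      refine ⟨G, c, y, fun _ => ⟨h1, h2, h3, h4, h5, ?_⟩⟩
      rw [h6, h7]
      change _ * (g 1 0 * z (Sum.inr 1) + g 1 1 * z (Sum.inr 2))
        = _ * (g 0 0 * z (Sum.inr 1) + g 0 1 * z (Sum.inr 2))
      have := hZ3 z hz
      linear_combination (g 0 1 * g 1 0 - g 0 0 * g 1 1) * this
    · exact ⟨1, 1, 1, fun h => absurd h hp⟩
  choose gf cf yf hkey using key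
  obtain ⟨K, _, _, φ, G, C', p0, y', hker, hG, hC, hMG, hp0, hy', hrk, hmn⟩ :=
    spec (fun a b => (Sum.inl (a, b) : Sg n ⊕ Fin 3)) ((exn k i).orb Z) gf cf yf
      (fun p hp => (hkey p hp).1) (fun p hp => (hkey p hp).2.1)
      (fun p hp => (hkey p hp).2.2.1) (fun p hp => (hkey p hp).2.2.2.1) q hq (gn_vI_le hle)
  have hrkv : ∀ l m, rk y' l m ≤ rk v l m :=
    fun l m => le_trans (hrk l m) ((hkey p0 hp0).2.2.2.2.1 l m)
  have hf : φ (X (Sum.inl (actn k i).fi)) = 0 :=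
    gn_mem_of_ker hker (gn_span_le hle (by simp))
  have hH : φ (X (Sum.inr 0)) = 0 := gn_mem_of_ker hker (gn_span_le hle (by simp))
  have hUT : UT (Matrix.of (fun a b => φ (X (Sum.inl (a, b)))) : Mx n K) := by
    intro a b hab
    by_cases hne : a = i.succ ∧ b = i.castSucc
    · obtain ⟨rfl, rfl⟩ := hne
      exact hf
    · refine gn_mem_of_ker hker (gn_vI_le hle ?_)
      rintro p ⟨g, z, hz, rfl⟩
      rw [eval_X]
      exact gn_low (hZ1 z hz) g a b hab hne
  have hrel := gn_mem_of_ker hker (gn_vI_le hle (gn_rel (k := k) (i := i) (Z := Z)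
    (fun z hz => by
      have := gn_UT_of_mem (hZ1 z hz) i.succ i.castSucc Fin.castSucc_lt_succ
      exact this) hZ2))
  have hd : (Matrix.of (fun a b => φ (X (Sum.inl (a, b)))) : Mx n K) i.castSucc i.castSucc
      = (Matrix.of (fun a b => φ (X (Sum.inl (a, b)))) : Mx n K) i.succ i.succ := by
    simp only [map_sub, map_pow, map_mul, hf, hH] at hrel
    have h1 : (φ (rename Sum.inl (actn k i).h)) ^ 2 = 0 := by
      linear_combination (-1) * hrel
    have h2 : φ (rename Sum.inl (actn k i).h) = 0 := by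
      exact pow_eq_zero_iff (two_ne_zero) |>.mp h1
    have h3 : φ (rename Sum.inl (actn k i).h)
        = φ (X (Sum.inl (i.castSucc, i.castSucc))) - φ (X (Sum.inl (i.succ, i.succ))) := by
      change φ (rename Sum.inl (X (i.castSucc, i.castSucc) - X (i.succ, i.succ))) = _
      rw [map_sub, rename_X, rename_X, map_sub]
    rw [h3] at h2
    exact sub_eq_zero.mp h2
  obtain ⟨s, p, G0, D, hs, hMb, hG0, hD, hD', hGD⟩ :=
    count' (k := k) _ G C' hUT hG hC hMG y' hy' i hd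
  refine ⟨K, _, _, φ, s, p, G, G0, D, y', hker, hs, hrkv, hy', fun a b => hMb a b, hH, hG0, hD,
    hD', hGD, ?_⟩
  exact hmn _ (mv_le i v) (ra i v) (rb i v) (Sum.inr 1) (Sum.inr 2)
    (fun p hp => (hkey p hp).2.2.2.2.2)

/-! ### torus stability -/

theorem gn_wt_diag (a : Fin (n + 1)) : wt ((a, a) : Sg n) = hbn := by
  simp [wt, hbn]

theorem gn_eval_h (i : Fin n) (χ : Multiplicative (Ln n) →* kˣ) (p : Sg n → k) :
    eval (tact (wt (n := n)) χ p) (actn k i).h
      = (χ (Multiplicative.ofAdd hbn) : k) * eval p (actn k i).h := by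
  change eval (tact (wt (n := n)) χ p) (X (i.castSucc, i.castSucc) - X (i.succ, i.succ))
    = _ * eval p (X (i.castSucc, i.castSucc) - X (i.succ, i.succ))
  rw [map_sub, map_sub, eval_X, eval_X, eval_X, eval_X]
  simp only [tact, gn_wt_diag]
  ring

theorem gn_tact_inl (i : Fin n) (χ : Multiplicative (Ln n) →* kˣ) (z : Sg n ⊕ Fin 3 → k) :
    (tact (wx (wt (n := n)) hbn (wy1n i) (wy2n i)) χ z) ∘ Sum.inl
      = tact (wt (n := n)) χ (z ∘ Sum.inl) := by
  ext j; rfl

theorem gn_orb_T (i : Fin n) {Z : Set (Sg n ⊕ Fin 3 → k)}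
    (hZ : TStable (wx (wt (n := n)) hbn (wy1n i) (wy2n i)) Z) :
    TStable (wx (wt (n := n)) hbn (wy1n i) (wy2n i)) ((exn k i).orb Z) := by
  rintro χ p ⟨g, z, hz, rfl⟩
  exact ⟨_, _, hZ χ z hz, (exn k i).tor χ g z⟩

theorem gn_Eh_T {i : Fin n} {v u : Wn n} (χ : Multiplicative (Ln n) →* kˣ) {M : Sg n → k}
    (hM : M ∈ En k v u ∪ En k (sw i * v) u) :
    tact (wt (n := n)) χ M ∈ En k v u ∪ En k (sw i * v) u := by
  rcases hM with hM | hM
  · exact Or.inl (En_T v u χ M hM)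
  · exact Or.inr (En_T (sw i * v) u χ M hM)

theorem gn_lift0_T (i : Fin n) (v u : Wn n) :
    TStable (wx (wt (n := n)) hbn (wy1n i) (wy2n i))
      (lift0 (actn k i).h (En k v u ∪ En k (sw i * v) u)) := by
  rintro χ z ⟨h1, h2, h3, h4⟩
  refine ⟨?_, ?_, ?_, ?_⟩
  · rw [gn_tact_inl]; exact gn_Eh_T χ h1
  · rw [gn_tact_inl, gn_eval_h, ← h2]; rfl
  · change _ * z (Sum.inr 1) = 0
    rw [h3, mul_zero]
  · change _ * z (Sum.inr 2) = 0
    rw [h4, mul_zero]

theorem gn_liftP_T (i : Fin n) (v u : Wn n) (h : asc i v) :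
    TStable (wx (wt (n := n)) hbn (wy1n i) (wy2n i))
      (liftP (actn k i).h (Lfn i v u) (En k v u ∪ En k (sw i * v) u)) := by
  rintro χ z ⟨h1, h2, h3⟩
  refine ⟨?_, ?_, ?_⟩
  · rw [gn_tact_inl]; exact gn_Eh_T χ h1
  · rw [gn_tact_inl, gn_eval_h, ← h2]; rfl
  · rw [gn_tact_inl]
    obtain ⟨c, -, hc⟩ := L_T i v u h _ h1 χ
    rw [hc]
    change ((χ (Multiplicative.ofAdd (wy1n i)) : k) * z (Sum.inr 1)) *
        (c * ((χ (Multiplicative.ofAdd (wy2n i)) : k) * Lfn i v u (z ∘ Sum.inl) 1))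
      = ((χ (Multiplicative.ofAdd (wy2n i)) : k) * z (Sum.inr 2)) *
        (c * ((χ (Multiplicative.ofAdd (wy1n i)) : k) * Lfn i v u (z ∘ Sum.inl) 0))
    linear_combination (c * (χ (Multiplicative.ofAdd (wy1n i)) : k) *
      (χ (Multiplicative.ofAdd (wy2n i)) : k)) * h3

theorem gn_isHom (i : Fin n) [CharZero k] {Z : Set (Sg n ⊕ Fin 3 → k)}
    (hZ : TStable (wx (wt (n := n)) hbn (wy1n i) (wy2n i)) Z) :
    IsHom (wx (wt (n := n)) hbn (wy1n i) (wy2n i)) (vI ((exn k i).orb Z) ⊔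
        Ideal.span {X (Sum.inl (actn k i).fi), X (Sum.inr 0)}) := by
  refine (isHom_vI sep_Ln (gn_orb_T i hZ)).sup (isHom_span ?_)
  rintro p (rfl | rfl)
  · exact ⟨_, isWeightedHomogeneous_X _ _ _⟩
  · exact ⟨_, isWeightedHomogeneous_X _ _ _⟩

theorem gn_deg (i : Fin n) (j : Sg n ⊕ Fin 3) :
    degn n (wx (wt (n := n)) hbn (wy1n i) (wy2n i) j) = 1 := by
  rcases j with j | j
  · simp [degn, wx, wt]
  · fin_cases j
    · simp [degn, wx, hbn]
    · simp [degn, wx, wy1n]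
    · simp [degn, wx, wy2n]

theorem ne1_n [CharZero k] (i : Fin n) (v u : Wn n) (h : asc i v) :
    Gr (wx (wt (n := n)) hbn (wy1n i) (wy2n i))
      (vI ((exn k i).orb (lift0 (actn k i).h (En k v u ∪ En k (sw i * v) u))) ⊔
        Ideal.span {X (Sum.inl (actn k i).fi), X (Sum.inr 0)}) ((An n).card - len v - 1) := by
  refine gr_of_param (degn n) (gn_deg i) (gn_isHom i (gn_lift0_T i v u)) ?_
  intro q hq hle
  obtain ⟨K, _, _, φ, s, p, G, G0, D, y', hker, hs, hrk, hy', hMb, hH, hG0, hD, hD', hGD, hmn⟩ :=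
    gn_prime h (Z := lift0 (actn k i).h (En k v u ∪ En k (sw i * v) u))
      (fun z hz => hz.1) (fun z hz => hz.2.1)
      (fun z hz => by rw [hz.2.2.1, hz.2.2.2, zero_mul, zero_mul]) q hq hle
  have hlen := (len_le_of_rk v y' hrk).1
  have hcard : (An n).card = nA n := rfl
  have h1 : φ (X (Sum.inr 1)) = 0 := by
    refine gn_mem_of_ker hker (gn_vI_le hle ?_)
    rintro p ⟨g, z, hz, rfl⟩
    rw [eval_X]
    change g 0 0 * z (Sum.inr 1) + g 0 1 * z (Sum.inr 2) = _
    rw [hz.2.2.1, hz.2.2.2, mul_zero, mul_zero, add_zero]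
  have h2 : φ (X (Sum.inr 2)) = 0 := by
    refine gn_mem_of_ker hker (gn_vI_le hle ?_)
    rintro p ⟨g, z, hz, rfl⟩
    rw [eval_X]
    change g 1 0 * z (Sum.inr 1) + g 1 1 * z (Sum.inr 2) = _
    rw [hz.2.2.1, hz.2.2.2, mul_zero, mul_zero, add_zero]
  refine ParamLE.mono (s := s) ⟨K, _, _, φ, hker, p, ?_⟩ (by omega)
  rintro (⟨a, b⟩ | j)
  · exact hMb a b
  · fin_cases j
    · change φ (X (Sum.inr 0)) ∈ _
      rw [hH]; exact zero_mem _
    · change φ (X (Sum.inr 1)) ∈ _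
      rw [h1]; exact zero_mem _
    · change φ (X (Sum.inr 2)) ∈ _
      rw [h2]; exact zero_mem _

theorem gn_mnr_mem {K : Type} [Field K] [Algebra k K] (F : IntermediateField k K) {m : ℕ}
    (hm : m ≤ n + 1) (ρ : Fin m → Fin (n + 1)) {G : Mx n K} (hG : ∀ a b, G a b ∈ F) :
    mnr hm ρ G ∈ F := by
  unfold mnr
  rw [Matrix.det_apply']
  refine sum_mem fun σ _ => mul_mem ?_ (prod_mem fun j _ => hG _ _)
  exact intCast_mem F _

theorem ne2_n [CharZero k] (i : Fin n) (v u : Wn n) (h : asc i v) :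
    Gr (wx (wt (n := n)) hbn (wy1n i) (wy2n i))
      (vI ((exn k i).orb (liftP (actn k i).h (Lfn i v u) (En k v u ∪ En k (sw i * v) u))) ⊔
        Ideal.span {X (Sum.inl (actn k i).fi), X (Sum.inr 0)}) ((An n).card - len v) := by
  refine gr_of_param (degn n) (gn_deg i) (gn_isHom i (gn_liftP_T i v u h)) ?_
  intro q hq hle
  obtain ⟨K, _, _, φ, s, p, G, G0, D, y', hker, hs, hrk, hy', hMb, hH, hG0, hD, hD', hGD, hmn⟩ :=
    gn_prime h (Z := liftP (actn k i).h (Lfn i v u) (En k v u ∪ En k (sw i * v) u))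
      (fun z hz => hz.1) (fun z hz => hz.2.1) (fun z hz => hz.2.2) q hq hle
  have hlen := len_le_of_rk v y' hrk
  have hcard : (An n).card = nA n := rfl
  by_cases hyv : y' = v
  · -- one extra parameter
    have hra : mnr (mv_le i v) (ra i v) G ≠ 0 := mnr_ra_ne h (hyv ▸ hy')
    have hsub : IntermediateField.adjoin k (Set.range p) ≤
        IntermediateField.adjoin k (Set.range (Fin.cons (φ (X (Sum.inr 1))) p : Fin (s + 1) → K)) := by
      refine IntermediateField.adjoin.mono _ _ _ ?_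
      rw [Fin.range_cons]
      exact Set.subset_insert _ _
    have hY1 : φ (X (Sum.inr 1)) ∈ IntermediateField.adjoin k
        (Set.range (Fin.cons (φ (X (Sum.inr 1))) p : Fin (s + 1) → K)) := by
      refine IntermediateField.subset_adjoin _ _ ?_
      rw [Fin.range_cons]
      exact Set.mem_insert _ _
    have hra0 : mnr (mv_le i v) (ra i v) G0 ∈ IntermediateField.adjoin k (Set.range p) :=
      gn_mnr_mem _ _ _ hG0
    have hrb0 : mnr (mv_le i v) (rb i v) G0 ∈ IntermediateField.adjoin k (Set.range p) :=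
      gn_mnr_mem _ _ _ hG0
    have hra' := mnr_right (mv_le i v) (ra i v) G0 hD
    have hrb' := mnr_right (mv_le i v) (rb i v) G0 hD
    rw [← hGD] at hra' hrb'
    rw [hra'] at hra hmn
    rw [hrb'] at hmn
    have hne1 := left_ne_zero_of_mul hra
    have hne2 := right_ne_zero_of_mul hra
    have hY2 : φ (X (Sum.inr 2)) =
        mnr (mv_le i v) (rb i v) G0 / mnr (mv_le i v) (ra i v) G0 * φ (X (Sum.inr 1)) := by
      rw [div_mul_eq_mul_div, eq_div_iff hne1]
      have h3 : (∏ j : Fin (mv i v), D (Fin.castLE (mv_le i v) j) (Fin.castLE (mv_le i v) j)) *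
          (φ (X (Sum.inr 2)) * mnr (mv_le i v) (ra i v) G0 -
            mnr (mv_le i v) (rb i v) G0 * φ (X (Sum.inr 1))) = 0 := by
        linear_combination hmn
      exact sub_eq_zero.mp ((mul_eq_zero.mp h3).resolve_left hne2)
    refine ParamLE.mono (s := s + 1)
      ⟨K, _, _, φ, hker, Fin.cons (φ (X (Sum.inr 1))) p, ?_⟩ (by subst hyv; omega)
    rintro (⟨a, b⟩ | j)
    · exact hsub (hMb a b)
    · fin_cases j
      · change φ (X (Sum.inr 0)) ∈ _
        rw [hH]; exact zero_mem _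
      · exact hY1
      · change φ (X (Sum.inr 2)) ∈ _
        rw [hY2]
        exact mul_mem (div_mem (hsub hrb0) (hsub hra0)) hY1
  · -- two extra parameters
    have hlt : len v < len y' := by
      by_contra hcon
      exact hyv (hlen.2 (not_lt.mp hcon))
    refine ParamLE.mono (s := s + 2) ⟨K, _, _, φ, hker,
      Fin.cons (φ (X (Sum.inr 2))) (Fin.cons (φ (X (Sum.inr 1))) p : Fin (s + 1) → K), ?_⟩
      (by omega)
    have hsub : IntermediateField.adjoin k (Set.range p) ≤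
        IntermediateField.adjoin k (Set.range (Fin.cons (φ (X (Sum.inr 2)))
          (Fin.cons (φ (X (Sum.inr 1))) p : Fin (s + 1) → K) : Fin (s + 2) → K)) := by
      refine IntermediateField.adjoin.mono _ _ _ ?_
      rw [Fin.range_cons, Fin.range_cons]
      exact (Set.subset_insert _ _).trans (Set.subset_insert _ _)
    rintro (⟨a, b⟩ | j)
    · exact hsub (hMb a b)
    · fin_cases j
      · change φ (X (Sum.inr 0)) ∈ _
        rw [hH]; exact zero_mem _
      · change φ (X (Sum.inr 1)) ∈ _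
        refine IntermediateField.subset_adjoin _ _ ?_
        rw [Fin.range_cons, Fin.range_cons]
        exact Set.mem_insert_of_mem _ (Set.mem_insert _ _)
      · change φ (X (Sum.inr 2)) ∈ _
        refine IntermediateField.subset_adjoin _ _ ?_
        rw [Fin.range_cons]
        exact Set.mem_insert _ _

end Pool.Agent.CSM.GL
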