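import Pool.Agent.CSM.GL.EmbAux
import Pool.Agent.CSM.Ext

/-! # GL_{n+1}: the data of the Schubert model -/

open Matrix MvPolynomial

noncomputable section

namespace Pool.Agent.CSM.GL

variable {n : ℕ} {k : Type} [Field k]

/-- coordinates of matrices -/
abbrev Sg (n : ℕ) := Fin (n + 1) × Fin (n + 1)
/-- weight lattice: torus characters, `ħ`, and the scaling of `y` -/
abbrev Ln (n : ℕ) := (Fin (n + 1) → ℤ) × ℤ × ℤ

def wt (p : Sg n) : Ln n := (Pi.single p.1 1 - Pi.single p.2 1, 1, 0)
def hbn : Ln n := (0, 1, 0)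
def aln (i : Fin n) : Ln n := (Pi.single i.castSucc 1 - Pi.single i.succ 1, 0, 0)
def wy1n (i : Fin n) : Ln n := (Pi.single i.castSucc 1, 0, 1)
def wy2n (i : Fin n) : Ln n := (Pi.single i.succ 1, 0, 1)

/-- the reflection on weights -/
def sLn (i : Fin n) : Ln n ≃+ Ln n where
  toFun x := (x.1 ∘ sw i, x.2)
  invFun x := (x.1 ∘ sw i, x.2)
  left_inv x := by
    refine Prod.ext ?_ rfl
    funext a; simp [sw]
  right_inv x := by
    refine Prod.ext ?_ rfl
    funext a; simp [sw]
  map_add' x y := rfl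

/-- the matrix of a point -/
def toM (p : Sg n → k) : Mx n k := Matrix.of fun a b => p (a, b)

/-- the sign of the action of the Weyl element -/
def eta (k : Type) [Field k] (i : Fin n) (a : Fin (n + 1)) : kˣ := if a = i.succ then -1 else 1

/-! ### lemmas for the conjugation action -/

theorem gc_toM_add (p q : Sg n → k) : toM (p + q) = toM p + toM q := rfl

theorem gc_toM_smul (c : k) (p : Sg n → k) : toM (c • p) = c • toM p := rfl

omit [Field k] in
theorem gc_toM_fun (N : Mx n k) : toM (fun ab => N ab.1 ab.2) = N := rfl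

/-- block entries of a conjugate -/
theorem gc_conj00 (i : Fin n) (g g' : Matrix (Fin 2) (Fin 2) k) (M : Mx n k) :
    (emb i g * M * emb i g') i.castSucc i.castSucc =
      (g 0 0 * M i.castSucc i.castSucc + g 0 1 * M i.succ i.castSucc) * g' 0 0 +
      (g 0 0 * M i.castSucc i.succ + g 0 1 * M i.succ i.succ) * g' 1 0 := by
  rw [gc_cmul0, gc_mul0, gc_mul0]

theorem gc_conj01 (i : Fin n) (g g' : Matrix (Fin 2) (Fin 2) k) (M : Mx n k) :
    (emb i g * M * emb i g') i.castSucc i.succ =
      (g 0 0 * M i.castSucc i.castSucc + g 0 1 * M i.succ i.castSucc) * g' 0 1 +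
      (g 0 0 * M i.castSucc i.succ + g 0 1 * M i.succ i.succ) * g' 1 1 := by
  rw [gc_cmul1, gc_mul0, gc_mul0]

theorem gc_conj10 (i : Fin n) (g g' : Matrix (Fin 2) (Fin 2) k) (M : Mx n k) :
    (emb i g * M * emb i g') i.succ i.castSucc =
      (g 1 0 * M i.castSucc i.castSucc + g 1 1 * M i.succ i.castSucc) * g' 0 0 +
      (g 1 0 * M i.castSucc i.succ + g 1 1 * M i.succ i.succ) * g' 1 0 := by
  rw [gc_cmul0, gc_mul1, gc_mul1]

theorem gc_conj11 (i : Fin n) (g g' : Matrix (Fin 2) (Fin 2) k) (M : Mx n k) :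
    (emb i g * M * emb i g') i.succ i.succ =
      (g 1 0 * M i.castSucc i.castSucc + g 1 1 * M i.succ i.castSucc) * g' 0 1 +
      (g 1 0 * M i.castSucc i.succ + g 1 1 * M i.succ i.succ) * g' 1 1 := by
  rw [gc_cmul1, gc_mul1, gc_mul1]

/-- the matrix unit at position `(i, i+1)` as a polynomial matrix coefficient -/
def gc_ux (i : Fin n) (a b : Fin (n + 1)) : k := if a = i.castSucc ∧ b = i.succ then 1 else 0

def gc_uy (i : Fin n) (a b : Fin (n + 1)) : k := if a = i.succ ∧ b = i.castSucc then 1 else 0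

theorem gc_emb_xx (i : Fin n) (t : k) (a b : Fin (n + 1)) :
    emb i ((xx t : Matrix.SpecialLinearGroup (Fin 2) k) : Matrix (Fin 2) (Fin 2) k) a b =
      (if a = b then 1 else 0) + t * gc_ux i a b := by
  by_cases h0 : a = i.castSucc
  · subst h0
    by_cases hb0 : b = i.castSucc
    · subst hb0; simp [emb, xx, gc_ux, gc_ne' i]
    · by_cases hb1 : b = i.succ
      · subst hb1; simp [emb, xx, gc_ux, gc_ne i, gc_ne' i]
      · have : i.castSucc ≠ b := fun h => hb0 h.symm
        simp [emb, gc_ux, hb0, hb1, this]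
  · by_cases h1 : a = i.succ
    · subst h1
      by_cases hb0 : b = i.castSucc
      · subst hb0; simp [emb, xx, gc_ux, gc_ne i]
      · by_cases hb1 : b = i.succ
        · subst hb1; simp [emb, xx, gc_ux, gc_ne i]
        · have : i.succ ≠ b := fun h => hb1 h.symm
          simp [emb, gc_ux, hb0, hb1, this, gc_ne i]
    · simp [emb, gc_ux, h0, h1]

theorem gc_emb_yy (i : Fin n) (t : k) (a b : Fin (n + 1)) :
    emb i ((yy t : Matrix.SpecialLinearGroup (Fin 2) k) : Matrix (Fin 2) (Fin 2) k) a b =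
      (if a = b then 1 else 0) + t * gc_uy i a b := by
  by_cases h0 : a = i.castSucc
  · subst h0
    by_cases hb0 : b = i.castSucc
    · subst hb0; simp [emb, yy, gc_uy, gc_ne' i]
    · by_cases hb1 : b = i.succ
      · subst hb1; simp [emb, yy, gc_uy, gc_ne i, gc_ne' i]
      · have : i.castSucc ≠ b := fun h => hb0 h.symm
        simp [emb, gc_uy, hb0, hb1, this]
  · by_cases h1 : a = i.succ
    · subst h1
      by_cases hb0 : b = i.castSucc
      · subst hb0; simp [emb, yy, gc_uy, gc_ne i]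
      · by_cases hb1 : b = i.succ
        · subst hb1; simp [emb, yy, gc_uy, gc_ne i]
        · have : i.succ ≠ b := fun h => hb1 h.symm
          simp [emb, gc_uy, hb0, hb1, this, gc_ne i]
    · simp [emb, gc_uy, h0, h1]

theorem gc_xx_inv (t : k) : (xx t)⁻¹ = xx (-t) := by
  ext a b
  fin_cases a <;> fin_cases b
  · exact (gc_inv00 (xx t)).trans (by simp [xx])
  · exact (gc_inv01 (xx t)).trans (by simp [xx])
  · exact (gc_inv10 (xx t)).trans (by simp [xx])
  · exact (gc_inv11 (xx t)).trans (by simp [xx])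

theorem gc_yy_inv (t : k) : (yy t)⁻¹ = yy (-t) := by
  ext a b
  fin_cases a <;> fin_cases b
  · exact (gc_inv00 (yy t)).trans (by simp [yy])
  · exact (gc_inv01 (yy t)).trans (by simp [yy])
  · exact (gc_inv10 (yy t)).trans (by simp [yy])
  · exact (gc_inv11 (yy t)).trans (by simp [yy])

/-- a triple product written as a sum over positions -/
theorem gc_triple (A B : Mx n k) (p : Sg n → k) (a b : Fin (n + 1)) :
    (A * toM p * B) a b = ∑ l : Sg n, (A a l.1 * B l.2 b) * p l := by
  rw [Matrix.mul_apply, Fintype.sum_prod_type_right]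
  refine Finset.sum_congr rfl fun d _ => ?_
  rw [Matrix.mul_apply, Finset.sum_mul]
  refine Finset.sum_congr rfl fun c _ => ?_
  simp only [toM, Matrix.of_apply]
  ring

/-- the scalars of the torus action -/
def gc_T (χ : Multiplicative (Ln n) →* kˣ) (a : Fin (n + 1)) : kˣ :=
  χ (Multiplicative.ofAdd (Pi.single a 1, 0, 0))

theorem gc_wt (χ : Multiplicative (Ln n) →* kˣ) (a b : Fin (n + 1)) :
    χ (Multiplicative.ofAdd (wt (a, b))) =
      χ (Multiplicative.ofAdd hbn) * (gc_T χ a * (gc_T χ b)⁻¹) := by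
  have h : (wt (a, b) : Ln n) = hbn + ((Pi.single a 1, 0, 0) - (Pi.single b 1, 0, 0)) := by
    refine Prod.ext ?_ (Prod.ext ?_ ?_)
    · simp [wt, hbn]
    · simp [wt, hbn]
    · simp [wt, hbn]
  rw [h, ofAdd_add, map_mul, ofAdd_sub, map_div, gc_T, gc_T, div_eq_mul_inv]

theorem gc_al (χ : Multiplicative (Ln n) →* kˣ) (i : Fin n) :
    χ (Multiplicative.ofAdd (aln i)) = gc_T χ i.castSucc * (gc_T χ i.succ)⁻¹ := by
  have h : (aln i : Ln n) = (Pi.single i.castSucc 1, 0, 0) - (Pi.single i.succ 1, 0, 0) := by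
    refine Prod.ext ?_ (Prod.ext ?_ ?_)
    · simp [aln]
    · simp [aln]
    · simp [aln]
  rw [h, ofAdd_sub, map_div, gc_T, gc_T, div_eq_mul_inv]

/-- the torus acts on `toM p` by a scalar times conjugation by a diagonal matrix -/
theorem gc_toM_tact (χ : Multiplicative (Ln n) →* kˣ) (p : Sg n → k) :
    toM (tact (wt (n := n)) χ p) = (χ (Multiplicative.ofAdd hbn) : k) •
      (Matrix.diagonal (fun a => (gc_T χ a : k)) * toM p *
        Matrix.diagonal (fun a => (((gc_T χ a)⁻¹ : kˣ) : k))) := by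
  ext a b
  rw [Matrix.smul_apply, Matrix.mul_diagonal, Matrix.diagonal_mul]
  simp only [toM, Matrix.of_apply, tact, gc_wt, Units.val_mul, smul_eq_mul]
  ring

/-- conjugating `emb i g` by the torus -/
theorem gc_diag_emb (T : Fin (n + 1) → kˣ) (i : Fin n)
    (g : Matrix.SpecialLinearGroup (Fin 2) k) :
    Matrix.diagonal (fun a => (T a : k)) * emb i (g : Matrix (Fin 2) (Fin 2) k) *
      Matrix.diagonal (fun a => (((T a)⁻¹ : kˣ) : k)) =
      emb i ((cj (T i.castSucc * (T i.succ)⁻¹) g : Matrix.SpecialLinearGroup (Fin 2) k) :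
        Matrix (Fin 2) (Fin 2) k) := by
  ext a b
  rw [Matrix.mul_diagonal, Matrix.diagonal_mul]
  by_cases h0 : a = i.castSucc
  · subst h0
    by_cases hb0 : b = i.castSucc
    · subst hb0
      simp only [emb, cj, if_true]
      have hT : (T i.castSucc : k) ≠ 0 := Units.ne_zero _
      simp
      field_simp
    · by_cases hb1 : b = i.succ
      · subst hb1
        simp only [emb, cj, if_true, gc_ne i, if_false]
        simp
        ring
      · simp [emb, hb0, hb1]
  · by_cases h1 : a = i.succ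
    · subst h1
      by_cases hb0 : b = i.castSucc
      · subst hb0
        simp only [emb, cj, if_true, gc_ne i, if_false]
        simp
        ring
      · by_cases hb1 : b = i.succ
        · subst hb1
          simp only [emb, cj, if_true, gc_ne i, if_false]
          have hT : (T i.succ : k) ≠ 0 := Units.ne_zero _
          simp
          field_simp
        · simp [emb, hb0, hb1, gc_ne i]
    · by_cases hab : a = b
      · subst hab
        simp [emb, h0, h1]
      · simp [emb, h0, h1, hab]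

theorem gc_cj_inv (u : kˣ) (g : Matrix.SpecialLinearGroup (Fin 2) k) :
    (cj u g)⁻¹ = cj u g⁻¹ := by
  apply Matrix.SpecialLinearGroup.ext
  intro a b
  have e00 : (g⁻¹ : Matrix.SpecialLinearGroup (Fin 2) k) 0 0 = g 1 1 := gc_inv00 g
  have e01 : (g⁻¹ : Matrix.SpecialLinearGroup (Fin 2) k) 0 1 = - g 0 1 := gc_inv01 g
  have e10 : (g⁻¹ : Matrix.SpecialLinearGroup (Fin 2) k) 1 0 = - g 1 0 := gc_inv10 g
  have e11 : (g⁻¹ : Matrix.SpecialLinearGroup (Fin 2) k) 1 1 = g 0 0 := gc_inv11 g
  fin_cases a <;> fin_cases b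
  · refine (gc_inv00 (cj u g)).trans ?_
    change g 1 1 = (g⁻¹ : Matrix.SpecialLinearGroup (Fin 2) k) 0 0
    rw [e00]
  · refine (gc_inv01 (cj u g)).trans ?_
    change -((u : k) * g 0 1) = (u : k) * (g⁻¹ : Matrix.SpecialLinearGroup (Fin 2) k) 0 1
    rw [e01]; ring
  · refine (gc_inv10 (cj u g)).trans ?_
    change -(((u⁻¹ : kˣ) : k) * g 1 0) =
      ((u⁻¹ : kˣ) : k) * (g⁻¹ : Matrix.SpecialLinearGroup (Fin 2) k) 1 0
    rw [e10]; ring
  · refine (gc_inv11 (cj u g)).trans ?_
    change g 0 0 = (g⁻¹ : Matrix.SpecialLinearGroup (Fin 2) k) 1 1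
    rw [e11]

theorem gc_diag_inv (T : Fin (n + 1) → kˣ) :
    Matrix.diagonal (fun a => (((T a)⁻¹ : kˣ) : k)) * Matrix.diagonal (fun a => (T a : k)) =
      (1 : Mx n k) := by
  rw [Matrix.diagonal_mul_diagonal]
  simp

/-- the torus normalises the conjugation action -/
theorem gc_tor (i : Fin n) (χ : Multiplicative (Ln n) →* kˣ)
    (g : Matrix.SpecialLinearGroup (Fin 2) k) (p : Sg n → k) :
    toM (tact (wt (n := n)) χ (fun ab =>
        (emb i (g : Matrix (Fin 2) (Fin 2) k) * toM p *
          emb i ((g⁻¹ : Matrix.SpecialLinearGroup (Fin 2) k) : Matrix (Fin 2) (Fin 2) k))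
            ab.1 ab.2)) =
        emb i ((cj (χ (Multiplicative.ofAdd (aln i))) g : Matrix.SpecialLinearGroup (Fin 2) k) :
          Matrix (Fin 2) (Fin 2) k) * toM (tact (wt (n := n)) χ p) *
        emb i (((cj (χ (Multiplicative.ofAdd (aln i))) g)⁻¹ :
          Matrix.SpecialLinearGroup (Fin 2) k) : Matrix (Fin 2) (Fin 2) k) := by
  rw [gc_toM_tact, gc_toM_tact, gc_toM_fun, gc_cj_inv, gc_al, ← gc_diag_emb, ← gc_diag_emb]
  rw [Matrix.mul_smul, Matrix.smul_mul]
  congr 1
  generalize hD : (Matrix.diagonal (fun a => (gc_T χ a : k)) : Mx n k) = D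
  generalize hD' : (Matrix.diagonal (fun a => (((gc_T χ a)⁻¹ : kˣ) : k)) : Mx n k) = D'
  have hDD : D' * D = 1 := by
    rw [← hD, ← hD']
    exact gc_diag_inv (gc_T χ)
  generalize emb i (g : Matrix (Fin 2) (Fin 2) k) = A
  generalize emb i ((g⁻¹ : Matrix.SpecialLinearGroup (Fin 2) k) : Matrix (Fin 2) (Fin 2) k) = B
  calc D * (A * toM p * B) * D' = D * A * 1 * toM p * 1 * B * D' := by
        rw [Matrix.mul_one, Matrix.mul_one]
        simp only [Matrix.mul_assoc]
    _ = _ := by
        rw [← hDD]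
        simp only [Matrix.mul_assoc]

/-- the sign matrix entries of the Weyl element on the left -/
theorem gc_ss_left (i : Fin n) (N : Mx n k) (a b : Fin (n + 1)) :
    (emb i ((ss : Matrix.SpecialLinearGroup (Fin 2) k) : Matrix (Fin 2) (Fin 2) k) * N) a b =
      (eta k i a : k) * N (sw i a) b := by
  by_cases h0 : a = i.castSucc
  · subst h0
    rw [gc_mul0]
    simp [ss, eta, gc_ne' i, sw]
  · by_cases h1 : a = i.succ
    · subst h1
      rw [gc_mul1]
      simp [ss, eta, sw]
    · rw [gc_mul2 _ _ _ _ _ h0 h1]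
      simp [eta, h1, sw, Equiv.swap_apply_of_ne_of_ne h0 h1]

theorem gc_ss_right (i : Fin n) (N : Mx n k) (a b : Fin (n + 1)) :
    (N * emb i (((ss : Matrix.SpecialLinearGroup (Fin 2) k)⁻¹ :
      Matrix.SpecialLinearGroup (Fin 2) k) : Matrix (Fin 2) (Fin 2) k)) a b =
      (eta k i b : k) * N a (sw i b) := by
  by_cases h0 : b = i.castSucc
  · subst h0
    rw [gc_cmul0, gc_inv00, gc_inv10]
    simp [ss, eta, gc_ne' i, sw]
  · by_cases h1 : b = i.succ
    · subst h1
      rw [gc_cmul1, gc_inv01, gc_inv11]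
      simp [ss, eta, sw]
    · rw [gc_cmul2 _ _ _ _ _ h0 h1]
      simp [eta, h1, sw, Equiv.swap_apply_of_ne_of_ne h0 h1]

theorem gc_single_comp (i : Fin n) (a : Fin (n + 1)) :
    (Pi.single a (1 : ℤ) : Fin (n + 1) → ℤ) ∘ sw i = Pi.single (sw i a) 1 := by
  funext c
  simp only [Function.comp_apply, Pi.single_apply]
  have : sw i c = a ↔ c = sw i a := by
    constructor
    · rintro rfl
      simp [sw]
    · rintro rfl
      simp [sw]
  simp only [this]

theorem gc_h_mem (i : Fin n) :
    (X (i.castSucc, i.castSucc) - X (i.succ, i.succ) : MvPolynomial (Sg n) k) ∈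
      pc k (wt (n := n)) hbn := by
  refine Submodule.sub_mem _ ?_ ?_
  · have h := isWeightedHomogeneous_X k (wt (n := n)) (i.castSucc, i.castSucc)
    have h2 : (wt (i.castSucc, i.castSucc) : Ln n) = hbn := by simp [wt, hbn]
    rw [h2] at h
    exact h
  · have h := isWeightedHomogeneous_X k (wt (n := n)) (i.succ, i.succ)
    have h2 : (wt (i.succ, i.succ) : Ln n) = hbn := by simp [wt, hbn]
    rw [h2] at h
    exact h

theorem gc_eval_h (i : Fin n) (q : Sg n → k) :
    eval q (X (i.castSucc, i.castSucc) - X (i.succ, i.succ)) =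
      q (i.castSucc, i.castSucc) - q (i.succ, i.succ) := by
  rw [map_sub, eval_X, eval_X]

/-- conjugation action of `SL₂` embedded in rows/columns `i, i+1` -/
def actn (k : Type) [Field k] (i : Fin n) : SL2Act k (wt (n := n)) hbn (aln i) (sLn i) where
  ρ :=
    { toFun := fun g =>
        { toFun := fun p => fun ab =>
            (emb i (g : Matrix (Fin 2) (Fin 2) k) * toM p *
              emb i ((g⁻¹ : Matrix.SpecialLinearGroup (Fin 2) k) : Matrix (Fin 2) (Fin 2) k)) ab.1 ab.2
          map_add' := by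
            intro p q
            funext ab
            simp only [gc_toM_add, Matrix.mul_add, Matrix.add_mul, Matrix.add_apply, Pi.add_apply]
          map_smul' := by
            intro c p
            funext ab
            simp only [gc_toM_smul, Matrix.mul_smul, Matrix.smul_mul, Matrix.smul_apply,
              Pi.smul_apply, RingHom.id_apply] }
      map_one' := by
        refine LinearMap.ext fun p => ?_
        funext ab
        simp [gc_emb_one, toM]
      map_mul' := by
        intro g g'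
        refine LinearMap.ext fun p => ?_
        funext ab
        have h : (g * g')⁻¹ = g'⁻¹ * g⁻¹ := _root_.mul_inv_rev g g'
        simp only [LinearMap.coe_mk, AddHom.coe_mk, Module.End.mul_apply, gc_toM_fun, h,
          Matrix.SpecialLinearGroup.coe_mul, gc_emb_mul, Matrix.mul_assoc] }
  px := by
    refine ⟨fun j l => (Polynomial.C (if j.1 = l.1 then 1 else 0) +
      Polynomial.X * Polynomial.C (gc_ux i j.1 l.1)) *
        (Polynomial.C (if l.2 = j.2 then 1 else 0) - Polynomial.X * Polynomial.C (gc_ux i l.2 j.2)),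
        ?_⟩
    intro t p j
    change (emb i ((xx t : Matrix.SpecialLinearGroup (Fin 2) k) : Matrix (Fin 2) (Fin 2) k) *
      toM p * emb i (((xx t)⁻¹ : Matrix.SpecialLinearGroup (Fin 2) k) :
        Matrix (Fin 2) (Fin 2) k)) j.1 j.2 = _
    rw [gc_triple]
    refine Finset.sum_congr rfl fun l _ => ?_
    rw [gc_xx_inv, gc_emb_xx, gc_emb_xx]
    simp only [Polynomial.eval_mul, Polynomial.eval_add, Polynomial.eval_sub, Polynomial.eval_C,
      Polynomial.eval_X]
    ring
  py := by
    refine ⟨fun j l => (Polynomial.C (if j.1 = l.1 then 1 else 0) +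
      Polynomial.X * Polynomial.C (gc_uy i j.1 l.1)) *
        (Polynomial.C (if l.2 = j.2 then 1 else 0) - Polynomial.X * Polynomial.C (gc_uy i l.2 j.2)),
        ?_⟩
    intro t p j
    change (emb i ((yy t : Matrix.SpecialLinearGroup (Fin 2) k) : Matrix (Fin 2) (Fin 2) k) *
      toM p * emb i (((yy t)⁻¹ : Matrix.SpecialLinearGroup (Fin 2) k) :
        Matrix (Fin 2) (Fin 2) k)) j.1 j.2 = _
    rw [gc_triple]
    refine Finset.sum_congr rfl fun l _ => ?_
    rw [gc_yy_inv, gc_emb_yy, gc_emb_yy]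
    simp only [Polynomial.eval_mul, Polynomial.eval_add, Polynomial.eval_sub, Polynomial.eval_C,
      Polynomial.eval_X]
    ring
  ei := (i.castSucc, i.succ)
  fi := (i.succ, i.castSucc)
  h := X (i.castSucc, i.castSucc) - X (i.succ, i.succ)
  we := by
    refine Prod.ext ?_ (Prod.ext ?_ ?_) <;> simp [wt, hbn, aln]
  wf := by
    refine Prod.ext ?_ (Prod.ext ?_ ?_) <;> simp [wt, hbn, aln]
  hh := gc_h_mem i
  tr_e := by
    intro g p
    change (emb i (g : Matrix (Fin 2) (Fin 2) k) * toM p *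
      emb i ((g⁻¹ : Matrix.SpecialLinearGroup (Fin 2) k) : Matrix (Fin 2) (Fin 2) k))
        i.castSucc i.succ = _
    rw [gc_conj01, gc_inv01, gc_inv11]
    simp only [toM, Matrix.of_apply, map_sub, eval_X]
    ring
  tr_h := by
    intro g p
    rw [gc_eval_h, gc_eval_h]
    change (emb i (g : Matrix (Fin 2) (Fin 2) k) * toM p *
      emb i ((g⁻¹ : Matrix.SpecialLinearGroup (Fin 2) k) : Matrix (Fin 2) (Fin 2) k))
        i.castSucc i.castSucc - (emb i (g : Matrix (Fin 2) (Fin 2) k) * toM p *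
      emb i ((g⁻¹ : Matrix.SpecialLinearGroup (Fin 2) k) : Matrix (Fin 2) (Fin 2) k))
        i.succ i.succ = _
    rw [gc_conj00, gc_conj11, gc_inv01, gc_inv11, gc_inv00, gc_inv10]
    simp only [toM, Matrix.of_apply]
    ring
  tr_f := by
    intro g p
    change (emb i (g : Matrix (Fin 2) (Fin 2) k) * toM p *
      emb i ((g⁻¹ : Matrix.SpecialLinearGroup (Fin 2) k) : Matrix (Fin 2) (Fin 2) k))
        i.succ i.castSucc = _
    rw [gc_conj10, gc_inv00, gc_inv10]
    simp only [toM, Matrix.of_apply, map_sub, eval_X]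
    ring
  tor := by
    intro χ g p
    have key := gc_tor i χ g p
    funext ab
    have k2 := congrFun (congrFun key ab.1) ab.2
    rw [toM, Matrix.of_apply] at k2
    exact k2
  perm := Equiv.prodCongr (sw i) (sw i)
  sgn := fun ab => eta k i ab.1 * eta k i ab.2
  rho_s := by
    intro p j
    change (emb i ((ss : Matrix.SpecialLinearGroup (Fin 2) k) : Matrix (Fin 2) (Fin 2) k) *
      toM p * emb i ((ss⁻¹ : Matrix.SpecialLinearGroup (Fin 2) k) :
        Matrix (Fin 2) (Fin 2) k)) j.1 j.2 = _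
    rw [gc_ss_right, gc_ss_left, Units.val_mul]
    change _ = _ * p (sw i j.1, sw i j.2)
    simp only [toM, Matrix.of_apply]
    ring
  w_perm := by
    intro j
    change wt (sw i j.1, sw i j.2) = ((wt j).1 ∘ sw i, (wt j).2)
    refine Prod.ext ?_ rfl
    change (Pi.single (sw i j.1) (1 : ℤ) - Pi.single (sw i j.2) 1 : Fin (n + 1) → ℤ) =
      (Pi.single j.1 (1 : ℤ) - Pi.single j.2 1 : Fin (n + 1) → ℤ) ∘ sw i
    rw [← gc_single_comp, ← gc_single_comp]
    rfl

/-- coordinates of `b` -/
def An (n : ℕ) : Finset (Sg n) := Finset.univ.filter (fun p => p.1 ≤ p.2)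

/-- the sets `E v u` -/
def En (k : Type) [Field k] (v u : Wn n) : Set (Sg n → k) :=
  {p | UT (toM p) ∧ (∀ a b, a ≠ b → p (a, a) ≠ p (b, b)) ∧ InC v (Wm (toM p) * PM k u)}

/-- the line attached to `(i, v, u)` -/
def Lfn (i : Fin n) (v u : Wn n) (p : Sg n → k) : Fin 2 → k :=
  ![mnr (mv_le i v) (ra i v) (Wm (toM p) * PM k u), mnr (mv_le i v) (rb i v) (Wm (toM p) * PM k u)]

/-- generic matrix -/
def gen (k : Type) [Field k] (n : ℕ) : Mx n (MvPolynomial (Sg n) k) := Matrix.of fun a b => X (a, b)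

def qn (k : Type) [Field k] (i : Fin n) (v u : Wn n) : MvPolynomial (Sg n) k :=
  mnr (mv_le i v) (ra i v) (Wm (gen k n) * PM _ u)

def qn' (k : Type) [Field k] (i : Fin n) (v u : Wn n) : MvPolynomial (Sg n) k :=
  mnr (mv_le i v) (rb i v) (Wm (gen k n) * PM _ u)

/-- common weight -/
def cqn (i : Fin n) (v u : Wn n) : Ln n :=
  (∑ j : Fin (mv i v), (Pi.single (ra i v j) 1 - Pi.single (u (Fin.castLE (mv_le i v) j)) 1),
    ∑ j : Fin (mv i v), ((u (Fin.castLE (mv_le i v) j) : Fin (n + 1)) : ℤ), 0) - wy1n i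

end Pool.Agent.CSM.GL
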